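import Pool.Agent.H678.Lomb.Defs

/-!
# Circular arcs and the slit plane

The arc that leaves `p` in the direction `a` and ends in `q` consists of the points `x` for which
`a (q - x) / ((q - p) (p - x))` is a negative real number.
-/

namespace Pool.Agent.H678.Lomb

open Complex

theorem two_I_sin (y : ℂ) : exp (y * I) - exp (-(y * I)) = 2 * I * sin y := by
  rw [Complex.sin, ← neg_mul]
  linear_combination (exp (y * I) - exp (-y * I)) * I_sq

theorem exp_sub_exp (x y : ℂ) : exp (x * I) - exp (y * I) =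
    exp (x / 2 * I) * exp (y / 2 * I) * (2 * I * sin (x / 2 - y / 2)) := by
  rw [← two_I_sin, mul_sub, ← exp_add, ← exp_add, ← exp_add]
  congr 1 <;> · congr 1; ring

/-- Positive real numbers. -/
def Pos (w : ℂ) : Prop := ∃ r : ℝ, 0 < r ∧ w = r

theorem Pos.ne {w : ℂ} (h : Pos w) : w ≠ 0 := by
  obtain ⟨r, hr, rfl⟩ := h
  exact_mod_cast hr.ne'

theorem Pos.mul {w v : ℂ} (h : Pos w) (h' : Pos v) : Pos (w * v) := by
  obtain ⟨r, hr, rfl⟩ := h
  obtain ⟨s, hs, rfl⟩ := h'
  exact ⟨r * s, mul_pos hr hs, by push_cast; ring⟩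

theorem Pos.inv {w : ℂ} (h : Pos w) : Pos w⁻¹ := by
  obtain ⟨r, hr, rfl⟩ := h
  exact ⟨r⁻¹, inv_pos.2 hr, by push_cast; ring⟩

theorem Pos.div {w v : ℂ} (h : Pos w) (h' : Pos v) : Pos (w / v) := by
  rw [div_eq_mul_inv]; exact h.mul h'.inv

theorem Pos.mul_mem {w v : ℂ} (h : Pos w) : w * v ∈ slitPlane ↔ v ∈ slitPlane := by
  obtain ⟨r, hr, rfl⟩ := h
  simp only [mem_slitPlane_iff, re_ofReal_mul, im_ofReal_mul]
  constructor
  · rintro (h | h)
    · exact Or.inl (pos_of_mul_pos_right h hr.le)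
    · exact Or.inr (right_ne_zero_of_mul h)
  · rintro (h | h)
    · exact Or.inl (mul_pos hr h)
    · exact Or.inr (mul_ne_zero hr.ne' h)

theorem Pos.mem {w : ℂ} (h : Pos w) : w ∈ slitPlane := by
  obtain ⟨r, hr, rfl⟩ := h
  simp [mem_slitPlane_iff, hr]

theorem notMem_slit {w : ℂ} : w ∉ slitPlane ↔ ∃ s : ℝ, 0 ≤ s ∧ w = -(s : ℂ) := by
  rw [mem_slitPlane_iff]
  push Not
  constructor
  · rintro ⟨h1, h2⟩
    refine ⟨-w.re, by linarith, ?_⟩
    apply Complex.ext <;> simp [h2]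
  · rintro ⟨s, hs, rfl⟩
    simp [hs]

/-- The ratio that is negative exactly on the arc. -/
noncomputable def rat (p q a x : ℂ) : ℂ := a * (q - x) / ((q - p) * (p - x))

/-- The point with a given ratio. -/
theorem eq_of_rat {p q a x y : ℂ} (hpq : p ≠ q) (ha : a / (q - p) ∈ slitPlane) {s : ℝ} (hs : 0 ≤ s)
    (hxp : x ≠ p) (hyp : y ≠ p) (hx : rat p q a x = -(s : ℂ)) (hy : rat p q a y = -(s : ℂ)) :
    x = y := by
  have h1 : q - p ≠ 0 := sub_ne_zero.2 hpq.symm
  have h2 : p - x ≠ 0 := sub_ne_zero.2 hxp.symm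
  have h3 : p - y ≠ 0 := sub_ne_zero.2 hyp.symm
  unfold rat at hx hy
  rw [div_eq_iff (mul_ne_zero h1 h2)] at hx
  rw [div_eq_iff (mul_ne_zero h1 h3)] at hy
  have h4 : a + s * (q - p) ≠ 0 := by
    intro h
    have : a / (q - p) = -(s : ℂ) := by
      rw [div_eq_iff h1]
      linear_combination h
    exact (notMem_slit.2 ⟨s, hs, this⟩) ha
  have h5 : (a + s * (q - p)) * (x - y) = 0 := by linear_combination hy - hx
  exact sub_eq_zero.1 ((mul_eq_zero.1 h5).resolve_left h4)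

section circ

variable {c p q a b : ℂ} {r φ α σ : ℝ}

theorem circ_sub (hp : p = c + r * exp (φ * I))
    (hq : q = c + r * exp ((φ + σ * α : ℝ) * I)) :
    q - p = r * exp (φ / 2 * I) * exp ((φ + σ * α : ℝ) / 2 * I) * (2 * I * sin (σ * α / 2)) := by
  have h := exp_sub_exp ((φ + σ * α : ℝ) : ℂ) φ
  have h2 : ((φ + σ * α : ℝ) : ℂ) / 2 - φ / 2 = σ * α / 2 := by push_cast; ring
  rw [h2] at h
  rw [hq, hp]
  linear_combination (r : ℂ) * h

theorem exp_half (y : ℂ) : exp (y * I) = exp (y / 2 * I) * exp (y / 2 * I) := by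
  rw [← exp_add]; congr 1; ring

theorem circ_rat (hr : 0 < r) (hα : 0 < α) (hα' : α < 2 * Real.pi) (hσ : σ = 1 ∨ σ = -1)
    (hp : p = c + r * exp (φ * I))
    (hq : q = c + r * exp ((φ + σ * α : ℝ) * I)) (ha : a = σ * I * exp (φ * I))
    {t : ℝ} (ht : 0 < t) (ht' : t < 1) {x : ℂ} (hx : x = c + r * exp ((φ + σ * (t * α) : ℝ) * I)) :
    rat p q a x = -((Real.sin ((α - t * α) / 2) /
      (2 * r * Real.sin (α / 2) * Real.sin (t * α / 2)) : ℝ) : ℂ) := by
  have h1 := circ_sub hp hq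
  have h2 := circ_sub (α := t * α) hp hx
  have h3 : q - x = r * exp ((φ + σ * (t * α) : ℝ) / 2 * I) * exp ((φ + σ * α : ℝ) / 2 * I) *
      (2 * I * sin (σ * (α - t * α) / 2)) := by
    have h := exp_sub_exp ((φ + σ * α : ℝ) : ℂ) ((φ + σ * (t * α) : ℝ) : ℂ)
    have h2 : ((φ + σ * α : ℝ) : ℂ) / 2 - ((φ + σ * (t * α) : ℝ) : ℂ) / 2 =
      σ * (α - t * α) / 2 := by push_cast; ring
    rw [h2] at h
    rw [hq, hx]
    linear_combination (r : ℂ) * h
  have hs1 : 0 < Real.sin (α / 2) := Real.sin_pos_of_pos_of_lt_pi (by linarith) (by linarith)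
  have htα : 0 < t * α := mul_pos ht hα
  have htα' : t * α < α := by nlinarith
  have hs2 : 0 < Real.sin (t * α / 2) :=
    Real.sin_pos_of_pos_of_lt_pi (by linarith) (by linarith)
  have hs3 : 0 < Real.sin ((α - t * α) / 2) :=
    Real.sin_pos_of_pos_of_lt_pi (by linarith) (by linarith)
  have e1 : sin ((σ : ℂ) * α / 2) = σ * (Real.sin (α / 2) : ℂ) := by
    rcases hσ with rfl | rfl
    · push_cast; simp
    · push_cast
      rw [show (-1 : ℂ) * α / 2 = -(α / 2) by ring, sin_neg]; ring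
  have e2 : sin ((σ : ℂ) * (t * α : ℝ) / 2) = σ * (Real.sin (t * α / 2) : ℂ) := by
    rcases hσ with rfl | rfl
    · push_cast; simp
    · push_cast
      rw [show (-1 : ℂ) * (t * α) / 2 = -(t * α / 2) by ring, sin_neg]; ring
  have e3 : sin ((σ : ℂ) * (α - t * α) / 2) = σ * (Real.sin ((α - t * α) / 2) : ℂ) := by
    rcases hσ with rfl | rfl
    · push_cast; simp
    · push_cast
      rw [show (-1 : ℂ) * (α - t * α) / 2 = -((α - t * α) / 2) by ring, sin_neg]; ring
  rw [e1] at h1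
  rw [e2] at h2
  rw [e3] at h3
  unfold rat
  have h2' : p - x = -(x - p) := by ring
  rw [h2', h1, h2, h3, ha, exp_half (φ : ℂ)]
  have hr0 : (r : ℂ) ≠ 0 := by exact_mod_cast hr.ne'
  have c1 : ((Real.sin (α / 2) : ℝ) : ℂ) ≠ 0 := by exact_mod_cast hs1.ne'
  have c2 : ((Real.sin (t * α / 2) : ℝ) : ℂ) ≠ 0 := by exact_mod_cast hs2.ne'
  have x1 := exp_ne_zero ((φ : ℂ) / 2 * I)
  have x2 := exp_ne_zero (((φ + σ * (t * α) : ℝ) : ℂ) / 2 * I)
  have x3 := exp_ne_zero (((φ + σ * α : ℝ) : ℂ) / 2 * I)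
  have hσ0 : (σ : ℂ) ≠ 0 := by rcases hσ with rfl | rfl <;> simp
  generalize exp ((φ : ℂ) / 2 * I) = X1 at *
  generalize exp (((φ + σ * (t * α) : ℝ) : ℂ) / 2 * I) = X2 at *
  generalize exp (((φ + σ * α : ℝ) : ℂ) / 2 * I) = X3 at *
  push_cast
  push_cast at c1 c2
  generalize sin ((α : ℂ) / 2) = S1 at *
  generalize sin ((t : ℂ) * α / 2) = S2 at *
  generalize sin (((α : ℂ) - t * α) / 2) = S3 at *
  field_simp [I_ne_zero]

theorem circ_inf (hr : 0 < r) (hα : 0 < α) (hα' : α < 2 * Real.pi) (hσ : σ = 1 ∨ σ = -1)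
    (hp : p = c + r * exp (φ * I))
    (hq : q = c + r * exp ((φ + σ * α : ℝ) * I)) (ha : a = σ * I * exp (φ * I)) :
    a / (q - p) ∈ slitPlane := by
  have h1 := circ_sub hp hq
  have hs1 : 0 < Real.sin (α / 2) := Real.sin_pos_of_pos_of_lt_pi (by linarith) (by linarith)
  have e1 : sin ((σ : ℂ) * α / 2) = σ * (Real.sin (α / 2) : ℂ) := by
    rcases hσ with rfl | rfl
    · push_cast; simp
    · push_cast
      rw [show (-1 : ℂ) * α / 2 = -(α / 2) by ring, sin_neg]; ring
  rw [e1] at h1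
  have hr0 : (r : ℂ) ≠ 0 := by exact_mod_cast hr.ne'
  have c1 : ((Real.sin (α / 2) : ℝ) : ℂ) ≠ 0 := by exact_mod_cast hs1.ne'
  have hσ0 : (σ : ℂ) ≠ 0 := by rcases hσ with rfl | rfl <;> simp
  have key : a / (q - p) = ((2 * r * Real.sin (α / 2) : ℝ) : ℂ)⁻¹ *
      exp ((-(σ * α / 2) : ℝ) * I) := by
    have h3 : exp (((φ + σ * α : ℝ) : ℂ) / 2 * I) * exp ((-(σ * α / 2) : ℝ) * I) =
        exp ((φ : ℂ) / 2 * I) := by
      rw [← exp_add]; congr 1; push_cast; ring
    rw [h1, ha, exp_half (φ : ℂ), ← h3]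
    have x1 := exp_ne_zero ((φ : ℂ) / 2 * I)
    have x3 := exp_ne_zero (((φ + σ * α : ℝ) : ℂ) / 2 * I)
    have x4 := exp_ne_zero (((-(σ * α / 2) : ℝ) : ℂ) * I)
    generalize exp (((-(σ * α / 2) : ℝ) : ℂ) * I) = X4 at *
    generalize exp (((φ + σ * α : ℝ) : ℂ) / 2 * I) = X3 at *
    push_cast
    push_cast at c1
    generalize sin ((α : ℂ) / 2) = S1 at *
    field_simp [I_ne_zero]
  rw [key, Pos.mul_mem ⟨(2 * r * Real.sin (α / 2))⁻¹, by positivity, by push_cast; rfl⟩]
  rw [mem_slitPlane_iff, exp_ofReal_mul_I_im]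
  right
  rw [Real.sin_neg, neg_ne_zero]
  rcases hσ with rfl | rfl
  · rw [one_mul]; exact hs1.ne'
  · rw [show -1 * α / 2 = -(α / 2) by ring, Real.sin_neg]; exact neg_ne_zero.2 hs1.ne'

theorem circ_mem (hr : 0 < r) (hα : 0 < α) (hα' : α < 2 * Real.pi) (hσ : σ = 1 ∨ σ = -1)
    (hp : p = c + r * exp (φ * I))
    (hq : q = c + r * exp ((φ + σ * α : ℝ) * I)) (ha : a = σ * I * exp (φ * I))
    {x : ℂ} (hxp : x ≠ p) (hxq : x ≠ q) (hx : rat p q a x ∉ slitPlane) :
    ∃ t : ℝ, 0 < t ∧ t < 1 ∧ x = c + r * exp ((φ + σ * (t * α) : ℝ) * I) := by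
  have hinf := circ_inf hr hα hα' hσ hp hq ha
  have hpq : p ≠ q := by
    intro h
    rw [h, sub_self, div_zero] at hinf
    exact (zero_notMem_slitPlane) hinf
  obtain ⟨s, hs, hxs⟩ := notMem_slit.1 hx
  have hs0 : 0 < s := by
    rcases hs.lt_or_eq with h | h
    · exact h
    · exfalso
      rw [← h] at hxs
      unfold rat at hxs
      rw [ofReal_zero, neg_zero, div_eq_zero_iff] at hxs
      have hσ0 : (σ : ℂ) ≠ 0 := by rcases hσ with rfl | rfl <;> simp
      rcases hxs with h | h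
      · rcases mul_eq_zero.1 h with h | h
        · rw [ha] at h
          simp [hσ0, exp_ne_zero] at h
        · exact hxq (sub_eq_zero.1 h).symm
      · rcases mul_eq_zero.1 h with h | h
        · exact hpq (sub_eq_zero.1 h).symm
        · exact hxp (sub_eq_zero.1 h).symm
  have hs1 : 0 < Real.sin (α / 2) := Real.sin_pos_of_pos_of_lt_pi (by linarith) (by linarith)
  set κ : ℝ := 2 * r * s + Real.cos (α / 2) / Real.sin (α / 2) with hκ
  have hκs : κ * Real.sin (α / 2) = 2 * r * s * Real.sin (α / 2) + Real.cos (α / 2) := by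
    rw [hκ]; field_simp
  have hc : ContinuousOn (fun u : ℝ => Real.cos u - κ * Real.sin u) (Set.Icc 0 (α / 2)) := by
    fun_prop
  have h0 : (0 : ℝ) ∈ Set.Ioo (Real.cos (α / 2) - κ * Real.sin (α / 2))
      (Real.cos 0 - κ * Real.sin 0) := by
    constructor
    · rw [hκs]
      have : 0 < 2 * r * s * Real.sin (α / 2) := by positivity
      linarith
    · simp
  obtain ⟨u, hu, hu0⟩ := intermediate_value_Ioo' (by linarith : (0 : ℝ) ≤ α / 2) hc h0
  simp only at hu0
  have ht : 0 < 2 * u / α := by have := hu.1; positivity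
  have ht' : 2 * u / α < 1 := by
    rw [div_lt_one hα]; have := hu.2; linarith
  refine ⟨2 * u / α, ht, ht', ?_⟩
  have hra := circ_rat hr hα hα' hσ hp hq ha ht ht' rfl
  have e0 : 2 * u / α * α = 2 * u := by field_simp
  have hsu : 0 < Real.sin u := Real.sin_pos_of_pos_of_lt_pi hu.1 (by linarith [hu.2])
  have e1 : Real.sin ((α - 2 * u / α * α) / 2) /
      (2 * r * Real.sin (α / 2) * Real.sin (2 * u / α * α / 2)) = s := by
    rw [e0, show (α - 2 * u) / 2 = α / 2 - u by ring, show 2 * u / 2 = u by ring, Real.sin_sub,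
      div_eq_iff (by positivity)]
    have : Real.cos u = κ * Real.sin u := by linarith
    rw [this]
    linear_combination Real.sin u * hκs
  rw [e1] at hra
  refine eq_of_rat hpq hinf hs hxp ?_ hxs hra
  intro h
  rw [h] at hra
  unfold rat at hra
  rw [sub_self, mul_zero, div_zero] at hra
  have : (s : ℂ) = 0 := by linear_combination hra
  exact hs0.ne' (by exact_mod_cast this)

end circ

theorem seg_unit {p q : ℂ} (h : p ≠ q) : ‖(q - p) / (‖q - p‖ : ℂ)‖ = 1 := by
  have : ‖q - p‖ ≠ 0 := norm_ne_zero_iff.2 (sub_ne_zero.2 h.symm)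
  rw [norm_div, norm_real, norm_norm, div_self this]

theorem norm_exp_I (y : ℝ) : ‖exp ((y : ℂ) * I)‖ = 1 := norm_exp_ofReal_mul_I y

variable {p q a b : ℂ} {A : Set ℂ}

theorem IsArc.unit (h : IsArc p q a b A) : ‖a‖ = 1 ∧ ‖b‖ = 1 := by
  rcases h with ⟨hpq, -, rfl, rfl⟩ | ⟨c, r, φ, α, σ, -, -, -, hσ, -, -, rfl, rfl, -⟩
  · exact ⟨seg_unit hpq, seg_unit hpq.symm⟩
  · simp only [norm_mul, norm_exp_I, norm_I, norm_neg, norm_real, mul_one]
    rcases hσ with rfl | rfl <;> simp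

theorem IsArc.inf (h : IsArc p q a b A) : a / (q - p) ∈ slitPlane := by
  rcases h with ⟨hpq, -, rfl, rfl⟩ | ⟨c, r, φ, α, σ, hr, hα, hα', hσ, hp, hq, ha, hb, -⟩
  · have h1 : q - p ≠ 0 := sub_ne_zero.2 hpq.symm
    have h2 : 0 < ‖q - p‖ := norm_pos_iff.2 h1
    refine Pos.mem ⟨‖q - p‖⁻¹, inv_pos.2 h2, ?_⟩
    push_cast
    field_simp
  · exact circ_inf hr hα hα' hσ hp hq ha

theorem IsArc.ne (h : IsArc p q a b A) : p ≠ q := by
  intro h'
  have := h.inf
  rw [h', sub_self, div_zero] at this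
  exact zero_notMem_slitPlane this

theorem IsArc.key (h : IsArc p q a b A) : Pos (-((q - p) ^ 2 * ((starRingEnd ℂ) (a * b)))) := by
  rcases h with ⟨hpq, -, rfl, rfl⟩ | ⟨c, r, φ, α, σ, hr, hα, hα', hσ, hp, hq, ha, hb, -⟩
  · have h1 : q - p ≠ 0 := sub_ne_zero.2 hpq.symm
    have h2 : 0 < ‖q - p‖ := norm_pos_iff.2 h1
    have h3 : ‖p - q‖ = ‖q - p‖ := norm_sub_rev _ _
    refine ⟨‖q - p‖ ^ 2, by positivity, ?_⟩
    have h4 : (q - p) * (starRingEnd ℂ) (q - p) = (‖q - p‖ : ℂ) ^ 2 := mul_conj' _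
    have h5 : (‖q - p‖ : ℂ) ≠ 0 := by exact_mod_cast h2.ne'
    rw [h3]
    simp only [map_mul, map_div₀, conj_ofReal, map_sub] at h4 ⊢
    push_cast
    field_simp
    have h6 : (starRingEnd ℂ) p - (starRingEnd ℂ) q =
      -((starRingEnd ℂ) q - (starRingEnd ℂ) p) := by ring
    rw [h6]
    linear_combination ((q - p) * ((starRingEnd ℂ) q - (starRingEnd ℂ) p) +
      (‖q - p‖ : ℂ) ^ 2) * h4
  · have h1 := circ_sub hp hq
    have hs1 : 0 < Real.sin (α / 2) := Real.sin_pos_of_pos_of_lt_pi (by linarith) (by linarith)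
    refine ⟨(2 * r * Real.sin (α / 2)) ^ 2, by positivity, ?_⟩
    have e1 : sin ((σ : ℂ) * α / 2) = σ * (Real.sin (α / 2) : ℂ) := by
      rcases hσ with rfl | rfl
      · push_cast; simp
      · push_cast
        rw [show (-1 : ℂ) * α / 2 = -(α / 2) by ring, sin_neg]; ring
    have hσ2 : (σ : ℂ) ^ 2 = 1 := by rcases hσ with rfl | rfl <;> simp
    rw [e1] at h1
    rw [h1, ha, hb, exp_half (φ : ℂ), exp_half ((φ + σ * α : ℝ) : ℂ)]
    have c1 : ∀ y : ℝ, (starRingEnd ℂ) (exp ((y : ℂ) / 2 * I)) * exp ((y : ℂ) / 2 * I) = 1 := by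
      intro y
      have h := norm_exp_I (y / 2)
      rw [mul_comm, mul_conj']
      push_cast at h
      rw [h]; simp
    have k1 := c1 φ
    have k2 := c1 (φ + σ * α)
    simp only [map_mul, map_neg, conj_ofReal, conj_I]
    generalize exp ((φ : ℂ) / 2 * I) = X1 at *
    generalize exp (((φ + σ * α : ℝ) : ℂ) / 2 * I) = X3 at *
    generalize (starRingEnd ℂ) X1 = Y1 at *
    generalize (starRingEnd ℂ) X3 = Y3 at *
    push_cast
    generalize sin ((α : ℂ) / 2) = S1 at *
    have : -((r * X1 * X3 * (2 * I * (σ * S1))) ^ 2 * (σ * -I * (Y1 * Y1) *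
        (-σ * -I * (Y3 * Y3)))) = (2 * r * S1) ^ 2 * (Y1 * X1) ^ 2 * (Y3 * X3) ^ 2 *
          ((σ : ℂ) ^ 2) ^ 2 * ((I ^ 2) ^ 2) := by ring
    rw [this, k1, k2, hσ2, I_sq]
    ring

theorem IsArc.mem (h : IsArc p q a b A) {x : ℂ} (hxp : x ≠ p) (hxq : x ≠ q)
    (hx : rat p q a x ∉ slitPlane) : x ∈ A := by
  have hinf := h.inf
  have hne := h.ne
  rcases h with ⟨hpq, rfl, ha, -⟩ | ⟨c, r, φ, α, σ, hr, hα, hα', hσ, hp, hq, ha, hb, rfl⟩
  · obtain ⟨s, hs, hxs⟩ := notMem_slit.1 hx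
    have h1 : q - p ≠ 0 := sub_ne_zero.2 hpq.symm
    have h2 : 0 < ‖q - p‖ := norm_pos_iff.2 h1
    have hs0 : 0 < s := by
      rcases hs.lt_or_eq with h | h
      · exact h
      · exfalso
        rw [← h] at hxs
        unfold rat at hxs
        rw [ofReal_zero, neg_zero, div_eq_zero_iff] at hxs
        rcases hxs with h | h
        · rcases mul_eq_zero.1 h with h | h
          · have := seg_unit hpq
            rw [← ha, h] at this
            simp at this
          · exact hxq (sub_eq_zero.1 h).symm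
        · rcases mul_eq_zero.1 h with h | h
          · exact h1 h
          · exact hxp (sub_eq_zero.1 h).symm
    have hN : (‖q - p‖ : ℂ) ≠ 0 := by exact_mod_cast h2.ne'
    have hD : (1 : ℝ) + s * ‖q - p‖ ≠ 0 := by positivity
    have hDc : (1 : ℂ) + s * ‖q - p‖ ≠ 0 := by exact_mod_cast hD
    refine ⟨1 - 1 / (1 + s * ‖q - p‖), 1 / (1 + s * ‖q - p‖), ?_, by positivity, by ring, ?_⟩
    · rw [sub_pos, div_lt_one (by positivity)]
      have : 0 < s * ‖q - p‖ := by positivity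
      linarith
    · symm
      have hcomb : (1 - 1 / (1 + s * ‖q - p‖)) • p + (1 / (1 + s * ‖q - p‖)) • q =
          p + (1 / (1 + s * ‖q - p‖) : ℝ) * (q - p) := by
        simp only [real_smul]; push_cast; ring
      rw [hcomb]
      refine eq_of_rat hpq hinf hs hxp ?_ hxs ?_
      · intro h
        have h3 : ((1 / (1 + s * ‖q - p‖) : ℝ) : ℂ) * (q - p) = 0 := by linear_combination h
        rcases mul_eq_zero.1 h3 with h | h
        · have : (1 / (1 + s * ‖q - p‖) : ℝ) = 0 := by exact_mod_cast h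
          have h4 : (0 : ℝ) < 1 / (1 + s * ‖q - p‖) := by positivity
          linarith
        · exact h1 h
      · unfold rat
        rw [ha]
        have e1 : q - (p + ((1 / (1 + s * ‖q - p‖) : ℝ) : ℂ) * (q - p)) =
            s * ‖q - p‖ / (1 + s * ‖q - p‖) * (q - p) := by
          push_cast; field_simp; ring
        have e2 : p - (p + ((1 / (1 + s * ‖q - p‖) : ℝ) : ℂ) * (q - p)) =
            -(1 / (1 + s * ‖q - p‖)) * (q - p) := by
          push_cast; ring
        rw [e1, e2]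
        have hDc' : (1 : ℂ) + ‖q - p‖ * s ≠ 0 := by rw [mul_comm]; exact hDc
        field_simp
  · exact circ_mem hr hα hα' hσ hp hq ha hxp hxq hx

theorem rat_openSegment {x : ℂ} (hpq : p ≠ q) (ha : a = (q - p) / ‖q - p‖)
    (hx : x ∈ openSegment ℝ p q) : x ≠ p ∧ x ≠ q ∧ rat p q a x ∉ slitPlane := by
  obtain ⟨u, t, hu, ht, hut, rfl⟩ := hx
  have h1 : q - p ≠ 0 := sub_ne_zero.2 hpq.symm
  have h2 : 0 < ‖q - p‖ := norm_pos_iff.2 h1
  have hN : (‖q - p‖ : ℂ) ≠ 0 := by exact_mod_cast h2.ne'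
  have hu0 : (u : ℂ) ≠ 0 := by exact_mod_cast hu.ne'
  have ht0 : (t : ℂ) ≠ 0 := by exact_mod_cast ht.ne'
  have hutc : (u : ℂ) + t = 1 := by exact_mod_cast hut
  have e1 : q - (u • p + t • q) = u * (q - p) := by
    simp only [real_smul]
    linear_combination (-q) * hutc
  have e2 : p - (u • p + t • q) = -(t * (q - p)) := by
    simp only [real_smul]
    linear_combination (-p) * hutc
  refine ⟨?_, ?_, ?_⟩
  · intro h
    rw [h, sub_self] at e2
    have : (t : ℂ) * (q - p) = 0 := by linear_combination e2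
    exact (mul_ne_zero ht0 h1) this
  · intro h
    rw [h, sub_self] at e1
    exact (mul_ne_zero hu0 h1) e1.symm
  · rw [notMem_slit]
    refine ⟨u / (t * ‖q - p‖), by positivity, ?_⟩
    unfold rat
    rw [e1, e2, ha]
    push_cast
    field_simp

theorem IsArc.symm (h : IsArc p q a b A) : IsArc q p b a A := by
  rcases h with ⟨hpq, hA, ha, hb⟩ | ⟨c, r, φ, α, σ, hr, hα, hα', hσ, hp, hq, ha, hb, hA⟩
  · exact Or.inl ⟨hpq.symm, by rw [hA, openSegment_symm], hb, ha⟩
  · have hσ' : -σ = 1 ∨ -σ = -1 := by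
      rcases hσ with rfl | rfl <;> simp
    have h0 : (φ + σ * α) + -σ * α = φ := by ring
    refine Or.inr ⟨c, r, φ + σ * α, α, -σ, hr, hα, hα', hσ', hq, by rw [h0]; exact hp,
      by rw [hb]; push_cast; ring, by rw [h0, ha]; push_cast; ring, ?_⟩
    rw [hA]
    ext x
    simp only [Set.mem_ofPred_eq]
    constructor
    · rintro ⟨t, h1, h2, rfl⟩
      refine ⟨1 - t, by linarith, by linarith, ?_⟩
      rw [show φ + σ * α + -σ * ((1 - t) * α) = φ + σ * (t * α) by ring]
    · rintro ⟨t, h1, h2, rfl⟩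
      refine ⟨1 - t, by linarith, by linarith, ?_⟩
      rw [show φ + σ * α + -σ * (t * α) = φ + σ * ((1 - t) * α) by ring]

/-- Existence of arcs. -/
theorem exists_arc (hpq : p ≠ q) (ha : ‖a‖ = 1) (hb : ‖b‖ = 1)
    (hk : Pos (-((q - p) ^ 2 * ((starRingEnd ℂ) (a * b))))) (hinf : a / (q - p) ∈ slitPlane) :
    ∃ A, IsArc p q a b A ∧ ∀ x ∈ A, x ≠ p ∧ x ≠ q ∧ rat p q a x ∉ slitPlane := by
  have h1 : q - p ≠ 0 := sub_ne_zero.2 hpq.symm
  have h2 : 0 < ‖q - p‖ := norm_pos_iff.2 h1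
  have hN : (‖q - p‖ : ℂ) ≠ 0 := by exact_mod_cast h2.ne'
  have ha0 : a ≠ 0 := by rintro rfl; simp at ha
  have hb0 : b ≠ 0 := by rintro rfl; simp at hb
  have haa : a * (starRingEnd ℂ) a = 1 := by rw [mul_conj', ha]; simp
  have hbb : b * (starRingEnd ℂ) b = 1 := by rw [mul_conj', hb]; simp
  -- the value of `b`
  have hbv : b = -((q - p) ^ 2 / ‖q - p‖ ^ 2) * (starRingEnd ℂ) a := by
    obtain ⟨r, hr, hk⟩ := hk
    have h3 := congrArg (fun w : ℂ => ‖w‖) hk
    simp only [norm_neg, norm_mul, norm_pow, RCLike.norm_conj, ha, hb, mul_one, norm_real,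
      Real.norm_eq_abs, abs_of_pos hr] at h3
    rw [← h3] at hk
    push_cast at hk
    rw [map_mul] at hk
    field_simp
    linear_combination (-b) * hk - (q - p) ^ 2 * (starRingEnd ℂ) a * hbb
  by_cases him : (a / (q - p)).im = 0
  · -- a segment
    have hre : 0 < (a / (q - p)).re := by
      rcases mem_slitPlane_iff.1 hinf with h | h
      · exact h
      · exact absurd him h
    set t := (a / (q - p)).re with ht
    have h3 : a = t * (q - p) := by
      have : a / (q - p) = t := by apply Complex.ext <;> simp [him, ht]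
      rwa [div_eq_iff h1] at this
    have h4 : t * ‖q - p‖ = 1 := by
      have := ha
      rw [h3, norm_mul, norm_real, Real.norm_eq_abs, abs_of_pos hre] at this
      exact this
    have h4c : (t : ℂ) * ‖q - p‖ = 1 := by exact_mod_cast h4
    have h5 : a = (q - p) / ‖q - p‖ := by
      rw [h3]
      field_simp
      linear_combination h4c
    refine ⟨openSegment ℝ p q, Or.inl ⟨hpq, rfl, h5, ?_⟩, fun x hx => rat_openSegment hpq h5 hx⟩
    rw [hbv, norm_sub_rev p q]
    have h6 : (q - p) * (starRingEnd ℂ) a = ‖q - p‖ := by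
      have h7 : q - p = ‖q - p‖ * a := by rw [h5]; field_simp
      calc (q - p) * (starRingEnd ℂ) a = (‖q - p‖ : ℂ) * (a * (starRingEnd ℂ) a) := by
            rw [← mul_assoc, ← h7]
        _ = _ := by rw [haa, mul_one]
    field_simp
    linear_combination (-(q - p)) * h6
  · -- a circular arc
    set w : ℂ := a * ‖q - p‖ / (q - p) with hw
    have hwn : ‖w‖ = 1 := by
      rw [hw, norm_div, norm_mul, ha, norm_real, norm_norm, one_mul, div_self h2.ne']
    have hw0 : w ≠ 0 := by rintro h; rw [h] at hwn; simp at hwn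
    set β : ℝ := arg w with hβ
    have hwβ : w = exp (β * I) := by
      have := norm_mul_exp_arg_mul_I w
      rw [hwn, ofReal_one, one_mul] at this
      exact this.symm
    have hwim : w.im ≠ 0 := by
      have : w = (‖q - p‖ : ℝ) * (a / (q - p)) := by rw [hw]; ring
      rw [this, im_ofReal_mul]
      exact mul_ne_zero h2.ne' him
    have hsin : Real.sin β ≠ 0 := by
      have : w.im = Real.sin β := by rw [hwβ, exp_ofReal_mul_I_im]
      rwa [← this]
    have hβ0 : β ≠ 0 := by intro h; rw [h] at hsin; simp at hsin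
    have hβπ : β < Real.pi := lt_of_le_of_ne (arg_le_pi w) (by
      intro h; rw [h] at hsin; simp at hsin)
    have hβπ' : -Real.pi < β := neg_pi_lt_arg w
    obtain ⟨σ, hσ, hσβ⟩ : ∃ σ : ℝ, (σ = 1 ∨ σ = -1) ∧ 0 < -σ * β := by
      rcases lt_or_gt_of_ne hβ0 with h | h
      · exact ⟨1, Or.inl rfl, by linarith⟩
      · exact ⟨-1, Or.inr rfl, by linarith⟩
    have hσ2 : σ ^ 2 = 1 := by rcases hσ with rfl | rfl <;> norm_num
    have hσ2c : (σ : ℂ) ^ 2 = 1 := by exact_mod_cast hσ2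
    set α : ℝ := -2 * σ * β with hα
    have hα0 : 0 < α := by rw [hα]; nlinarith
    have hαπ : α < 2 * Real.pi := by
      rw [hα]; rcases hσ with rfl | rfl <;> linarith
    have hσα : σ * α = -2 * β := by rw [hα]; linear_combination (-2 * β) * hσ2
    have hsα : Real.sin (α / 2) = -σ * Real.sin β := by
      rw [hα]
      rcases hσ with rfl | rfl
      · rw [show -2 * 1 * β / 2 = -β by ring, Real.sin_neg]; ring
      · rw [show -2 * -1 * β / 2 = β by ring]; ring
    have hsα0 : 0 < Real.sin (α / 2) :=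
      Real.sin_pos_of_pos_of_lt_pi (by linarith) (by linarith)
    set r : ℝ := ‖q - p‖ / (2 * Real.sin (α / 2)) with hr
    have hr0 : 0 < r := by positivity
    set φ : ℝ := arg (-I * σ * a) with hφ
    have hφe : exp (φ * I) = -I * σ * a := by
      have h := norm_mul_exp_arg_mul_I (-I * σ * a)
      have h' : ‖-I * (σ : ℂ) * a‖ = 1 := by
        rw [norm_mul, norm_mul, norm_neg, norm_I, ha, norm_real]
        rcases hσ with rfl | rfl <;> simp
      rw [h', ofReal_one, one_mul] at h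
      exact h
    have hE : exp ((φ + σ * α : ℝ) * I) = -I * σ * a * (w⁻¹) ^ 2 := by
      rw [← hφe, hwβ, ← exp_neg, ← exp_nat_mul, ← exp_add, hσα]
      congr 1; push_cast; ring
    have hws : w⁻¹ - w = -(2 * I * Real.sin β) := by
      rw [hwβ, ← exp_neg]
      have := two_I_sin (β : ℂ)
      push_cast
      linear_combination -this
    have hp : p = (p - r * exp (φ * I)) + r * exp (φ * I) := by ring
    have hrs : (r : ℂ) * (2 * (-σ * Real.sin β)) = ‖q - p‖ := by
      have : r * (2 * (-σ * Real.sin β)) = ‖q - p‖ := by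
        rw [← hsα, hr]; field_simp
      exact_mod_cast this
    have hawq : a * w⁻¹ * ‖q - p‖ = q - p := by
      rw [hw]; field_simp
    have hq : q = (p - r * exp (φ * I)) + r * exp ((φ + σ * α : ℝ) * I) := by
      rw [hE, hφe]
      have h8 : (w⁻¹) ^ 2 - 1 = w⁻¹ * (w⁻¹ - w) := by field_simp
      have : q - p = r * (-I * σ * a) * ((w⁻¹) ^ 2 - 1) := by
        rw [h8, hws]
        linear_combination (-a * w⁻¹) * hrs - hawq + (-2 * (r : ℂ) * σ * a * w⁻¹ *
          Real.sin β) * I_sq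
      linear_combination this
    have haφ : a = σ * I * exp (φ * I) := by
      rw [hφe]
      linear_combination (-a) * hσ2c + (a * (σ : ℂ) ^ 2) * I_sq
    have hbφ : b = -σ * I * exp ((φ + σ * α : ℝ) * I) := by
      rw [hE, hbv]
      have h9 : (starRingEnd ℂ) a = a⁻¹ := eq_inv_of_mul_eq_one_right haa
      rw [h9]
      have h10 : w⁻¹ = (q - p) / (a * ‖q - p‖) := by rw [hw]; field_simp
      rw [h10]
      have : -(σ : ℂ) * I * (-I * σ * a * ((q - p) / (a * ‖q - p‖)) ^ 2) =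
        (σ : ℂ) ^ 2 * I ^ 2 * a * ((q - p) / (a * ‖q - p‖)) ^ 2 := by ring
      rw [this, hσ2c, I_sq]
      field_simp
    refine ⟨{x | ∃ t : ℝ, 0 < t ∧ t < 1 ∧
        x = (p - r * exp (φ * I)) + r * exp ((φ + σ * (t * α) : ℝ) * I)},
      Or.inr ⟨_, r, φ, α, σ, hr0, hα0, hαπ, hσ, hp, hq, haφ, hbφ, rfl⟩, ?_⟩
    rintro x ⟨t, ht, ht', hx⟩
    have h := circ_rat hr0 hα0 hαπ hσ hp hq haφ ht ht' hx
    have htα : 0 < t * α := mul_pos ht hα0
    have htα' : t * α < α := by nlinarith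
    have hs2 : 0 < Real.sin (t * α / 2) :=
      Real.sin_pos_of_pos_of_lt_pi (by linarith) (by linarith)
    have hs3 : 0 < Real.sin ((α - t * α) / 2) :=
      Real.sin_pos_of_pos_of_lt_pi (by linarith) (by linarith)
    have hpos : 0 < Real.sin ((α - t * α) / 2) /
      (2 * r * Real.sin (α / 2) * Real.sin (t * α / 2)) := by positivity
    generalize Real.sin ((α - t * α) / 2) /
      (2 * r * Real.sin (α / 2) * Real.sin (t * α / 2)) = s at h hpos
    have hs0 : (s : ℂ) ≠ 0 := by exact_mod_cast hpos.ne'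
    refine ⟨?_, ?_, ?_⟩
    · rintro rfl
      unfold rat at h
      rw [sub_self, mul_zero, div_zero] at h
      exact hs0 (by linear_combination h)
    · rintro rfl
      unfold rat at h
      rw [sub_self, mul_zero, zero_div] at h
      exact hs0 (by linear_combination h)
    · exact notMem_slit.2 ⟨s, hpos.le, h⟩

end Pool.Agent.H678.Lomb
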