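import Pool.Agent.H678.Lomb.Snd

/-!
# Completeness, part 1: the grid
-/

namespace Pool.Agent.H678.Lomb

open Complex ComplexConjugate

theorem zt_pos {s : ℕ} (h0 : 0 < s) (h6 : s < 6) : 0 < (zt s).re ∧ 0 < (zt s).im := by
  unfold zt
  rw [exp_ofReal_mul_I_re, exp_ofReal_mul_I_im]
  have h0' : (0 : ℝ) < s := by exact_mod_cast h0
  have h6' : (s : ℝ) < 6 := by exact_mod_cast h6
  have hπ := Real.pi_pos
  have a1 : 0 < 2 * Real.pi * s / 24 := by positivity
  have a2 : 2 * Real.pi * s / 24 < Real.pi / 2 := by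
    rw [div_lt_div_iff₀ (by norm_num) (by norm_num)]
    nlinarith
  exact ⟨Real.cos_pos_of_mem_Ioo ⟨by linarith, a2⟩, Real.sin_pos_of_pos_of_lt_pi a1 (by linarith)⟩

/-- Third quadrant. -/
theorem zt_neg {s : ℕ} (h0 : 12 < s) (h6 : s < 18) : (zt s).re < 0 ∧ (zt s).im < 0 := by
  obtain ⟨s, rfl⟩ := Nat.exists_eq_add_of_le h0.le
  rw [zt_add, zt_twelve, neg_one_mul]
  have := zt_pos (s := s) (by omega) (by omega)
  simp only [neg_re, neg_im]
  constructor <;> linarith [this.1, this.2]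

theorem zt_fourteen : (zt 14).re ≠ (zt 14).im := by
  rw [show 14 = 12 + 2 from rfl, zt_add, zt_twelve, neg_one_mul]
  unfold zt
  rw [neg_re, neg_im, exp_ofReal_mul_I_re, exp_ofReal_mul_I_im]
  rw [show 2 * Real.pi * ((2 : ℕ) : ℝ) / 24 = Real.pi / 6 by push_cast; ring,
    Real.cos_pi_div_six, Real.sin_pi_div_six]
  intro h
  have h3 : Real.sqrt 3 = 1 := by linarith
  have h4 := Real.sq_sqrt (show (0 : ℝ) ≤ 3 by norm_num)
  rw [h3] at h4
  norm_num at h4

theorem zt_inj {s t : ℕ} (hs : s < 24) (ht : t < 24) (h : zt s = zt t) : s = t := by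
  unfold zt at h
  rw [exp_eq_exp_iff_exists_int] at h
  obtain ⟨n, hn⟩ := h
  have h1 := congrArg im hn
  simp at h1
  have h2 : (s : ℝ) = t + 24 * n := by
    have hπ := Real.pi_ne_zero
    field_simp at h1
    linarith
  have h3 : (s : ℤ) = t + 24 * n := by exact_mod_cast h2
  omega

/-- Partial sums. -/
def psum (X : ℕ → ℝ) (j : ℕ) : ℝ := ∑ k ∈ Finset.range j, X k

theorem psum_succ (X : ℕ → ℝ) (j : ℕ) : psum X (j + 1) = psum X j + X j :=
  Finset.sum_range_succ _ _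

theorem psum_mono {X : ℕ → ℝ} (h : ∀ j, 0 < X j) : StrictMono (psum X) := by
  refine strictMono_nat_of_lt_succ fun j => ?_
  rw [psum_succ]
  linarith [h j]

theorem adj_of {f : ℕ → ℝ} (hf : StrictMono f) {p q l : ℕ} (hpq : p = q + 1 ∨ q = p + 1) {σ : ℝ}
    (hσ : 0 ≤ σ) (h : f q - f l = -σ * (f p - f l)) : σ = 0 := by
  by_contra hne
  have hσ' : 0 < σ := lt_of_le_of_ne hσ (Ne.symm hne)
  rcases hpq with rfl | rfl
  · have h1 : f q < f (q + 1) := hf (Nat.lt_succ_self _)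
    rcases Nat.lt_or_ge q l with hl | hl
    · have h2 : f (q + 1) ≤ f l := hf.monotone hl
      nlinarith
    · have h2 : f l ≤ f q := hf.monotone hl
      nlinarith
  · have h1 : f p < f (p + 1) := hf (Nat.lt_succ_self _)
    rcases Nat.lt_or_ge p l with hl | hl
    · have h2 : f (p + 1) ≤ f l := hf.monotone hl
      nlinarith
    · have h2 : f l ≤ f p := hf.monotone hl
      nlinarith

/-- The data of a solution, on the whole of `ℕ`. -/
structure Full (P : Par) (X Y : ℕ → ℝ) : Prop where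
  m : 2 ≤ P.1
  n : 2 ≤ P.2.1
  x : ∀ j, 0 < X j
  y : ∀ i, 0 < Y i
  x0 : X 0 = 1
  y0 : Y 0 = 1
  eq : ∀ j i, (j, i) ∈ P.2.2.1 → j + 1 < P.1 → i + 1 < P.2.1 → X j = Y i
  add : ∀ j i, (j, i) ∈ P.2.2.2.1 → j + 2 < P.1 → i + 1 < P.2.1 → X j + X (j + 1) = Y i
  mul : ∀ j i, (j, i) ∈ P.2.2.2.2 → j + 2 < P.1 → i + 2 < P.2.1 →
    Y i * X (j + 1) = Y (i + 1) * X j

/-- The grid points. -/
noncomputable def gp (X Y : ℕ → ℝ) (j i : ℕ) : ℂ := ⟨psum X j, psum Y i⟩

theorem gp_inj {X Y : ℕ → ℝ} (hX : ∀ j, 0 < X j) (hY : ∀ i, 0 < Y i) {j i k l : ℕ}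
    (h : gp X Y j i = gp X Y k l) : j = k ∧ i = l := by
  unfold gp at h
  rw [Complex.mk.injEq] at h
  exact ⟨(psum_mono hX).injective h.1, (psum_mono hY).injective h.2⟩

/-- Neighbouring rows or columns. -/
theorem gp_slit {X Y : ℕ → ℝ} (hX : ∀ j, 0 < X j) (hY : ∀ i, 0 < Y i) {a b c d k l : ℕ}
    (hadj : (a = c + 1 ∨ c = a + 1) ∨ (b = d + 1 ∨ d = b + 1))
    (hne : gp X Y k l ≠ gp X Y a b) (hne' : gp X Y k l ≠ gp X Y c d) :
    (gp X Y c d - gp X Y k l) / (gp X Y a b - gp X Y k l) ∈ slitPlane := by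
  by_contra hcon
  obtain ⟨σ, hσ, h⟩ := notMem_slit.1 hcon
  have h1 : gp X Y a b - gp X Y k l ≠ 0 := sub_ne_zero.2 hne.symm
  rw [div_eq_iff h1] at h
  have hr := congrArg re h
  have hi := congrArg im h
  have e : -(σ : ℂ) = ((-σ : ℝ) : ℂ) := by push_cast; rfl
  rw [e, re_ofReal_mul] at hr
  rw [e, im_ofReal_mul] at hi
  simp only [gp, sub_re, sub_im] at hr hi
  have h0 : σ = 0 := by
    rcases hadj with hadj | hadj
    · exact adj_of (psum_mono hX) hadj hσ hr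
    · exact adj_of (psum_mono hY) hadj hσ hi
  rw [h0, ofReal_zero, neg_zero, zero_mul] at h
  exact hne' (sub_eq_zero.1 h).symm

abbrev Ix : Type := Option (CV × ℕ)

/-- Core vertices as indices. -/
def co (v : CV) : Ix := some (v, 24)

theorem co_inj {v w : CV} : co v = co w ↔ v = w := by simp [co]

/-- The base drawing. -/
noncomputable def psi0 (X Y : ℕ → ℝ) : Ix → ℂ × ℂ
  | some ((t, j, i), _) => if t = 1 then (gp X Y j i, 1) else (1, 0)
  | none => (1, 0)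

theorem psi0_grid (X Y : ℕ → ℝ) (j i : ℕ) : psi0 X Y (co (1, j, i)) = (gp X Y j i, 1) := rfl

theorem psi0_inf (X Y : ℕ → ℝ) : psi0 X Y (co (0, 0, 0)) = (1, 0) := rfl

/-- The vertices in a part of the core. -/
def VS (S : Set CV) : Set Ix := {x | ∃ v ∈ S, x = co v}

/-- The edges in a part of the core. -/
def ES (P : Par) (S : Set CV) : Set (Ix × ℂ × Ix × ℂ) :=
  {e | ∃ v s w t, Ed P v s w t ∧ v ∈ S ∧ w ∈ S ∧ e = (co v, zt s, co w, zt t)}

/-- The vertex at infinity and the grid. -/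
def S0 (P : Par) : Set CV := {v | v ∈ cores P ∧ v.1 ≤ 1}

theorem mem_S0 {P : Par} {v : CV} (h : v ∈ S0 P) : v = (0, 0, 0) ∨
    ∃ j i, j < P.1 ∧ i < P.2.1 ∧ v = (1, j, i) := by
  obtain ⟨h1, h2⟩ := h
  rcases mem_cores.1 h1 with h | h | ⟨k, j, i, -, -, rfl⟩
  · exact Or.inl h
  · exact Or.inr h
  · exfalso
    have : 2 + k ≤ 1 := h2
    omega

theorem br_grid (z w : ℂ) : br (z, 1) (w, 1) = z - w := by simp [br]

theorem br_grid_inf (z : ℂ) : br (z, 1) (1, 0) = -1 := by simp [br]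

theorem br_inf_grid (z : ℂ) : br (1, 0) (z, 1) = 1 := by simp [br]

section

variable {P : Par} {X Y : ℕ → ℝ}

theorem straight_d2 {z w : ℂ} {s t : ℕ} {τ : ℝ} (hτ : 0 < τ) (h : w - z = τ * zt s)
    (hst : zt t = -zt s) : Pos (-((br (z, 1) (w, 1)) ^ 2 * conj (zt s * zt t))) := by
  refine ⟨τ ^ 2, by positivity, ?_⟩
  have e : z - w = -(τ * zt s) := by linear_combination -h
  rw [br_grid, e, hst, map_mul, map_neg]
  push_cast
  linear_combination (τ : ℂ) ^ 2 * (zt s * conj (zt s) + 1) * zt_conj_mul s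

theorem straight_d3 {j i k l j' i' : ℕ} {s : ℕ} {τ : ℝ} (hX : ∀ j, 0 < X j) (hY : ∀ i, 0 < Y i)
    (hτ : 0 < τ) (h : gp X Y k l - gp X Y j i = τ * zt s)
    (hadj : (j = k + 1 ∨ k = j + 1) ∨ (i = l + 1 ∨ l = i + 1))
    (hne : ((1, j', i') : CV) ≠ (1, j, i)) (hne' : ((1, j', i') : CV) ≠ (1, k, l)) :
    zt s * br (gp X Y k l, 1) (gp X Y j' i', 1) /
      (br (gp X Y k l, 1) (gp X Y j i, 1) * br (gp X Y j i, 1) (gp X Y j' i', 1)) ∈
        slitPlane := by
  have g1 : gp X Y j' i' ≠ gp X Y j i := by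
    intro h
    obtain ⟨rfl, rfl⟩ := gp_inj hX hY h
    exact hne rfl
  have g2 : gp X Y j' i' ≠ gp X Y k l := by
    intro h
    obtain ⟨rfl, rfl⟩ := gp_inj hX hY h
    exact hne' rfl
  have h1 := gp_slit hX hY hadj g1 g2
  rw [← mul_mem_slit (inv_pos.2 hτ)] at h1
  convert h1 using 1
  rw [br_grid, br_grid, br_grid, h]
  have e1 : gp X Y j i - gp X Y j' i' ≠ 0 := sub_ne_zero.2 g1.symm
  have e2 := zt_ne s
  have e3 : (τ : ℂ) ≠ 0 := by exact_mod_cast hτ.ne'
  push_cast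
  field_simp

theorem straight_inf {z w : ℂ} {s : ℕ} {τ : ℝ} (hτ : 0 < τ) (h : w - z = τ * zt s) :
    zt s * br (w, 1) (1, 0) / (br (w, 1) (z, 1) * br (z, 1) (1, 0)) ∈ slitPlane := by
  refine Pos.mem ⟨τ⁻¹, inv_pos.2 hτ, ?_⟩
  rw [br_grid, br_grid_inf, br_grid_inf, h]
  have e2 := zt_ne s
  have e3 : (τ : ℂ) ≠ 0 := by exact_mod_cast hτ.ne'
  push_cast
  field_simp

/-- The straight edges. -/
theorem Full.straight (h : Full P X Y) {v w : CV} {s t : ℕ} (he : Ed P v s w t) (hw : w.1 = 1) :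
    ∃ j i k l, v = (1, j, i) ∧ w = (1, k, l) ∧
      ((j = k + 1 ∨ k = j + 1) ∨ (i = l + 1 ∨ l = i + 1)) ∧ zt t = -zt s ∧
      ∃ τ : ℝ, 0 < τ ∧ gp X Y k l - gp X Y j i = τ * zt s := by
  cases he with
  | hor j i h1 h2 =>
    refine ⟨j, i, j + 1, i, rfl, rfl, by omega, zt_twelve', X j, h.x j, ?_⟩
    rw [zt_zero]
    apply Complex.ext <;> simp [gp, psum_succ]
  | ver j i h1 h2 =>
    refine ⟨j, i, j, i + 1, rfl, rfl, by omega, zt_eighteen, Y i, h.y i, ?_⟩
    rw [zt_six]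
    apply Complex.ext <;> simp [gp, psum_succ]
  | eq j i h0 h1 h2 =>
    have h3 := h.eq j i h0 h1 h2
    have h4 := h.x j
    have h5 := (zt_pos (s := 3) (by norm_num) (by norm_num)).1
    refine ⟨j, i + 1, j + 1, i, rfl, rfl, by omega, zt_nine, X j / (zt 3).re, by positivity, ?_⟩
    have h6 := zt_three
    have h7 : zt 21 = ⟨(zt 3).re, -(zt 3).re⟩ := by
      rw [show 21 = 18 + 3 from rfl, zt_add, zt_eighteen, zt_six]
      apply Complex.ext <;> simp [h6]
    rw [h7]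
    apply Complex.ext
    · rw [re_ofReal_mul]
      simp [gp, psum_succ]
      field_simp
    · rw [im_ofReal_mul]
      simp [gp, psum_succ]
      field_simp
      linarith
  | add j i h0 h1 h2 =>
    have h3 := h.add j i h0 h1 h2
    have h4 := h.y i
    have h5 := (zt_pos (s := 3) (by norm_num) (by norm_num)).1
    refine ⟨j, i, j + 2, i + 1, rfl, rfl, by omega, zt_fifteen, Y i / (zt 3).re, by positivity, ?_⟩
    have h6 := zt_three
    have h7 : zt 3 = ⟨(zt 3).re, (zt 3).re⟩ := by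
      apply Complex.ext <;> simp [h6]
    rw [h7]
    apply Complex.ext
    · rw [re_ofReal_mul]
      simp only [gp, psum_succ, sub_re]
      field_simp
      linarith
    · rw [im_ofReal_mul]
      simp [gp, psum_succ]
      field_simp
  | r0 => simp at hw
  | r1 => simp at hw
  | r2 => simp at hw
  | r3 => simp at hw
  | con k j i r hk hr h => simp at hw; omega

/-- The rays. -/
theorem Full.ray (h : Full P X Y) {v w : CV} {s t : ℕ} (he : Ed P v s w t) (hw : w.1 = 0) :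
    w = (0, 0, 0) ∧ s + t = 36 ∧ 12 < s ∧ s < 18 ∧ ∃ j i, v = (1, j, i) ∧
      ∀ k l, ((1, k, l) : CV) ≠ (1, j, i) → zt s / (gp X Y j i - gp X Y k l) ∈ slitPlane := by
  have key : ∀ j i s, 12 < s → s < 18 → (∀ k l, k < j → l < i → j = 1 ∧ i = 1 ∧ s = 14) →
      ∀ k l, ((1, k, l) : CV) ≠ (1, j, i) → zt s / (gp X Y j i - gp X Y k l) ∈ slitPlane := by
    intro j i s hs hs' hji k l hne
    by_contra hcon
    obtain ⟨σ, hσ, h1⟩ := notMem_slit.1 hcon
    have hg : gp X Y j i - gp X Y k l ≠ 0 := by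
      rw [sub_ne_zero]
      intro h2
      obtain ⟨rfl, rfl⟩ := gp_inj h.x h.y h2
      exact hne rfl
    rw [div_eq_iff hg] at h1
    have e : -(σ : ℂ) = ((-σ : ℝ) : ℂ) := by push_cast; rfl
    have h2 := congrArg re h1
    have h3 := congrArg im h1
    rw [e, re_ofReal_mul] at h2
    rw [e, im_ofReal_mul] at h3
    simp only [gp, sub_re, sub_im] at h2 h3
    obtain ⟨n1, n2⟩ := zt_neg hs hs'
    have hk : k < j := by
      by_contra hk
      have := (psum_mono h.x).monotone (Nat.le_of_not_lt hk)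
      nlinarith
    have hl : l < i := by
      by_contra hl
      have := (psum_mono h.y).monotone (Nat.le_of_not_lt hl)
      nlinarith
    obtain ⟨rfl, rfl, rfl⟩ := hji k l hk hl
    have hk0 : k = 0 := by omega
    have hl0 : l = 0 := by omega
    subst hk0 hl0
    have e1 : psum X 1 = 1 := by simp [psum, h.x0]
    have e2 : psum Y 1 = 1 := by simp [psum, h.y0]
    have e3 : psum X 0 = 0 := by simp [psum]
    have e4 : psum Y 0 = 0 := by simp [psum]
    rw [e1, e3] at h2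
    rw [e2, e4] at h3
    exact zt_fourteen (h2.trans h3.symm)
  cases he with
  | hor j i h1 h2 => simp at hw
  | ver j i h1 h2 => simp at hw
  | eq j i h0 h1 h2 => simp at hw
  | add j i h0 h1 h2 => simp at hw
  | r0 =>
    exact ⟨rfl, rfl, by norm_num, by norm_num, 0, 0, rfl,
      key 0 0 13 (by norm_num) (by norm_num) (by intro k l h; omega)⟩
  | r1 =>
    exact ⟨rfl, rfl, by norm_num, by norm_num, 1, 1, rfl,
      key 1 1 14 (by norm_num) (by norm_num) (by intro k l h h'; exact ⟨rfl, rfl, rfl⟩)⟩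
  | r2 =>
    exact ⟨rfl, rfl, by norm_num, by norm_num, 0, 1, rfl,
      key 0 1 16 (by norm_num) (by norm_num) (by intro k l h; omega)⟩
  | r3 =>
    exact ⟨rfl, rfl, by norm_num, by norm_num, 1, 0, rfl,
      key 1 0 17 (by norm_num) (by norm_num) (by intro k l h h'; omega)⟩
  | con k j i r hk hr h => simp at hw

/-- The base drawing. -/
theorem Full.base (h : Full P X Y) : Dr (VS (S0 P)) (ES P (S0 P)) (psi0 X Y) := by
  have hw1 : ∀ {w : CV}, w ∈ S0 P → w.1 = 1 ∨ w.1 = 0 := by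
    intro w hw
    rcases mem_S0 hw with rfl | ⟨j, i, -, -, rfl⟩
    · exact Or.inr rfl
    · exact Or.inl rfl
  refine ⟨?_, ?_, ?_, ?_⟩
  · rintro v a w b ⟨v, s, w, t, he, hv, hw, hvw⟩
    simp only [Prod.mk.injEq] at hvw
    obtain ⟨rfl, rfl, rfl, rfl⟩ := hvw
    exact ⟨⟨v, hv, rfl⟩, ⟨w, hw, rfl⟩, fun h => he.slotOf.2.2 (co_inj.1 h), zt_norm _, zt_norm _⟩
  · rintro _ ⟨v, hv, rfl⟩ _ ⟨w, hw, rfl⟩ hvw
    rcases mem_S0 hv with rfl | ⟨j, i, -, -, rfl⟩ <;> rcases mem_S0 hw with rfl | ⟨k, l, -, -, rfl⟩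
    · exact absurd rfl hvw
    · rw [psi0_inf, psi0_grid, br_inf_grid]; exact one_ne_zero
    · rw [psi0_inf, psi0_grid, br_grid_inf]; norm_num
    · rw [psi0_grid, psi0_grid, br_grid, sub_ne_zero]
      intro h'
      obtain ⟨rfl, rfl⟩ := gp_inj h.x h.y h'
      exact hvw rfl
  · rintro v a w b ⟨v, s, w, t, he, hv, hw, hvw⟩
    simp only [Prod.mk.injEq] at hvw
    obtain ⟨rfl, rfl, rfl, rfl⟩ := hvw
    rcases hw1 hw with h1 | h1
    · obtain ⟨j, i, k, l, rfl, rfl, -, hst, τ, hτ, hτ'⟩ := h.straight he h1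
      rw [psi0_grid, psi0_grid]
      exact straight_d2 hτ hτ' hst
    · obtain ⟨rfl, hst, -, -, j, i, rfl, -⟩ := h.ray he h1
      rw [psi0_grid, psi0_inf, br_grid_inf, ← zt_add, hst, show 36 = 24 + 12 from rfl, zt_add,
        zt_full, zt_twelve]
      exact ⟨1, one_pos, by simp⟩
  · rintro v a w b ⟨v, s, w, t, he, hv, hw, hvw⟩ x ⟨x, hx, rfl⟩ hxv hxw
    simp only [Prod.mk.injEq] at hvw
    obtain ⟨rfl, rfl, rfl, rfl⟩ := hvw
    rw [Ne, co_inj] at hxv hxw
    rcases hw1 hw with h1 | h1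
    · obtain ⟨j, i, k, l, rfl, rfl, hadj, hst, τ, hτ, hτ'⟩ := h.straight he h1
      rcases mem_S0 hx with rfl | ⟨j', i', -, -, rfl⟩
      · rw [psi0_grid, psi0_grid, psi0_inf]
        exact straight_inf hτ hτ'
      · rw [psi0_grid, psi0_grid, psi0_grid]
        exact straight_d3 h.x h.y hτ hτ' hadj hxv hxw
    · obtain ⟨rfl, hst, -, -, j, i, rfl, hsl⟩ := h.ray he h1
      rcases mem_S0 hx with rfl | ⟨j', i', -, -, rfl⟩
      · exact absurd rfl hxw
      · rw [psi0_grid, psi0_grid, psi0_inf, br_inf_grid, br_inf_grid, br_grid, mul_one, one_mul]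
        exact hsl j' i' hxv

end

end Pool.Agent.H678.Lomb
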