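import Pool.Agent.H678.Lomb.Base

/-!
# Completeness, part 2: connectors, leaves and the plane
-/

namespace Pool.Agent.H678.Lomb

open Complex ComplexConjugate

theorem ES_finite (P : Par) (h2 : 2 ≤ P.1) (h2' : 2 ≤ P.2.1) (S : Set CV) : (ES P S).Finite := by
  have h1 : ({v | v ∈ cores P} ×ˢ (Set.Iio 24 ×ˢ ({v | v ∈ cores P} ×ˢ Set.Iio 24)) :
      Set (CV × ℕ × CV × ℕ)).Finite :=
    (List.finite_toSet _).prod ((Set.finite_Iio 24).prod
      ((List.finite_toSet _).prod (Set.finite_Iio 24)))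
  refine (h1.image fun e => (co e.1, zt e.2.1, co e.2.2.1, zt e.2.2.2)).subset ?_
  rintro _ ⟨v, s, w, t, he, -, -, rfl⟩
  obtain ⟨g1, g2⟩ := he.mem h2 h2'
  obtain ⟨g3, g4⟩ := he.lt
  exact ⟨(v, s, w, t), ⟨g1, g3, g2, g4⟩, rfl⟩

theorem VS_finite {P : Par} {S : Set CV} (hS : S ⊆ {v | v ∈ cores P}) : (VS S).Finite := by
  refine ((List.finite_toSet (cores P)).image co).subset ?_
  rintro _ ⟨v, hv, rfl⟩
  exact ⟨v, hS hv, rfl⟩

theorem quad_slit {a δ : ℂ} (h1 : a.re < 0) (h2 : 0 ≤ δ.re) (hδ : δ ≠ 0) :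
    -(a / δ) ∈ slitPlane := by
  by_contra h
  obtain ⟨s, hs, h3⟩ := notMem_slit.1 h
  have h4 : a = s * δ := by
    have := neg_injective h3
    rwa [div_eq_iff hδ] at this
  have h5 := congrArg re h4
  rw [re_ofReal_mul] at h5
  nlinarith

/-- The ray condition. -/
def RayC (E : Set (Ix × ℂ × Ix × ℂ)) (ψ : Ix → ℂ × ℂ) : Prop :=
  ∀ v a w b, (v, a, w, b) ∈ E → v ≠ co (0, 0, 0) ∧
    (w = co (0, 0, 0) → a.re < 0 ∧ (ψ v).2 = 1)

theorem RayC.hr {E : Set (Ix × ℂ × Ix × ℂ)} {ψ : Ix → ℂ × ℂ} (h : RayC E ψ) {δ : ℂ}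
    (hδ : δ ≠ 0) (hδ' : 0 ≤ δ.re) : ∀ v a w b, (v, a, w, b) ∈ E → v ≠ co (0, 0, 0) ∧
      (w = co (0, 0, 0) → -(a / (δ * (ψ v).2 ^ 2)) ∈ slitPlane) := by
  intro v a w b he
  obtain ⟨h1, h2⟩ := h v a w b he
  refine ⟨h1, fun h => ?_⟩
  obtain ⟨h3, h4⟩ := h2 h
  rw [h4, one_pow, mul_one]
  exact quad_slit h3 hδ' hδ

section

variable {P : Par} {X Y : ℕ → ℝ}

theorem Full.rayC (h : Full P X Y) (S : Set CV) {ψ : Ix → ℂ × ℂ}
    (hψ : ∀ v ∈ S0 P, ψ (co v) = psi0 X Y (co v)) : RayC (ES P S) ψ := by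
  rintro v a w b ⟨v, s, w, t, he, hv, hw, hvw⟩
  simp only [Prod.mk.injEq] at hvw
  obtain ⟨rfl, rfl, rfl, rfl⟩ := hvw
  refine ⟨?_, ?_⟩
  · rw [Ne, co_inj]
    cases he <;> simp
  · rw [co_inj]
    rintro rfl
    obtain ⟨-, -, h1, h2, j, i, rfl, -⟩ := h.ray he rfl
    refine ⟨(zt_neg h1 h2).1, ?_⟩
    rw [hψ _ ⟨(he.mem h.m h.n).1, le_rfl⟩]
    rfl

/-- The direction of a connector. -/
noncomputable def del (X Y : ℕ → ℝ) (k j i : ℕ) : ℂ := ⟨X j * dx k, Y i * dy k⟩

theorem Full.del_ne (h : Full P X Y) (k j i : ℕ) : del X Y k j i ≠ 0 := by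
  intro h0
  have h1 := congrArg re h0
  have h2 := congrArg im h0
  simp only [del, zero_re, zero_im] at h1 h2
  have hx := h.x j
  have hy := h.y i
  unfold dx at h1
  unfold dy at h2
  by_cases hk : k = 1
  · subst hk
    simp at h2
    linarith
  · simp [hk] at h1
    linarith

theorem Full.del_re (h : Full P X Y) (k j i : ℕ) : 0 ≤ (del X Y k j i).re := by
  have hx := h.x j
  simp only [del]
  positivity

theorem Full.line (h : Full P X Y) {k j i r : ℕ} (hk : k < 3) (hr : r < 3)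
    (hh : has P k j i = true) :
    ∃ κ : ℝ, gp X Y (j + r * dx k) (i + r * dy k) = gp X Y j i + κ * del X Y k j i := by
  have hx := h.x j
  have hy := h.y i
  interval_cases r
  · exact ⟨0, by simp⟩
  · refine ⟨1, ?_⟩
    interval_cases k <;> apply Complex.ext <;> simp [gp, del, dx, dy, psum_succ]
  · interval_cases k
    · refine ⟨(X j + X (j + 1)) / X j, ?_⟩
      apply Complex.ext
      · rw [add_re, re_ofReal_mul]
        simp [gp, del, dx, psum_succ]
        field_simp
        ring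
      · rw [add_im, im_ofReal_mul]
        simp [gp, del, dy]
    · refine ⟨(Y i + Y (i + 1)) / Y i, ?_⟩
      apply Complex.ext
      · rw [add_re, re_ofReal_mul]
        simp [gp, del, dx]
      · rw [add_im, im_ofReal_mul]
        simp [gp, del, dy, psum_succ]
        field_simp
        ring
    · simp [has] at hh
      have hm := h.mul j i hh.1 hh.2.1 hh.2.2
      refine ⟨(X j + X (j + 1)) / X j, ?_⟩
      apply Complex.ext
      · rw [add_re, re_ofReal_mul]
        simp [gp, del, dx, psum_succ]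
        field_simp
        ring
      · rw [add_im, im_ofReal_mul]
        simp [gp, del, dy, psum_succ]
        field_simp
        linarith

theorem Full.im_ne (h : Full P X Y) {k j i r : ℕ} (hk : k < 3) (hr : r < 3) :
    (zt (sl k r) / del X Y k j i).im ≠ 0 := by
  have hx := h.x j
  have hy := h.y i
  have hδ := h.del_ne k j i
  -- it suffices to look at the cross product
  have key : (zt (sl k r)).im * (del X Y k j i).re - (zt (sl k r)).re * (del X Y k j i).im ≠ 0 →
      (zt (sl k r) / del X Y k j i).im ≠ 0 := by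
    intro h1 h2
    apply h1
    have h3 : zt (sl k r) = (zt (sl k r) / del X Y k j i) * del X Y k j i := by field_simp
    generalize zt (sl k r) / del X Y k j i = q at h2 h3
    rw [h3, mul_im, mul_re, h2]
    ring
  apply key
  have p1 := zt_pos (s := 1) (by norm_num) (by norm_num)
  have p2 := zt_pos (s := 2) (by norm_num) (by norm_num)
  have p4 := zt_pos (s := 4) (by norm_num) (by norm_num)
  have q : ∀ s, 0 < (zt s).re → 0 < (zt s).im → (zt (6 + s)).re < 0 ∧ 0 < (zt (6 + s)).im := by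
    intro s h1 h2
    rw [zt_add, zt_six]
    simp [h1, h2]
  have q' : ∀ s, 0 < (zt s).re → 0 < (zt s).im → 0 < (zt (18 + s)).re := by
    intro s h1 h2
    rw [zt_add, zt_eighteen, zt_six]
    simp [h2]
  interval_cases k
  · interval_cases r
    · simp [sl, del, dx, dy, p1.2.ne', hx.ne']
    · simp [sl, del, dx, dy, p2.2.ne', hx.ne']
    · simp [sl, del, dx, dy, p4.2.ne', hx.ne']
  · interval_cases r
    · have := q' 1 p1.1 p1.2
      norm_num at this
      simp [sl, del, dx, dy, this.ne', hy.ne']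
    · have := q' 2 p2.1 p2.2
      norm_num at this
      simp [sl, del, dx, dy, this.ne', hy.ne']
    · have := q' 4 p4.1 p4.2
      norm_num at this
      simp [sl, del, dx, dy, this.ne', hy.ne']
  · interval_cases r
    · have := q 1 p1.1 p1.2
      norm_num at this
      simp [sl, del, dx, dy]
      nlinarith [mul_pos this.2 hx, mul_pos (neg_pos.2 this.1) hy]
    · have := q 2 p2.1 p2.2
      norm_num at this
      simp [sl, del, dx, dy]
      nlinarith [mul_pos this.2 hx, mul_pos (neg_pos.2 this.1) hy]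
    · have := q 4 p4.1 p4.2
      norm_num at this
      simp [sl, del, dx, dy]
      nlinarith [mul_pos this.2 hx, mul_pos (neg_pos.2 this.1) hy]

/-- Adding the connectors. -/
theorem Full.addConn (h : Full P X Y) : ∀ L : List CV, L.Nodup →
    (∀ c ∈ L, c ∈ cores P ∧ ∃ k, k < 3 ∧ c.1 = 2 + k) →
    ∃ ψ : Ix → ℂ × ℂ, Dr (VS (S0 P ∪ {v | v ∈ L})) (ES P (S0 P ∪ {v | v ∈ L})) ψ ∧
      ∀ v ∈ S0 P, ψ (co v) = psi0 X Y (co v)
  | [], _, _ => ⟨psi0 X Y, by simpa using h.base, fun _ _ => rfl⟩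
  | c :: L, hnd, hL => by
    rw [List.nodup_cons] at hnd
    obtain ⟨ψ, hψ, hψ0⟩ := h.addConn L hnd.2 fun c hc => hL c (List.mem_cons_of_mem _ hc)
    obtain ⟨hc, k, hk, hck⟩ := hL c List.mem_cons_self
    have hS : S0 P ∪ {v | v ∈ L} ⊆ {v | v ∈ cores P} := by
      rintro v (hv | hv)
      · exact hv.1
      · exact (hL v (List.mem_cons_of_mem _ hv)).1
    obtain ⟨j, i, hh, rfl⟩ : ∃ j i, has P k j i = true ∧ c = (2 + k, j, i) := by
      rcases mem_cores.1 hc with rfl | ⟨j, i, -, -, rfl⟩ | ⟨k', j, i, -, hh, rfl⟩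
      · simp at hck; omega
      · simp at hck; omega
      · simp only at hck
        have : k' = k := by omega
        subst this
        exact ⟨j, i, hh, rfl⟩
    have hS0 : ((2 + k, j, i) : CV) ∉ S0 P := by
      rintro ⟨-, h1⟩
      simp only at h1
      omega
    have h0 : ((0, 0, 0) : CV) ∈ S0 P := ⟨mem_cores.2 (Or.inl rfl), by norm_num⟩
    have hg : ∀ j i, j < P.1 → i < P.2.1 → ((1, j, i) : CV) ∈ S0 P := fun j i hj hi =>
      ⟨mem_cores.2 (Or.inr (Or.inl ⟨j, i, hj, hi, rfl⟩)), le_rfl⟩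
    have hp : ∀ r < 3, ((1, j + r * dx k, i + r * dy k) : CV) ∈ S0 P := by
      intro r hr
      exact ⟨((Ed.con k j i r hk hr hh).mem h.m h.n).1, le_rfl⟩
    have hx : co (2 + k, j, i) ∉ VS (S0 P ∪ {v | v ∈ L}) := by
      rintro ⟨v, hv | hv, he⟩
      · rw [co_inj] at he; exact hS0 (he ▸ hv)
      · rw [co_inj] at he; exact hnd.1 (he ▸ hv)
    obtain ⟨p, hp'⟩ := hψ.addLine (VS_finite hS) (ES_finite P h.m h.n _) hx
      (o := co (0, 0, 0)) ⟨_, Or.inl h0, rfl⟩ (by rw [hψ0 _ h0]; rfl) (h.del_ne k j i)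
      ((h.rayC _ hψ0).hr (h.del_ne k j i) (h.del_re k j i)) (gp X Y j i)
      {n | ∃ r < 3, n = (co (1, j + r * dx k, i + r * dy k), zt (sl k r), zt (24 - sl k r))}
      (by
        have : ({n | ∃ r < 3, n = (co (1, j + r * dx k, i + r * dy k), zt (sl k r),
            zt (24 - sl k r))} : Set (Ix × ℂ × ℂ)) = (fun r => (co (1, j + r * dx k,
              i + r * dy k), zt (sl k r), zt (24 - sl k r))) '' Set.Iio 3 := by
          ext n
          simp [eq_comm]
        rw [this]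
        exact (Set.finite_Iio 3).image _)
      (by
        rintro w a c ⟨r, hr, hn⟩
        simp only [Prod.mk.injEq] at hn
        obtain ⟨rfl, rfl, rfl⟩ := hn
        refine ⟨⟨_, Or.inl (hp r hr), rfl⟩, zt_norm _, ?_, h.im_ne hk hr, ?_⟩
        · rw [← zt_add, show sl k r + (24 - sl k r) = 24 by
            interval_cases k <;> interval_cases r <;> simp [sl], zt_full]
        · obtain ⟨κ, hκ⟩ := h.line hk hr hh
          refine ⟨κ, ?_⟩
          rw [hψ0 _ (hp r hr), psi0_grid, hκ])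
    refine ⟨Function.update ψ (co (2 + k, j, i)) p, ?_, ?_⟩
    · convert hp' using 1
      · ext x
        constructor
        · rintro ⟨v, hv | hv, rfl⟩
          · exact Or.inr ⟨v, Or.inl hv, rfl⟩
          · rcases List.mem_cons.1 hv with rfl | hv
            · exact Or.inl rfl
            · exact Or.inr ⟨v, Or.inr hv, rfl⟩
        · rintro (rfl | ⟨v, hv | hv, rfl⟩)
          · exact ⟨_, Or.inr List.mem_cons_self, rfl⟩
          · exact ⟨v, Or.inl hv, rfl⟩
          · exact ⟨v, Or.inr (List.mem_cons_of_mem _ hv), rfl⟩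
      · ext e
        constructor
        · rintro ⟨v, s, w, t, he, hv, hw, rfl⟩
          have hvS : v ∈ S0 P := by
            have : v.1 = 1 := by cases he <;> rfl
            exact ⟨(he.mem h.m h.n).1, by omega⟩
          by_cases hwc : w = (2 + k, j, i)
          · subst hwc
            right
            obtain ⟨r, hr, rfl, rfl, rfl⟩ : ∃ r < 3, v = (1, j + r * dx k, i + r * dy k) ∧
                s = sl k r ∧ t = 24 - sl k r := by
              generalize hw' : ((2 + k, j, i) : CV) = w at he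
              cases he with
              | con k' j' i' r hk' hr hh' =>
                simp only [Prod.mk.injEq] at hw'
                obtain ⟨e1, rfl, rfl⟩ := hw'
                have : k = k' := by omega
                subst this
                exact ⟨r, hr, rfl, rfl, rfl⟩
              | _ => exfalso; simp only [Prod.mk.injEq] at hw'; omega
            exact ⟨_, _, _, ⟨r, hr, rfl⟩, rfl⟩
          · left
            refine ⟨v, s, w, t, he, Or.inl hvS, ?_, rfl⟩
            rcases hw with hw | hw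
            · exact Or.inl hw
            · rcases List.mem_cons.1 hw with hw | hw
              · exact absurd hw hwc
              · exact Or.inr hw
        · rintro (⟨v, s, w, t, he, hv, hw, rfl⟩ | ⟨w, a, c, ⟨r, hr, hn⟩, rfl⟩)
          · refine ⟨v, s, w, t, he, ?_, ?_, rfl⟩
            · exact hv.imp_right fun h => List.mem_cons_of_mem _ h
            · exact hw.imp_right fun h => List.mem_cons_of_mem _ h
          · simp only [Prod.mk.injEq] at hn
            obtain ⟨rfl, rfl, rfl⟩ := hn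
            exact ⟨_, _, _, _, Ed.con k j i r hk hr hh, Or.inl (hp r hr),
              Or.inr List.mem_cons_self, rfl⟩
    · intro v hv
      rw [← hψ0 v hv, Function.update_of_ne]
      rw [Ne, co_inj]
      rintro rfl
      exact hS0 hv

theorem Full.core (h : Full P X Y) :
    ∃ ψ : Ix → ℂ × ℂ, Dr (insert none (VS {v | v ∈ cores P})) (ES P {v | v ∈ cores P}) ψ := by
  obtain ⟨ψ, hψ, hψ0⟩ := h.addConn ((cores P).filter fun c => decide (2 ≤ c.1))
    ((cores_nodup P).filter _) (by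
      intro c hc
      rw [List.mem_filter] at hc
      obtain ⟨hc, h2⟩ := hc
      simp only [decide_eq_true_eq] at h2
      refine ⟨hc, ?_⟩
      rcases mem_cores.1 hc with rfl | ⟨j, i, -, -, rfl⟩ | ⟨k, j, i, hk, hh, rfl⟩
      · simp at h2
      · simp at h2
      · exact ⟨k, hk, rfl⟩)
  have hS : S0 P ∪ {v | v ∈ (cores P).filter fun c => decide (2 ≤ c.1)} = {v | v ∈ cores P} := by
    ext v
    constructor
    · rintro (hv | hv)
      · exact hv.1
      · exact (List.mem_filter.1 hv).1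
    · intro hv
      by_cases h1 : v.1 ≤ 1
      · exact Or.inl ⟨hv, h1⟩
      · exact Or.inr (List.mem_filter.2 ⟨hv, by simp only [decide_eq_true_eq]; omega⟩)
  rw [hS] at hψ
  have h0 : ((0, 0, 0) : CV) ∈ S0 P := ⟨mem_cores.2 (Or.inl rfl), by norm_num⟩
  obtain ⟨p, hp⟩ := hψ.addPt (VS_finite le_rfl) (ES_finite P h.m h.n _) (x := none)
    (by rintro ⟨v, -, h⟩; simp [co] at h) (o := co (0, 0, 0)) ⟨_, h0.1, rfl⟩
    (by rw [hψ0 _ h0]; rfl) one_ne_zero ((h.rayC _ hψ0).hr one_ne_zero (by simp))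
  exact ⟨_, hp⟩

theorem ES_slot {S : Set CV} {v : CV} {s : ℕ} (hv : v ∈ cores P) (hs : s < 24)
    (hn : pf P v s = none) :
    (∀ a' w b, (co v, a', w, b) ∈ ES P S → a' ≠ zt s) ∧
    (∀ a' w b, (w, b, co v, a') ∈ ES P S → a' ≠ zt s) := by
  constructor
  · rintro a' w b ⟨v', s', w', t, he, -, -, hvw⟩ hz
    simp only [Prod.mk.injEq, co_inj] at hvw
    obtain ⟨rfl, rfl, rfl, rfl⟩ := hvw
    have := zt_inj he.lt.1 hs hz
    subst this
    rw [he.pf.1] at hn
    simp at hn
  · rintro a' w b ⟨w', t, v', s', he, -, -, hvw⟩ hz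
    simp only [Prod.mk.injEq, co_inj] at hvw
    obtain ⟨rfl, rfl, rfl, rfl⟩ := hvw
    have := zt_inj he.lt.2 hs hz
    subst this
    rw [he.pf.2] at hn
    simp at hn

theorem Full.leaves (h : Full P X Y) : ∀ L : List (CV × ℕ), L.Nodup →
    (∀ c ∈ L, c.1 ∈ cores P ∧ c.2 < 24 ∧ pf P c.1 c.2 = none) →
    ∃ ψ : Ix → ℂ × ℂ, Dr (insert none (VS {v | v ∈ cores P}) ∪ {x | ∃ c ∈ L, x = some c})
      (ES P {v | v ∈ cores P} ∪ {e | ∃ c ∈ L, e = (co c.1, zt c.2, some c, 1)}) ψ
  | [], _, _ => by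
    obtain ⟨ψ, hψ⟩ := h.core
    refine ⟨ψ, ?_⟩
    convert hψ using 1 <;> · ext; simp
  | (v, s) :: L, hnd, hL => by
    rw [List.nodup_cons] at hnd
    obtain ⟨ψ, hψ⟩ := h.leaves L hnd.2 fun c hc => hL c (List.mem_cons_of_mem _ hc)
    obtain ⟨hv, hs, hn⟩ := hL (v, s) List.mem_cons_self
    simp only at hv hs hn
    have f1 : (insert none (VS {v | v ∈ cores P}) ∪ {x : Ix | ∃ c ∈ L, x = some c}).Finite := by
      refine ((VS_finite le_rfl).insert _).union ?_
      refine ((List.finite_toSet L).image some).subset ?_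
      rintro _ ⟨c, hc, rfl⟩
      exact ⟨c, hc, rfl⟩
    have f2 : (ES P {v | v ∈ cores P} ∪ {e : Ix × ℂ × Ix × ℂ |
        ∃ c ∈ L, e = (co c.1, zt c.2, some c, 1)}).Finite := by
      refine (ES_finite P h.m h.n _).union ?_
      refine ((List.finite_toSet L).image fun c => ((co c.1, zt c.2, some c, 1) :
        Ix × ℂ × Ix × ℂ)).subset ?_
      rintro _ ⟨c, hc, rfl⟩
      exact ⟨c, hc, rfl⟩
    obtain ⟨p, hp⟩ := hψ.addLeaf f1 f2 (x := some (v, s)) (by
        rintro ((h | ⟨w, -, h⟩) | ⟨c, hc, h⟩)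
        · simp at h
        · simp only [co, Option.some.injEq, Prod.mk.injEq] at h
          omega
        · simp only [Option.some.injEq] at h
          exact hnd.1 (h ▸ hc))
      (v := co v) (o := none) (Or.inl (Or.inr ⟨v, hv, rfl⟩)) (Or.inl (Or.inl rfl))
      (by simp [co]) (zt_norm s) (by
        rintro a' w b (he | ⟨c, hc, he⟩)
        · exact (ES_slot hv hs hn).1 _ _ _ he
        · simp only [Prod.mk.injEq, co_inj] at he
          obtain ⟨rfl, rfl, rfl, rfl⟩ := he
          intro hz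
          have := zt_inj (hL c (List.mem_cons_of_mem _ hc)).2.1 hs hz
          subst this
          exact hnd.1 hc) (by
        rintro a' w b (he | ⟨c, hc, he⟩)
        · exact (ES_slot hv hs hn).2 _ _ _ he
        · simp only [Prod.mk.injEq, co, Option.some.injEq] at he
          obtain ⟨-, -, h1, -⟩ := he
          have := (hL c (List.mem_cons_of_mem _ hc)).2.1
          rw [← h1] at this
          simp at this)
    refine ⟨_, (?_ : Dr _ _ (Function.update ψ (some (v, s)) p))⟩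
    convert hp using 1
    · ext x
      constructor
      · rintro (hx | ⟨c, hc, rfl⟩)
        · exact Or.inr (Or.inl hx)
        · rcases List.mem_cons.1 hc with rfl | hc
          · exact Or.inl rfl
          · exact Or.inr (Or.inr ⟨c, hc, rfl⟩)
      · rintro (rfl | hx | ⟨c, hc, rfl⟩)
        · exact Or.inr ⟨_, List.mem_cons_self, rfl⟩
        · exact Or.inl hx
        · exact Or.inr ⟨c, List.mem_cons_of_mem _ hc, rfl⟩
    · ext x
      constructor
      · rintro (hx | ⟨c, hc, rfl⟩)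
        · exact Or.inl (Or.inl hx)
        · rcases List.mem_cons.1 hc with rfl | hc
          · exact Or.inr rfl
          · exact Or.inl (Or.inr ⟨c, hc, rfl⟩)
      · rintro ((hx | ⟨c, hc, rfl⟩) | rfl)
        · exact Or.inl hx
        · exact Or.inr ⟨c, List.mem_cons_of_mem _ hc, rfl⟩
        · exact Or.inr ⟨_, List.mem_cons_self, rfl⟩

/-- Decoding of names. -/
def dec (x : ℕ) : CV × ℕ :=
  (((Nat.unpair (Nat.unpair x).1).1, Nat.unpair (Nat.unpair (Nat.unpair x).1).2),
    (Nat.unpair x).2)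

theorem dec_nm (v : CV) (s : ℕ) : dec (nm v s) = (v, s) := by
  simp [dec, nm]

theorem dir_nb {v : CV} {s : ℕ} (hv : v ∈ cores P) (hs : s < 24) (θ : ℝ) :
    dir θ (rot P v) (nb P v s) = exp (θ * I) * zt s := by
  unfold dir zt
  rw [rot_idx hv hs, rot_length, ← exp_add]
  congr 1
  push_cast
  ring

theorem dir_single (θ : ℝ) (x : ℕ) : dir θ [x] x = exp (θ * I) := by
  unfold dir
  simp

theorem arg_unit {u : ℂ} (hu : ‖u‖ = 1) : exp (arg u * I) = u := by
  have := norm_mul_exp_arg_mul_I u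
  rwa [hu, ofReal_one, one_mul] at this

/-- **Completeness.** -/
theorem Full.lombardi (h : Full P X Y) : (G P).Lombardi := by
  obtain ⟨ψ, hψ⟩ := h.leaves ((cores P).flatMap fun v =>
      ((List.range 24).filter fun s => (pf P v s).isNone).map fun s => (v, s)) (by
    rw [List.nodup_flatMap]
    refine ⟨fun v _ => (List.nodup_range.filter _).map fun a b h => (Prod.mk.inj h).2, ?_⟩
    refine (cores_nodup P).imp ?_
    intro v w hvw x hx hx'
    simp only [List.mem_map] at hx hx'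
    obtain ⟨s, -, rfl⟩ := hx
    obtain ⟨t, -, h⟩ := hx'
    exact hvw (Prod.mk.inj h).1.symm) (by
    intro c hc
    simp only [List.mem_flatMap, List.mem_map, List.mem_filter, List.mem_range,
      Option.isNone_iff_eq_none] at hc
    obtain ⟨v, hv, s, ⟨h1, h2⟩, rfl⟩ := hc
    exact ⟨hv, h1, h2⟩)
  have hL : ∀ c : CV × ℕ, c ∈ ((cores P).flatMap fun v =>
      ((List.range 24).filter fun s => (pf P v s).isNone).map fun s => (v, s)) ↔
      c.1 ∈ cores P ∧ c.2 < 24 ∧ pf P c.1 c.2 = none := by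
    intro c
    simp only [List.mem_flatMap, List.mem_map, List.mem_filter, List.mem_range,
      Option.isNone_iff_eq_none]
    constructor
    · rintro ⟨v, hv, s, ⟨h1, h2⟩, rfl⟩; exact ⟨hv, h1, h2⟩
    · rintro ⟨h1, h2, h3⟩; exact ⟨c.1, h1, c.2, ⟨h2, h3⟩, rfl⟩
  simp only [hL] at hψ
  rw [Set.insert_union] at hψ
  obtain ⟨z, u, hu, hz, hA⟩ := hψ.planar (by
      rintro (⟨v, -, h⟩ | ⟨c, -, h⟩)
      · simp [co] at h
      · simp at h) (by
      rintro v a w b (⟨v, s, w, t, he, hv, hw, hvw⟩ | ⟨c, hc, he⟩)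
      · simp only [Prod.mk.injEq] at hvw
        obtain ⟨rfl, -, rfl, -⟩ := hvw
        exact ⟨Or.inl ⟨v, hv, rfl⟩, Or.inl ⟨w, hw, rfl⟩⟩
      · simp only [Prod.mk.injEq] at he
        obtain ⟨rfl, -, rfl, -⟩ := he
        exact ⟨Or.inl ⟨_, hc.1, rfl⟩, Or.inr ⟨c, hc, rfl⟩⟩)
  have hV : ∀ x l, (x, l) ∈ G P → some (dec x) ∈ VS {v | v ∈ cores P} ∪
      {x : Ix | ∃ c : CV × ℕ, (c.1 ∈ cores P ∧ c.2 < 24 ∧ pf P c.1 c.2 = none) ∧ x = some c} := by
    intro x l hx
    rcases mem_G.1 hx with ⟨v, hv, rfl, -⟩ | ⟨v, hv, s, hs, hn, rfl, -⟩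
    · rw [dec_nm]; exact Or.inl ⟨v, hv, rfl⟩
    · rw [dec_nm]; exact Or.inr ⟨(v, s), ⟨hv, hs, hn⟩, rfl⟩
  have hdec : ∀ x l, (x, l) ∈ G P → ∀ y l', (y, l') ∈ G P → dec x = dec y → x = y := by
    intro x l hx y l' hy hxy
    rcases mem_G.1 hx with ⟨v, hv, rfl, -⟩ | ⟨v, hv, s, hs, hn, rfl, -⟩ <;>
      rcases mem_G.1 hy with ⟨w, hw, rfl, -⟩ | ⟨w, hw, t, ht, hn', rfl, -⟩ <;>
      rw [dec_nm, dec_nm] at hxy <;> rw [(Prod.mk.inj hxy).1, (Prod.mk.inj hxy).2]
  refine ⟨fun x => z (some (dec x)), fun x => arg (u (some (dec x))), ?_, ?_⟩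
  · intro x l hx y l' hy hxy
    refine hz _ (hV x l hx) _ (hV y l' hy) fun h => hxy ?_
    exact hdec x l hx y l' hy (Option.some.inj h)
  · intro x l hx y l' hy _ hyl hxl
    have hfin : ∀ {A : Set ℂ}, (∀ x ∈ VS {v | v ∈ cores P} ∪
      {x : Ix | ∃ c : CV × ℕ, (c.1 ∈ cores P ∧ c.2 < 24 ∧ pf P c.1 c.2 = none) ∧ x = some c},
        z x ∉ A) → ∀ x l, (x, l) ∈ G P → z (some (dec x)) ∉ A := fun hA x l hx => hA _ (hV x l hx)
    have hux := arg_unit (hu _ (hV x l hx))
    have huy := arg_unit (hu _ (hV y l' hy))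
    rcases mem_G.1 hx with ⟨v, hv, rfl, rfl⟩ | ⟨v, hv, s, hs, hn, rfl, rfl⟩ <;>
      rcases mem_G.1 hy with ⟨w, hw, rfl, rfl⟩ | ⟨w, hw, t, ht, hn', rfl, rfl⟩
    · obtain ⟨s, hs, h1⟩ := mem_rot.1 hyl
      rcases h2 : pf P v s with _ | ⟨w', t⟩
      · rw [nb_none h2] at h1
        have := (nm_inj h1).2
        omega
      · rw [nb_some h2] at h1
        have := (nm_inj h1).1
        subst this
        have h3 := pf_symm hv hs h2
        have ht : t < 24 := by
          rcases pf_ed hv hs h2 with h | h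
          · exact h.lt.2
          · exact h.lt.1
        have d1 := dir_nb (P := P) hv hs (arg (u (some (dec (nm v 24)))))
        have d2 := dir_nb (P := P) hw ht (arg (u (some (dec (nm w 24)))))
        rw [nb_some h2, hux] at d1
        rw [nb_some h3, huy] at d2
        rw [d1, d2]
        simp only [dec_nm]
        rcases pf_ed hv hs h2 with he | he
        · obtain ⟨A, hA1, hA2⟩ := hA _ _ _ _ (Or.inl ⟨v, s, w, t, he, hv, hw, rfl⟩)
          exact ⟨A, hA1, hfin hA2⟩
        · obtain ⟨A, hA1, hA2⟩ := hA _ _ _ _ (Or.inl ⟨w, t, v, s, he, hw, hv, rfl⟩)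
          exact ⟨A, hA1.symm, hfin hA2⟩
    · rw [List.mem_singleton] at hxl
      have := (nm_inj hxl).1
      subst this
      have d1 := dir_nb (P := P) hv ht (arg (u (some (dec (nm v 24)))))
      rw [nb_none hn', hux] at d1
      rw [d1, dir_single, huy]
      simp only [dec_nm]
      obtain ⟨A, hA1, hA2⟩ := hA _ _ _ _ (Or.inr ⟨(v, t), ⟨hv, ht, hn'⟩, rfl⟩)
      rw [mul_one] at hA1
      exact ⟨A, hA1, hfin hA2⟩
    · rw [List.mem_singleton] at hyl
      have := (nm_inj hyl).1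
      subst this
      have d1 := dir_nb (P := P) hv hs (arg (u (some (dec (nm w 24)))))
      rw [nb_none hn, huy] at d1
      rw [d1, dir_single, hux]
      simp only [dec_nm]
      obtain ⟨A, hA1, hA2⟩ := hA _ _ _ _ (Or.inr ⟨(w, s), ⟨hv, hs, hn⟩, rfl⟩)
      rw [mul_one] at hA1
      exact ⟨A, hA1.symm, hfin hA2⟩
    · rw [List.mem_singleton] at hyl
      have := (nm_inj hyl).2
      omega

end

end Pool.Agent.H678.Lomb
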