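import Pool.Graph.R_seed8.ER.Hard

/-!
# Lombardi drawings respecting a rotation system

Definitions of the decision problem.
-/

namespace Pool.Agent.H678.Lomb

open Complex

/-- A graph with a rotation system, as the list of its vertices: every vertex is given by its name
and the list of the names of its neighbours, in counterclockwise order. -/
abbrev RotG : Type := List (ℕ × List ℕ)

/-- The list describes a simple graph with a rotation system: different vertices have different
names, no neighbour is listed twice, no vertex is its own neighbour, and every neighbour of `v` is a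
vertex that has `v` as a neighbour. -/
structure RotG.IsRot (G : RotG) : Prop where
  names : (G.map (fun e => e.1)).Nodup
  nodup : ∀ v l, (v, l) ∈ G → l.Nodup
  no_loop : ∀ v l, (v, l) ∈ G → v ∉ l
  symm : ∀ v l, (v, l) ∈ G → ∀ w ∈ l, ∃ l', (w, l') ∈ G ∧ v ∈ l'

/-- All degrees are at most `Δ`. -/
def RotG.MaxDeg (G : RotG) (Δ : ℕ) : Prop := ∀ v l, (v, l) ∈ G → l.length ≤ Δ

/-- `IsArc p q a b A`: the set `A` is the segment between `p` and `q` or a circular arc from `p` to
`q`, without the end points; `a` is the direction in which it leaves `p` and `b` is the direction in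
which it leaves `q` (when traversed from `q` to `p`), both as complex numbers of modulus `1`.

In the second case the circle has centre `c` and radius `r`, the arc is traversed
counterclockwise (`σ = 1`) or clockwise (`σ = -1`) from the point `p` at the angle `φ`, and it
subtends the angle `α`. -/
def IsArc (p q a b : ℂ) (A : Set ℂ) : Prop :=
  (p ≠ q ∧ A = openSegment ℝ p q ∧ a = (q - p) / ‖q - p‖ ∧ b = (p - q) / ‖p - q‖) ∨
  ∃ (c : ℂ) (r φ α σ : ℝ), 0 < r ∧ 0 < α ∧ α < 2 * Real.pi ∧ (σ = 1 ∨ σ = -1) ∧
    p = c + r * exp (φ * I) ∧ q = c + r * exp ((φ + σ * α : ℝ) * I) ∧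
    a = σ * I * exp (φ * I) ∧ b = -σ * I * exp ((φ + σ * α : ℝ) * I) ∧
    A = {x | ∃ t : ℝ, 0 < t ∧ t < 1 ∧ x = c + r * exp ((φ + σ * (t * α) : ℝ) * I)}

/-- The direction of the edge end at the vertex `v` that belongs to the neighbour `w`, when `l` is
the counterclockwise list of the neighbours of `v` and the first edge end has the direction
`exp (i θ)`: consecutive edge ends form angles of `2 π / |l|`. -/
noncomputable def dir (θ : ℝ) (l : List ℕ) (w : ℕ) : ℂ :=
  exp ((θ + 2 * Real.pi * (l.idxOf w : ℝ) / (l.length : ℝ) : ℝ) * I)

/-- The graph has a Lombardi drawing that respects the rotation system: the vertices are at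
different points `z v`, every edge `vw` is drawn as a segment or a circular arc that passes through
no vertex other than its end points, and at every vertex `v` the edge ends have, in the
counterclockwise order given by the rotation system, equally spaced directions (`θ v` is the angle
of the first one). -/
def RotG.Lombardi (G : RotG) : Prop :=
  ∃ (z : ℕ → ℂ) (θ : ℕ → ℝ),
    (∀ v l, (v, l) ∈ G → ∀ w l', (w, l') ∈ G → v ≠ w → z v ≠ z w) ∧
    ∀ v l, (v, l) ∈ G → ∀ w l', (w, l') ∈ G → v < w → w ∈ l → v ∈ l' →
      ∃ A : Set ℂ, IsArc (z v) (z w) (dir (θ v) l w) (dir (θ w) l' v) A ∧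
        ∀ x l'', (x, l'') ∈ G → z x ∉ A

end Pool.Agent.H678.Lomb
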