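import Pool.Agent.H678.Lomb.Spin

/-!
# The graph of a grid program

A grid program consists of a grid with `m` columns and `n` rows of points and three lists of cells:
`(j, i)` in the first list says that the cell is a square (width of column `j` = height of row `i`),
in the second list that columns `j` and `j + 1` together are as wide as row `i` is high, in the third
list that the diagonals of the cells `(j, i)` and `(j + 1, i + 1)` are parallel.
-/

namespace Pool.Agent.H678.Lomb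

/-- Grid programs. -/
abbrev Par : Type := ℕ × ℕ × List (ℕ × ℕ) × List (ℕ × ℕ) × List (ℕ × ℕ)

/-- Core vertices: `(0, 0, 0)` is the vertex at infinity, `(1, j, i)` are the grid vertices, and
`(2, j, i)`, `(3, j, i)`, `(4, j, i)` are the connectors of three points in a row, in a column, on a
diagonal line. -/
abbrev CV : Type := ℕ × ℕ × ℕ

/-- Existence of a connector. -/
def has (P : Par) (k j i : ℕ) : Bool :=
  if k = 0 then decide (j + 2 < P.1 ∧ i < P.2.1)
  else if k = 1 then decide (j < 2 ∧ j < P.1 ∧ i + 2 < P.2.1)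
  else if k = 2 then decide ((j, i) ∈ P.2.2.2.2 ∧ j + 2 < P.1 ∧ i + 2 < P.2.1)
  else false

/-- The partner of the slot `s` of the grid vertex `(j, i)`. -/
def pG (P : Par) (j i s : ℕ) : Option (CV × ℕ) :=
  if s = 0 then (if j + 1 < P.1 ∧ i < P.2.1 then some ((1, j + 1, i), 12) else none)
  else if s = 12 then (if 1 ≤ j ∧ j < P.1 ∧ i < P.2.1 then some ((1, j - 1, i), 0) else none)
  else if s = 6 then (if j < P.1 ∧ i + 1 < P.2.1 then some ((1, j, i + 1), 18) else none)
  else if s = 18 then (if 1 ≤ i ∧ j < P.1 ∧ i < P.2.1 then some ((1, j, i - 1), 6) else none)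
  else if s = 21 then
    (if (1 ≤ i ∧ (j, i - 1) ∈ P.2.2.1) ∧ j + 1 < P.1 ∧ i < P.2.1 then some ((1, j + 1, i - 1), 9)
      else none)
  else if s = 9 then
    (if (1 ≤ j ∧ (j - 1, i) ∈ P.2.2.1) ∧ j < P.1 ∧ i + 1 < P.2.1 then some ((1, j - 1, i + 1), 21)
      else none)
  else if s = 3 then
    (if (j, i) ∈ P.2.2.2.1 ∧ j + 2 < P.1 ∧ i + 1 < P.2.1 then some ((1, j + 2, i + 1), 15)
      else none)
  else if s = 15 then
    (if (2 ≤ j ∧ 1 ≤ i ∧ (j - 2, i - 1) ∈ P.2.2.2.1) ∧ j < P.1 ∧ i < P.2.1 then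
      some ((1, j - 2, i - 1), 3) else none)
  else if s = 13 then (if j = 0 ∧ i = 0 then some ((0, 0, 0), 23) else none)
  else if s = 14 then (if j = 1 ∧ i = 1 then some ((0, 0, 0), 22) else none)
  else if s = 16 then (if j = 0 ∧ i = 1 then some ((0, 0, 0), 20) else none)
  else if s = 17 then (if j = 1 ∧ i = 0 then some ((0, 0, 0), 19) else none)
  else if s = 1 then (if has P 0 j i then some ((2, j, i), 23) else none)
  else if s = 2 then (if 1 ≤ j ∧ has P 0 (j - 1) i then some ((2, j - 1, i), 22) else none)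
  else if s = 4 then (if 2 ≤ j ∧ has P 0 (j - 2) i then some ((2, j - 2, i), 20) else none)
  else if s = 19 then (if has P 1 j i then some ((3, j, i), 5) else none)
  else if s = 20 then (if 1 ≤ i ∧ has P 1 j (i - 1) then some ((3, j, i - 1), 4) else none)
  else if s = 22 then (if 2 ≤ i ∧ has P 1 j (i - 2) then some ((3, j, i - 2), 2) else none)
  else if s = 7 then (if has P 2 j i then some ((4, j, i), 17) else none)
  else if s = 8 then
    (if 1 ≤ j ∧ 1 ≤ i ∧ has P 2 (j - 1) (i - 1) then some ((4, j - 1, i - 1), 16) else none)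
  else if s = 10 then
    (if 2 ≤ j ∧ 2 ≤ i ∧ has P 2 (j - 2) (i - 2) then some ((4, j - 2, i - 2), 14) else none)
  else none

/-- The partner of a slot. -/
def pf (P : Par) (v : CV) (s : ℕ) : Option (CV × ℕ) :=
  if v.1 = 1 then pG P v.2.1 v.2.2 s
  else if v.1 = 0 then
    (if s = 23 then some ((1, 0, 0), 13) else if s = 22 then some ((1, 1, 1), 14)
      else if s = 20 then some ((1, 0, 1), 16) else if s = 19 then some ((1, 1, 0), 17) else none)
  else if v.1 = 2 then
    (if has P 0 v.2.1 v.2.2 then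
      (if s = 23 then some ((1, v.2.1, v.2.2), 1) else if s = 22 then some ((1, v.2.1 + 1, v.2.2), 2)
        else if s = 20 then some ((1, v.2.1 + 2, v.2.2), 4) else none)
      else none)
  else if v.1 = 3 then
    (if has P 1 v.2.1 v.2.2 then
      (if s = 5 then some ((1, v.2.1, v.2.2), 19) else if s = 4 then some ((1, v.2.1, v.2.2 + 1), 20)
        else if s = 2 then some ((1, v.2.1, v.2.2 + 2), 22) else none)
      else none)
  else
    (if has P 2 v.2.1 v.2.2 then
      (if s = 17 then some ((1, v.2.1, v.2.2), 7)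
        else if s = 16 then some ((1, v.2.1 + 1, v.2.2 + 1), 8)
        else if s = 14 then some ((1, v.2.1 + 2, v.2.2 + 2), 10) else none)
      else none)

/-- Shift of the connectors. -/
def dx (k : ℕ) : ℕ := if k = 1 then 0 else 1

/-- Shift of the connectors. -/
def dy (k : ℕ) : ℕ := if k = 0 then 0 else 1

/-- Slots of the connections. -/
def sl (k r : ℕ) : ℕ :=
  if k = 0 then (if r = 0 then 1 else if r = 1 then 2 else 4)
  else if k = 1 then (if r = 0 then 19 else if r = 1 then 20 else 22)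
  else (if r = 0 then 7 else if r = 1 then 8 else 10)

/-- The edges between core vertices. -/
inductive Ed (P : Par) : CV → ℕ → CV → ℕ → Prop
  | hor (j i : ℕ) : j + 1 < P.1 → i < P.2.1 → Ed P (1, j, i) 0 (1, j + 1, i) 12
  | ver (j i : ℕ) : j < P.1 → i + 1 < P.2.1 → Ed P (1, j, i) 6 (1, j, i + 1) 18
  | eq (j i : ℕ) : (j, i) ∈ P.2.2.1 → j + 1 < P.1 → i + 1 < P.2.1 →
      Ed P (1, j, i + 1) 21 (1, j + 1, i) 9
  | add (j i : ℕ) : (j, i) ∈ P.2.2.2.1 → j + 2 < P.1 → i + 1 < P.2.1 →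
      Ed P (1, j, i) 3 (1, j + 2, i + 1) 15
  | r0 : Ed P (1, 0, 0) 13 (0, 0, 0) 23
  | r1 : Ed P (1, 1, 1) 14 (0, 0, 0) 22
  | r2 : Ed P (1, 0, 1) 16 (0, 0, 0) 20
  | r3 : Ed P (1, 1, 0) 17 (0, 0, 0) 19
  | con (k j i r : ℕ) : k < 3 → r < 3 → has P k j i = true →
      Ed P (1, j + r * dx k, i + r * dy k) (sl k r) (2 + k, j, i) (24 - sl k r)

theorem Ed.pf {P : Par} {v w : CV} {s t : ℕ} (h : Ed P v s w t) :
    pf P v s = some (w, t) ∧ pf P w t = some (v, s) := by
  cases h with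
  | hor j i h1 h2 => constructor <;> simp [Lomb.pf, pG, h1, h2]
  | ver j i h1 h2 => constructor <;> simp [Lomb.pf, pG, h1, h2]
  | eq j i h0 h1 h2 => constructor <;> simp [Lomb.pf, pG, h0, h1, h2]
  | add j i h0 h1 h2 => constructor <;> simp [Lomb.pf, pG, h0, h1, h2]
  | r0 => constructor <;> simp [Lomb.pf, pG]
  | r1 => constructor <;> simp [Lomb.pf, pG]
  | r2 => constructor <;> simp [Lomb.pf, pG]
  | r3 => constructor <;> simp [Lomb.pf, pG]
  | con k j i r hk hr h =>
    interval_cases k <;> interval_cases r <;> constructor <;>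
      simp [Lomb.pf, pG, sl, dx, dy, h]

theorem pG_ed {P : Par} {j i s t : ℕ} {w : CV} (hs : s < 24) (h : pG P j i s = some (w, t)) :
    Ed P (1, j, i) s w t ∨ Ed P w t (1, j, i) s := by
  interval_cases s
  · simp [pG] at h
    obtain ⟨⟨h1, h2⟩, rfl, rfl⟩ := h
    exact Or.inl (Ed.hor j i h1 h2)
  · simp [pG] at h
    obtain ⟨h1, rfl, rfl⟩ := h
    exact Or.inl (Ed.con 0 j i 0 (by norm_num) (by norm_num) h1)
  · simp [pG] at h
    obtain ⟨⟨h1, h2⟩, rfl, rfl⟩ := h
    obtain ⟨j, rfl⟩ := Nat.exists_eq_add_of_le' h1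
    exact Or.inl (Ed.con 0 j i 1 (by norm_num) (by norm_num) h2)
  · simp [pG] at h
    obtain ⟨⟨h1, h2, h3⟩, rfl, rfl⟩ := h
    exact Or.inl (Ed.add j i h1 h2 h3)
  · simp [pG] at h
    obtain ⟨⟨h1, h2⟩, rfl, rfl⟩ := h
    obtain ⟨j, rfl⟩ := Nat.exists_eq_add_of_le' h1
    exact Or.inl (Ed.con 0 j i 2 (by norm_num) (by norm_num) h2)
  · simp [pG] at h
  · simp [pG] at h
    obtain ⟨⟨h1, h2⟩, rfl, rfl⟩ := h
    exact Or.inl (Ed.ver j i h1 h2)
  · simp [pG] at h
    obtain ⟨h1, rfl, rfl⟩ := h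
    exact Or.inl (Ed.con 2 j i 0 (by norm_num) (by norm_num) h1)
  · simp [pG] at h
    obtain ⟨⟨h1, h2, h3⟩, rfl, rfl⟩ := h
    obtain ⟨j, rfl⟩ := Nat.exists_eq_add_of_le' h1
    obtain ⟨i, rfl⟩ := Nat.exists_eq_add_of_le' h2
    exact Or.inl (Ed.con 2 j i 1 (by norm_num) (by norm_num) h3)
  · simp [pG] at h
    obtain ⟨⟨⟨h1, h2⟩, h3, h4⟩, rfl, rfl⟩ := h
    obtain ⟨j, rfl⟩ := Nat.exists_eq_add_of_le' h1
    exact Or.inr (Ed.eq j i h2 h3 h4)
  · simp [pG] at h
    obtain ⟨⟨h1, h2, h3⟩, rfl, rfl⟩ := h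
    obtain ⟨j, rfl⟩ := Nat.exists_eq_add_of_le' h1
    obtain ⟨i, rfl⟩ := Nat.exists_eq_add_of_le' h2
    exact Or.inl (Ed.con 2 j i 2 (by norm_num) (by norm_num) h3)
  · simp [pG] at h
  · simp [pG] at h
    obtain ⟨⟨h1, h2, h3⟩, rfl, rfl⟩ := h
    obtain ⟨j, rfl⟩ := Nat.exists_eq_add_of_le' h1
    exact Or.inr (Ed.hor j i h2 h3)
  · simp [pG] at h
    obtain ⟨⟨rfl, rfl⟩, rfl, rfl⟩ := h
    exact Or.inl Ed.r0
  · simp [pG] at h
    obtain ⟨⟨rfl, rfl⟩, rfl, rfl⟩ := h
    exact Or.inl Ed.r1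
  · simp [pG] at h
    obtain ⟨⟨⟨h1, h2, h3⟩, h4, h5⟩, rfl, rfl⟩ := h
    obtain ⟨j, rfl⟩ := Nat.exists_eq_add_of_le' h1
    obtain ⟨i, rfl⟩ := Nat.exists_eq_add_of_le' h2
    exact Or.inr (Ed.add j i h3 h4 h5)
  · simp [pG] at h
    obtain ⟨⟨rfl, rfl⟩, rfl, rfl⟩ := h
    exact Or.inl Ed.r2
  · simp [pG] at h
    obtain ⟨⟨rfl, rfl⟩, rfl, rfl⟩ := h
    exact Or.inl Ed.r3
  · simp [pG] at h
    obtain ⟨⟨h1, h2, h3⟩, rfl, rfl⟩ := h
    obtain ⟨i, rfl⟩ := Nat.exists_eq_add_of_le' h1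
    exact Or.inr (Ed.ver j i h2 h3)
  · simp [pG] at h
    obtain ⟨h1, rfl, rfl⟩ := h
    exact Or.inl (Ed.con 1 j i 0 (by norm_num) (by norm_num) h1)
  · simp [pG] at h
    obtain ⟨⟨h1, h2⟩, rfl, rfl⟩ := h
    obtain ⟨i, rfl⟩ := Nat.exists_eq_add_of_le' h1
    exact Or.inl (Ed.con 1 j i 1 (by norm_num) (by norm_num) h2)
  · simp [pG] at h
    obtain ⟨⟨⟨h1, h2⟩, h3, h4⟩, rfl, rfl⟩ := h
    obtain ⟨i, rfl⟩ := Nat.exists_eq_add_of_le' h1
    exact Or.inl (Ed.eq j i h2 h3 h4)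
  · simp [pG] at h
    obtain ⟨⟨h1, h2⟩, rfl, rfl⟩ := h
    obtain ⟨i, rfl⟩ := Nat.exists_eq_add_of_le' h1
    exact Or.inl (Ed.con 1 j i 2 (by norm_num) (by norm_num) h2)
  · simp [pG] at h

/-- The core vertices of the cell `(j, i)`. -/
def cell (P : Par) (j i : ℕ) : List CV :=
  (1, j, i) :: ([0, 1, 2].filter fun k => has P k j i).map fun k => (2 + k, j, i)

/-- The core vertices. -/
def cores (P : Par) : List CV :=
  (0, 0, 0) :: (List.range P.1).flatMap fun j => (List.range P.2.1).flatMap fun i => cell P j i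

theorem has_lt {P : Par} {k j i : ℕ} (h : has P k j i = true) : j < P.1 ∧ i < P.2.1 := by
  unfold has at h
  split_ifs at h <;> simp at h <;> omega

theorem mem_cores {P : Par} {v : CV} : v ∈ cores P ↔ v = (0, 0, 0) ∨
    (∃ j i, j < P.1 ∧ i < P.2.1 ∧ v = (1, j, i)) ∨
    ∃ k j i, k < 3 ∧ has P k j i = true ∧ v = (2 + k, j, i) := by
  simp only [cores, cell, List.mem_cons, List.mem_flatMap, List.mem_range, List.mem_map,
    List.mem_filter, List.not_mem_nil, or_false]
  constructor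
  · rintro (h | ⟨j, hj, i, hi, h | ⟨k, ⟨hk, hk'⟩, rfl⟩⟩)
    · exact Or.inl h
    · exact Or.inr (Or.inl ⟨j, i, hj, hi, h⟩)
    · exact Or.inr (Or.inr ⟨k, j, i, by rcases hk with rfl | rfl | rfl <;> norm_num, hk', rfl⟩)
  · rintro (h | ⟨j, i, hj, hi, h⟩ | ⟨k, j, i, hk, h, rfl⟩)
    · exact Or.inl h
    · exact Or.inr ⟨j, hj, i, hi, Or.inl h⟩
    · refine Or.inr ⟨j, (has_lt h).1, i, (has_lt h).2, Or.inr ⟨k, ⟨?_, h⟩, rfl⟩⟩
      interval_cases k <;> simp

theorem pf_ed {P : Par} {v w : CV} {s t : ℕ} (hv : v ∈ cores P) (hs : s < 24)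
    (h : pf P v s = some (w, t)) : Ed P v s w t ∨ Ed P w t v s := by
  rcases mem_cores.1 hv with rfl | ⟨j, i, -, -, rfl⟩ | ⟨k, j, i, hk, hh, rfl⟩
  · right
    simp [pf] at h
    split_ifs at h with h1 h2 h3 h4 <;> simp at h <;> obtain ⟨rfl, rfl⟩ := h
    · subst h1; exact Ed.r0
    · subst h2; exact Ed.r1
    · subst h3; exact Ed.r2
    · subst h4; exact Ed.r3
  · simp [pf] at h
    exact pG_ed hs h
  · right
    interval_cases k
    · simp [pf, hh] at h
      split_ifs at h with h1 h2 h3 <;> simp at h <;> obtain ⟨rfl, rfl⟩ := h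
      · subst h1; exact Ed.con 0 j i 0 (by norm_num) (by norm_num) hh
      · subst h2; exact Ed.con 0 j i 1 (by norm_num) (by norm_num) hh
      · subst h3; exact Ed.con 0 j i 2 (by norm_num) (by norm_num) hh
    · simp [pf, hh] at h
      split_ifs at h with h1 h2 h3 <;> simp at h <;> obtain ⟨rfl, rfl⟩ := h
      · subst h1; exact Ed.con 1 j i 0 (by norm_num) (by norm_num) hh
      · subst h2; exact Ed.con 1 j i 1 (by norm_num) (by norm_num) hh
      · subst h3; exact Ed.con 1 j i 2 (by norm_num) (by norm_num) hh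
    · simp [pf, hh] at h
      split_ifs at h with h1 h2 h3 <;> simp at h <;> obtain ⟨rfl, rfl⟩ := h
      · subst h1; exact Ed.con 2 j i 0 (by norm_num) (by norm_num) hh
      · subst h2; exact Ed.con 2 j i 1 (by norm_num) (by norm_num) hh
      · subst h3; exact Ed.con 2 j i 2 (by norm_num) (by norm_num) hh

theorem Ed.lt {P : Par} {v w : CV} {s t : ℕ} (h : Ed P v s w t) : s < 24 ∧ t < 24 := by
  cases h with
  | con k j i r hk hr h => interval_cases k <;> interval_cases r <;> simp [sl]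
  | _ => norm_num

theorem Ed.mem {P : Par} (h2 : 2 ≤ P.1) (h2' : 2 ≤ P.2.1) {v w : CV} {s t : ℕ}
    (h : Ed P v s w t) : v ∈ cores P ∧ w ∈ cores P := by
  have hg : ∀ j i, j < P.1 → i < P.2.1 → ((1, j, i) : CV) ∈ cores P := fun j i hj hi =>
    mem_cores.2 (Or.inr (Or.inl ⟨j, i, hj, hi, rfl⟩))
  have h0 : ((0, 0, 0) : CV) ∈ cores P := mem_cores.2 (Or.inl rfl)
  cases h with
  | hor j i h1 h2 => exact ⟨hg _ _ (by omega) h2, hg _ _ h1 h2⟩
  | ver j i h1 h2 => exact ⟨hg _ _ h1 (by omega), hg _ _ h1 h2⟩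
  | eq j i h0 h1 h2 => exact ⟨hg _ _ (by omega) h2, hg _ _ h1 (by omega)⟩
  | add j i h0 h1 h2 => exact ⟨hg _ _ (by omega) (by omega), hg _ _ h1 h2⟩
  | r0 => exact ⟨hg _ _ (by omega) (by omega), h0⟩
  | r1 => exact ⟨hg _ _ (by omega) (by omega), h0⟩
  | r2 => exact ⟨hg _ _ (by omega) (by omega), h0⟩
  | r3 => exact ⟨hg _ _ (by omega) (by omega), h0⟩
  | con k j i r hk hr h =>
    refine ⟨hg _ _ ?_ ?_, mem_cores.2 (Or.inr (Or.inr ⟨k, j, i, hk, h, rfl⟩))⟩
    all_goals
      interval_cases k <;> interval_cases r <;> simp [has] at h <;> simp [dx, dy] <;> omega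

/-- The slot of `v` that is used by the neighbour `w`. -/
def slotOf (v w : CV) : ℕ :=
  if v.1 = 1 then
    if w.1 = 1 then
      if v.2.2 = w.2.2 then (if v.2.1 < w.2.1 then 0 else 12)
      else if v.2.1 = w.2.1 then (if v.2.2 < w.2.2 then 6 else 18)
      else if v.2.1 + 1 = w.2.1 then 21 else if w.2.1 + 1 = v.2.1 then 9
      else if v.2.1 < w.2.1 then 3 else 15
    else if w.1 = 0 then
      if v.2.1 = 0 then (if v.2.2 = 0 then 13 else 16) else (if v.2.2 = 0 then 17 else 14)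
    else sl (w.1 - 2) (max (v.2.1 - w.2.1) (v.2.2 - w.2.2))
  else if v.1 = 0 then
      if w.2.1 = 0 then (if w.2.2 = 0 then 23 else 20) else (if w.2.2 = 0 then 19 else 22)
  else 24 - sl (v.1 - 2) (max (w.2.1 - v.2.1) (w.2.2 - v.2.2))

theorem Ed.slotOf {P : Par} {v w : CV} {s t : ℕ} (h : Ed P v s w t) :
    slotOf v w = s ∧ slotOf w v = t ∧ v ≠ w := by
  cases h with
  | hor j i h1 h2 => refine ⟨?_, ?_, ?_⟩ <;> simp [Lomb.slotOf]
  | ver j i h1 h2 => refine ⟨?_, ?_, ?_⟩ <;> simp [Lomb.slotOf]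
  | eq j i h0 h1 h2 =>
    refine ⟨?_, ?_, ?_⟩ <;> simp [Lomb.slotOf]
    omega
  | add j i h0 h1 h2 =>
    refine ⟨?_, ?_, ?_⟩ <;> simp [Lomb.slotOf] <;> omega
  | r0 => refine ⟨?_, ?_, ?_⟩ <;> simp [Lomb.slotOf]
  | r1 => refine ⟨?_, ?_, ?_⟩ <;> simp [Lomb.slotOf]
  | r2 => refine ⟨?_, ?_, ?_⟩ <;> simp [Lomb.slotOf]
  | r3 => refine ⟨?_, ?_, ?_⟩ <;> simp [Lomb.slotOf]
  | con k j i r hk hr h =>
    interval_cases k <;> interval_cases r <;> refine ⟨?_, ?_, ?_⟩ <;>
      simp [Lomb.slotOf, sl, dx, dy]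

/-- Different slots belong to different neighbours. -/
theorem pf_inj {P : Par} {v w : CV} {s s' t t' : ℕ} (hv : v ∈ cores P) (hs : s < 24)
    (hs' : s' < 24) (h : pf P v s = some (w, t)) (h' : pf P v s' = some (w, t')) : s = s' := by
  have h1 : slotOf v w = s := by
    rcases pf_ed hv hs h with h | h
    · exact h.slotOf.1
    · exact h.slotOf.2.1
  have h2 : slotOf v w = s' := by
    rcases pf_ed hv hs' h' with h | h
    · exact h.slotOf.1
    · exact h.slotOf.2.1
  rw [← h1, h2]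

theorem pf_symm {P : Par} {v w : CV} {s t : ℕ} (hv : v ∈ cores P) (hs : s < 24)
    (h : pf P v s = some (w, t)) : pf P w t = some (v, s) := by
  rcases pf_ed hv hs h with h | h
  · exact h.pf.2
  · exact h.pf.1

/-! ### Names -/

/-- The name of the vertex `v` (for `s = 24`) and of the leaf at the slot `s` of `v`. -/
def nm (v : CV) (s : ℕ) : ℕ := Nat.pair (Nat.pair v.1 (Nat.pair v.2.1 v.2.2)) s

theorem nm_inj {v w : CV} {s t : ℕ} (h : nm v s = nm w t) : v = w ∧ s = t := by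
  unfold nm at h
  rw [Nat.pair_eq_pair, Nat.pair_eq_pair, Nat.pair_eq_pair] at h
  obtain ⟨⟨h1, h2, h3⟩, h4⟩ := h
  exact ⟨Prod.ext h1 (Prod.ext h2 h3), h4⟩

/-- The name of the neighbour at a slot. -/
def nb (P : Par) (v : CV) (s : ℕ) : ℕ := (pf P v s).elim (nm v s) fun w => nm w.1 24

/-- The rotation at a core vertex. -/
def rot (P : Par) (v : CV) : List ℕ := (List.range 24).map (nb P v)

/-- The graph of a grid program: the core vertices, all of degree `24`, and the leaves. -/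
def G (P : Par) : RotG :=
  (cores P).map (fun v => (nm v 24, rot P v)) ++
  (cores P).flatMap fun v =>
    ((List.range 24).filter fun s => (pf P v s).isNone).map fun s => (nm v s, [nm v 24])

theorem nb_some {P : Par} {v w : CV} {s t : ℕ} (h : pf P v s = some (w, t)) :
    nb P v s = nm w 24 := by simp [nb, h]

theorem nb_none {P : Par} {v : CV} {s : ℕ} (h : pf P v s = none) :
    nb P v s = nm v s := by simp [nb, h]

theorem nb_inj {P : Par} {v : CV} {s s' : ℕ} (hv : v ∈ cores P) (hs : s < 24) (hs' : s' < 24)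
    (h : nb P v s = nb P v s') : s = s' := by
  rcases h1 : pf P v s with _ | ⟨w, t⟩
  · rcases h2 : pf P v s' with _ | ⟨w', t'⟩
    · rw [nb_none h1, nb_none h2] at h
      exact (nm_inj h).2
    · rw [nb_none h1, nb_some h2] at h
      have := (nm_inj h).2
      omega
  · rcases h2 : pf P v s' with _ | ⟨w', t'⟩
    · rw [nb_some h1, nb_none h2] at h
      have := (nm_inj h).2
      omega
    · rw [nb_some h1, nb_some h2] at h
      have := (nm_inj h).1
      subst this
      exact pf_inj hv hs hs' h1 h2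

theorem rot_length (P : Par) (v : CV) : (rot P v).length = 24 := by simp [rot]

theorem rot_nodup {P : Par} {v : CV} (hv : v ∈ cores P) : (rot P v).Nodup := by
  unfold rot
  refine (List.nodup_range).map_on ?_
  intro s hs s' hs' h
  exact nb_inj hv (List.mem_range.1 hs) (List.mem_range.1 hs') h

theorem mem_rot {P : Par} {v : CV} {x : ℕ} : x ∈ rot P v ↔ ∃ s < 24, x = nb P v s := by
  simp [rot, eq_comm]

theorem rot_idx {P : Par} {v : CV} {s : ℕ} (hv : v ∈ cores P) (hs : s < 24) :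
    (rot P v).idxOf (nb P v s) = s := by
  have h1 : s < (rot P v).length := by rw [rot_length]; exact hs
  have h2 : (rot P v)[s] = nb P v s := by simp [rot]
  rw [← h2]
  exact (rot_nodup hv).idxOf_getElem s h1

theorem mem_G {P : Par} {x : ℕ} {l : List ℕ} : (x, l) ∈ G P ↔
    (∃ v ∈ cores P, x = nm v 24 ∧ l = rot P v) ∨
    ∃ v ∈ cores P, ∃ s < 24, pf P v s = none ∧ x = nm v s ∧ l = [nm v 24] := by
  unfold G
  rw [List.mem_append, List.mem_map, List.mem_flatMap]
  constructor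
  · rintro (⟨v, hv, h⟩ | ⟨v, hv, h⟩)
    · simp only [Prod.mk.injEq] at h
      exact Or.inl ⟨v, hv, h.1.symm, h.2.symm⟩
    · simp only [List.mem_map, List.mem_filter, List.mem_range, Option.isNone_iff_eq_none,
        Prod.mk.injEq] at h
      obtain ⟨s, ⟨h1, h2⟩, h3, h4⟩ := h
      exact Or.inr ⟨v, hv, s, h1, h2, h3.symm, h4.symm⟩
  · rintro (⟨v, hv, rfl, rfl⟩ | ⟨v, hv, s, h1, h2, rfl, rfl⟩)
    · exact Or.inl ⟨v, hv, rfl⟩
    · refine Or.inr ⟨v, hv, ?_⟩
      simp only [List.mem_map, List.mem_filter, List.mem_range, Option.isNone_iff_eq_none]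
      exact ⟨s, ⟨h1, h2⟩, rfl⟩

theorem mem_cell {P : Par} {j i : ℕ} {x : CV} (h : x ∈ cell P j i) :
    x.1 ≠ 0 ∧ x.2.1 = j ∧ x.2.2 = i := by
  unfold cell at h
  rw [List.mem_cons, List.mem_map] at h
  rcases h with rfl | ⟨k, -, rfl⟩
  · exact ⟨one_ne_zero, rfl, rfl⟩
  · exact ⟨by show 2 + k ≠ 0; omega, rfl, rfl⟩

theorem cores_nodup (P : Par) : (cores P).Nodup := by
  unfold cores
  rw [List.nodup_cons]
  constructor
  · intro h
    simp only [List.mem_flatMap] at h
    obtain ⟨_, _, _, _, h⟩ := h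
    exact (mem_cell h).1 rfl
  · rw [List.nodup_flatMap]
    refine ⟨fun j _ => ?_, ?_⟩
    · rw [List.nodup_flatMap]
      refine ⟨fun i _ => ?_, ?_⟩
      · unfold cell
        rw [List.nodup_cons]
        refine ⟨?_, ?_⟩
        · intro h
          simp only [List.mem_map] at h
          obtain ⟨k, -, h⟩ := h
          simp only [Prod.mk.injEq] at h
          omega
        · refine ((by decide : ([0, 1, 2] : List ℕ).Nodup).filter _).map ?_
          intro a b h
          simp only [Prod.mk.injEq] at h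
          omega
      · refine List.nodup_range.imp ?_
        intro a b hab x hx hx'
        exact hab ((mem_cell hx).2.2.symm.trans (mem_cell hx').2.2)
    · refine List.nodup_range.imp ?_
      intro a b hab x hx hx'
      simp only [List.mem_flatMap] at hx hx'
      obtain ⟨_, _, hx⟩ := hx
      obtain ⟨_, _, hx'⟩ := hx'
      exact hab ((mem_cell hx).2.1.symm.trans (mem_cell hx').2.1)

theorem G_isRot {P : Par} (h2 : 2 ≤ P.1) (h2' : 2 ≤ P.2.1) : (G P).IsRot where
  names := by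
    unfold G
    rw [List.map_append, List.map_map, List.map_flatMap, List.nodup_append]
    refine ⟨?_, ?_, ?_⟩
    · refine (cores_nodup P).map ?_
      intro v w h
      exact (nm_inj h).1
    · rw [List.nodup_flatMap]
      refine ⟨fun v _ => ?_, ?_⟩
      · rw [List.map_map]
        refine (List.nodup_range.filter _).map ?_
        intro s t h
        exact (nm_inj h).2
      · refine (cores_nodup P).imp ?_
        intro v w hvw x hx hx'
        simp only [List.mem_map] at hx hx'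
        obtain ⟨_, ⟨s, -, rfl⟩, rfl⟩ := hx
        obtain ⟨_, ⟨t, -, rfl⟩, h⟩ := hx'
        exact hvw (nm_inj h).1.symm
    · intro x hx y hy hxy
      simp only [List.mem_map, List.mem_flatMap, List.mem_filter, List.mem_range] at hx hy
      obtain ⟨v, -, rfl⟩ := hx
      obtain ⟨w, -, _, ⟨s, ⟨hs, -⟩, rfl⟩, rfl⟩ := hy
      have := (nm_inj hxy).2
      omega
  nodup := by
    intro x l h
    rcases mem_G.1 h with ⟨v, hv, rfl, rfl⟩ | ⟨v, hv, s, h1, h2, rfl, rfl⟩
    · exact rot_nodup hv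
    · simp
  no_loop := by
    intro x l h hx
    rcases mem_G.1 h with ⟨v, hv, rfl, rfl⟩ | ⟨v, hv, s, h1, h2, rfl, rfl⟩
    · obtain ⟨s, hs, h⟩ := mem_rot.1 hx
      rcases h1 : pf P v s with _ | ⟨w, t⟩
      · rw [nb_none h1] at h
        have := (nm_inj h).2
        omega
      · rw [nb_some h1] at h
        have := (nm_inj h).1
        subst this
        rcases pf_ed hv hs h1 with h | h <;> exact h.slotOf.2.2 rfl
    · simp only [List.mem_singleton] at hx
      have := (nm_inj hx).2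
      omega
  symm := by
    intro x l h y hy
    rcases mem_G.1 h with ⟨v, hv, rfl, rfl⟩ | ⟨v, hv, s, h1, h2, rfl, rfl⟩
    · obtain ⟨s, hs, rfl⟩ := mem_rot.1 hy
      rcases h1 : pf P v s with _ | ⟨w, t⟩
      · exact ⟨[nm v 24], mem_G.2 (Or.inr ⟨v, hv, s, hs, h1, nb_none h1, rfl⟩), by simp⟩
      · have hw : w ∈ cores P ∧ t < 24 := by
          rcases pf_ed hv hs h1 with h | h
          · exact ⟨(h.mem h2 h2').2, h.lt.2⟩
          · exact ⟨(h.mem h2 h2').1, h.lt.1⟩
        refine ⟨rot P w, mem_G.2 (Or.inl ⟨w, hw.1, nb_some h1, rfl⟩), ?_⟩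
        exact mem_rot.2 ⟨t, hw.2, (nb_some (pf_symm hv hs h1)).symm⟩
    · simp only [List.mem_singleton] at hy
      subst hy
      exact ⟨rot P v, mem_G.2 (Or.inl ⟨v, hv, rfl, rfl⟩), mem_rot.2 ⟨s, h1, (nb_none h2).symm⟩⟩

theorem G_maxDeg (P : Par) : (G P).MaxDeg 24 := by
  intro x l h
  rcases mem_G.1 h with ⟨v, hv, rfl, rfl⟩ | ⟨v, hv, s, h1, h2, rfl, rfl⟩
  · rw [rot_length]
  · simp

end Pool.Agent.H678.Lomb
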