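import Pool.Agent.H678.Lomb.Red

/-!
# The main theorem
-/

namespace Pool.Agent.NPC.H678Lomb

open Pool.Agent.H678.Lomb Pool.Agent.NPC.ER

variable {α : Type} [TEnc α]

theorem poly_pp {i : α → ℕ} (hi : Poly i) : Poly (fun a => pp (i a)) := by unfold pp; fun_prop

theorem poly_pq {i : α → ℕ} (hi : Poly i) : Poly (fun a => pq (i a)) := by unfold pq; fun_prop

theorem poly_pt {t : α → ℕ} (r : ℕ) (ht : Poly t) : Poly (fun a => pt (t a) r) := by
  unfold pt; fun_prop

attribute [fun_prop] poly_pp poly_pq poly_pt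

theorem pcon_eq (c : ER.Con) (t : ℕ) : pcon c t =
    if c.code.1 = 0 then [(false, pq c.code.2.1, 0, pp c.code.2.1)]
    else if c.code.1 = 1 then [(false, pp c.code.2.1, pp c.code.2.2.1, pt t 0),
      (false, pt t 0, pq c.code.2.2.2, pt t 1),
      (false, pq c.code.2.1, pq c.code.2.2.1, pt t 2), (false, pt t 2, pp c.code.2.2.2, pt t 1)]
    else [(true, pp c.code.2.1, pp c.code.2.2.1, pt t 0),
      (true, pq c.code.2.1, pq c.code.2.2.1, pt t 1),
      (true, pp c.code.2.1, pq c.code.2.2.1, pt t 2),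
      (true, pq c.code.2.1, pp c.code.2.2.1, pt t 3), (false, pt t 0, pt t 1, pt t 4),
      (false, pt t 4, pq c.code.2.2.2, pt t 5), (false, pt t 2, pt t 3, pt t 6),
      (false, pt t 6, pp c.code.2.2.2, pt t 5)] := by
  cases c <;> rfl

theorem poly_pcon {c : α → ER.Con} {t : α → ℕ} (hc : Poly c) (ht : Poly t) :
    Poly (fun a => pcon (c a) (t a)) := by
  have h0 : Poly (fun a => (c a).code) := poly_con_code hc
  have key : Poly (fun a => if (c a).code.1 = 0 then [(false, pq (c a).code.2.1, 0, pp (c a).code.2.1)]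
    else if (c a).code.1 = 1 then [(false, pp (c a).code.2.1, pp (c a).code.2.2.1, pt (t a) 0),
      (false, pt (t a) 0, pq (c a).code.2.2.2, pt (t a) 1),
      (false, pq (c a).code.2.1, pq (c a).code.2.2.1, pt (t a) 2),
      (false, pt (t a) 2, pp (c a).code.2.2.2, pt (t a) 1)]
    else [(true, pp (c a).code.2.1, pp (c a).code.2.2.1, pt (t a) 0),
      (true, pq (c a).code.2.1, pq (c a).code.2.2.1, pt (t a) 1),
      (true, pp (c a).code.2.1, pq (c a).code.2.2.1, pt (t a) 2),
      (true, pq (c a).code.2.1, pp (c a).code.2.2.1, pt (t a) 3),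
      (false, pt (t a) 0, pt (t a) 1, pt (t a) 4),
      (false, pt (t a) 4, pq (c a).code.2.2.2, pt (t a) 5),
      (false, pt (t a) 2, pt (t a) 3, pt (t a) 6),
      (false, pt (t a) 6, pp (c a).code.2.2.2, pt (t a) 5)]) := by
    fun_prop
  exact key.congr fun a => (pcon_eq _ _).symm

theorem poly_psys {S : α → List ER.Con} (hS : Poly S) : Poly (fun a => psys (S a)) := by
  refine Poly.flatMap (F := fun _ p => pcon p.1 p.2) (Poly.zipIdx hS) ?_
  exact poly_pcon (Poly.fst (Poly.snd Poly.id)) (Poly.snd (Poly.snd Poly.id))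

theorem poly_vl {L : α → List H678.Lomb.PC} (hL : Poly L) : Poly (fun a => vl (L a)) := by
  unfold vl; fun_prop

attribute [fun_prop] poly_vl

theorem poly_row {L : α → List H678.Lomb.PC} {x : α → ℕ} (hL : Poly L) (hx : Poly x) :
    Poly (fun a => row (L a) (x a)) := by
  unfold row
  exact Poly.add (K4H90Seg.upoly_idxOf (poly_vl hL) hx).toPoly (Poly.const 1)

theorem poly_col {t : α → ℕ} (ht : Poly t) : Poly (fun a => col (t a)) := by
  unfold col; fun_prop

theorem poly_prow {L : α → List H678.Lomb.PC} {t : α → ℕ} (hL : Poly L) (ht : Poly t) :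
    Poly (fun a => prow (L a) (t a)) := by
  unfold prow; fun_prop

attribute [fun_prop] poly_row poly_col poly_prow

theorem poly_ceq {L : α → List H678.Lomb.PC} {c : α → H678.Lomb.PC} {t : α → ℕ} (hL : Poly L) (hc : Poly c)
    (ht : Poly t) : Poly (fun a => ceq (L a) (c a) (t a)) := by
  unfold ceq; fun_prop

attribute [fun_prop] poly_ceq

theorem poly_par {L : α → List H678.Lomb.PC} (hL : Poly L) : Poly (fun a => par (L a)) := by
  unfold par; fun_prop

theorem poly_red {S : α → List ER.Con} (hS : Poly S) : Poly (fun a => G (par (psys (S a)))) := by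
  have h := poly_psys hS
  refine poly_G (poly_par h) ?_ ?_
  · exact UPoly.add (UPoly.mul (UPoly.const 8) (UPoly.length h)) (UPoly.const 8)
  · exact UPoly.add (UPoly.mul (UPoly.const 3) (UPoly.length h))
      (UPoly.add (UPoly.length (poly_vl h)) (UPoly.const 8))

end Pool.Agent.NPC.H678Lomb

namespace Pool.Agent.H678.Lomb

open Pool.Agent.NPC Pool.Agent.NPC.ER

theorem par_ge (L : List H678.Lomb.PC) : 2 ≤ (par L).1 ∧ 2 ≤ (par L).2.1 := by
  simp only [par]; omega

/-- Correctness of the reduction. -/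
theorem red_iff (S : List ER.Con) : Sat S ↔ (G (par (psys S))).Lombardi := by
  obtain ⟨h1, h2⟩ := par_ge (psys S)
  constructor
  · intro h
    obtain ⟨w, hw, -, hc⟩ := psys_of_sat h
    obtain ⟨X, Y, hf⟩ := full_of_psys hw hc
    exact hf.lombardi
  · intro h
    obtain ⟨X, Y, hs⟩ := sound h1 h2 h
    obtain ⟨g1, g2⟩ := psys_of_sol hs
    exact sat_of_psys g1 g2

/-- Hardness. -/
theorem hard : ERHard (lang fun g : RotG => g.IsRot ∧ g.MaxDeg 24 ∧ g.Lombardi) := by
  refine ERHard.of_sys (f := fun S => G (par (psys S))) (H678Lomb.poly_red Poly.id) fun S => ?_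
  obtain ⟨h1, h2⟩ := par_ge (psys S)
  rw [red_iff]
  exact ⟨fun h => ⟨G_isRot h1 h2, G_maxDeg _, h⟩, fun h => h.2.2⟩

end Pool.Agent.H678.Lomb
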