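import Pool.Agent.H678.Lomb.Graph
import Pool.Graph.R_seed8.H671R2.PolyAuto
import Pool.Graph.R_pool_sql_team_seeded_c8625f6e.K4H90.Seg.PolyA

/-!
# The graph is computable in polynomial time
-/

namespace Pool.Agent.NPC.H678Lomb

open Pool.Agent.H678.Lomb

variable {α : Type} [TEnc α]

theorem poly_has {P : α → Par} {k j i : α → ℕ} (hP : Poly P) (hk : Poly k) (hj : Poly j)
    (hi : Poly i) : Poly (fun a => has (P a) (k a) (j a) (i a)) := by
  unfold has
  fun_prop

theorem poly_pair {m n : α → ℕ} (hm : Poly m) (hn : Poly n) :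
    Poly (fun a => Nat.pair (m a) (n a)) := by
  unfold Nat.pair
  fun_prop

theorem poly_nm {v : α → CV} {s : α → ℕ} (hv : Poly v) (hs : Poly s) :
    Poly (fun a => nm (v a) (s a)) := by
  unfold nm
  exact poly_pair (poly_pair (Poly.fst hv) (poly_pair (Poly.fst (Poly.snd hv))
    (Poly.snd (Poly.snd hv)))) hs

attribute [fun_prop] poly_has poly_pair poly_nm

theorem poly_pG {P : α → Par} {j i s : α → ℕ} (hP : Poly P) (hj : Poly j) (hi : Poly i)
    (hs : Poly s) : Poly (fun a => pG (P a) (j a) (i a) (s a)) := by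
  unfold pG
  fun_prop

attribute [fun_prop] poly_pG

theorem poly_pf {P : α → Par} {v : α → CV} {s : α → ℕ} (hP : Poly P) (hv : Poly v)
    (hs : Poly s) : Poly (fun a => pf (P a) (v a) (s a)) := by
  unfold pf
  fun_prop

attribute [fun_prop] poly_pf

theorem poly_nb {P : α → Par} {v : α → CV} {s : α → ℕ} (hP : Poly P) (hv : Poly v)
    (hs : Poly s) : Poly (fun a => nb (P a) (v a) (s a)) := by
  unfold nb
  fun_prop

attribute [fun_prop] poly_nb

theorem poly_rot {P : α → Par} {v : α → CV} (hP : Poly P) (hv : Poly v) :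
    Poly (fun a => rot (P a) (v a)) := by
  unfold rot
  fun_prop

attribute [fun_prop] poly_rot

theorem poly_cell {P : α → Par} {j i : α → ℕ} (hP : Poly P) (hj : Poly j) (hi : Poly i) :
    Poly (fun a => cell (P a) (j a) (i a)) := by
  unfold cell
  fun_prop

theorem poly_cores {P : α → Par} (hP : Poly P) (hm : UPoly (fun a => (P a).1))
    (hn : UPoly (fun a => (P a).2.1)) : Poly (fun a => cores (P a)) := by
  unfold cores
  refine Poly.cons (Poly.const _) ?_
  refine Poly.flatMap (F := fun a j => (List.range (P a).2.1).flatMap fun i => cell (P a) j i)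
    hm.range ?_
  refine Poly.flatMap (l := fun x : α × ℕ => List.range (P x.1).2.1)
    (F := fun x i => cell (P x.1) x.2 i) (hn.range.comp (Poly.fst Poly.id)) ?_
  exact poly_cell (hP.comp (Poly.fst (Poly.fst Poly.id))) (Poly.snd (Poly.fst Poly.id))
    (Poly.snd Poly.id)

theorem poly_isNone {o : α → Option (CV × ℕ)} (ho : Poly o) : Poly (fun a => (o a).isNone) := by
  have h := Poly.optElim (g := fun _ : α => true) (h := fun _ _ => false) ho (Poly.const true)
    (Poly.const false)
  exact h.congr fun a => by cases o a <;> rfl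

attribute [fun_prop] poly_isNone

theorem poly_G {P : α → Par} (hP : Poly P) (hm : UPoly (fun a => (P a).1))
    (hn : UPoly (fun a => (P a).2.1)) : Poly (fun a => G (P a)) := by
  have hc := poly_cores hP hm hn
  unfold G
  fun_prop

end Pool.Agent.NPC.H678Lomb
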