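import Pool.Agent.H678.Lomb.Cmp
import Pool.Agent.H678.Lomb.PolyG

/-!
# From systems of equations to grid programs
-/

namespace Pool.Agent.H678.Lomb

open Pool.Agent.NPC Pool.Agent.NPC.ER

/-- Constraints on positive numbers, homogeneous with the unit `w 0`: `(false, i, j, k)` means
`w i + w j = w k`, and `(true, i, j, k)` means `w i * w j = w k * w 0`. -/
abbrev PC : Type := Bool × ℕ × ℕ × ℕ

/-- Validity. -/
def PC.Holds (w : ℕ → ℝ) (c : PC) : Prop :=
  if c.1 then w c.2.1 * w c.2.2.1 = w c.2.2.2 * w 0 else w c.2.1 + w c.2.2.1 = w c.2.2.2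

/-- positive part -/
def pp (i : ℕ) : ℕ := 3 * i + 1

/-- negative part -/
def pq (i : ℕ) : ℕ := 3 * i + 2

/-- temporary variables -/
def pt (t r : ℕ) : ℕ := 3 * (8 * t + r) + 3

/-- The translation of a constraint. -/
def pcon (c : ER.Con) (t : ℕ) : List PC :=
  match c with
  | ER.Con.one i => [(false, pq i, 0, pp i)]
  | ER.Con.add i j k => [(false, pp i, pp j, pt t 0), (false, pt t 0, pq k, pt t 1),
      (false, pq i, pq j, pt t 2), (false, pt t 2, pp k, pt t 1)]
  | ER.Con.mul i j k => [(true, pp i, pp j, pt t 0), (true, pq i, pq j, pt t 1),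
      (true, pp i, pq j, pt t 2), (true, pq i, pp j, pt t 3), (false, pt t 0, pt t 1, pt t 4),
      (false, pt t 4, pq k, pt t 5), (false, pt t 2, pt t 3, pt t 6),
      (false, pt t 6, pp k, pt t 5)]

/-- The positive system. -/
def psys (S : List ER.Con) : List PC := S.zipIdx.flatMap fun p => pcon p.1 p.2

theorem sat_of_psys {S : List ER.Con} {w : ℕ → ℝ} (hw : ∀ i, 0 < w i)
    (h : ∀ c ∈ psys S, PC.Holds w c) : Sat S := by
  have h0 := hw 0
  refine ⟨fun i => (w (pp i) - w (pq i)) / w 0, fun c hc => ?_⟩
  obtain ⟨t, ht⟩ : ∃ t, (c, t) ∈ S.zipIdx := by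
    obtain ⟨t, ht⟩ := List.mem_iff_getElem?.1 hc
    exact ⟨t, List.mem_zipIdx_iff_getElem?.2 ht⟩
  have hmem : ∀ c' ∈ pcon c t, PC.Holds w c' := fun c' hc' =>
    h c' (List.mem_flatMap.2 ⟨(c, t), ht, hc'⟩)
  cases c with
  | one i =>
    simp only [pcon, List.forall_mem_cons, PC.Holds, Bool.false_eq_true, if_false] at hmem
    obtain ⟨h1, -⟩ := hmem
    simp only [ER.Con.Holds]
    rw [div_eq_one_iff_eq h0.ne']
    linarith
  | add i j k =>
    simp only [pcon, List.forall_mem_cons, PC.Holds, Bool.false_eq_true, if_false] at hmem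
    obtain ⟨h1, h2, h3, h4, -⟩ := hmem
    simp only [ER.Con.Holds]
    rw [← add_div]
    congr 1
    linarith
  | mul i j k =>
    simp only [pcon, List.forall_mem_cons, PC.Holds, Bool.false_eq_true, if_false, if_true] at hmem
    obtain ⟨h1, h2, h3, h4, h5, h6, h7, h8, -⟩ := hmem
    simp only [ER.Con.Holds]
    field_simp
    linear_combination h1 + h2 - h3 - h4 + w 0 * h5 + w 0 * h6 - w 0 * h7 - w 0 * h8

theorem psys_of_sat {S : List ER.Con} (h : Sat S) :
    ∃ w : ℕ → ℝ, (∀ i, 0 < w i) ∧ w 0 = 1 ∧ ∀ c ∈ psys S, PC.Holds w c := by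
  obtain ⟨v, hv⟩ := h
  set q : ℕ → ℝ := fun i => |v i| + 1 with hq
  set p : ℕ → ℝ := fun i => v i + |v i| + 1 with hp
  have hqpos : ∀ i, 0 < q i := fun i => by positivity
  have hppos : ∀ i, 0 < p i := fun i => by
    have := neg_abs_le (v i)
    simp only [hp]; linarith
  set tv : ER.Con → ℕ → ℝ := fun c r => match c with
    | ER.Con.one _ => 1
    | ER.Con.add i j k => if r = 0 then p i + p j else if r = 1 then p i + p j + q k
        else if r = 2 then q i + q j else 1
    | ER.Con.mul i j k => if r = 0 then p i * p j else if r = 1 then q i * q j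
        else if r = 2 then p i * q j else if r = 3 then q i * p j
        else if r = 4 then p i * p j + q i * q j else if r = 5 then p i * p j + q i * q j + q k
        else if r = 6 then p i * q j + q i * p j else 1 with htv
  have htvpos : ∀ c r, 0 < tv c r := by
    intro c r
    cases c with
    | one i => exact one_pos
    | add i j k =>
      have := hqpos i; have := hqpos j; have := hqpos k
      have := hppos i; have := hppos j
      simp only [htv]
      split_ifs <;> positivity
    | mul i j k =>
      have := hqpos i; have := hqpos j; have := hqpos k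
      have := hppos i; have := hppos j
      simp only [htv]
      split_ifs <;> positivity
  set w : ℕ → ℝ := fun x => if x = 0 then 1 else if x % 3 = 1 then p (x / 3)
    else if x % 3 = 2 then q (x / 3) else
      (S[(x / 3 - 1) / 8]?).elim 1 fun c => tv c ((x / 3 - 1) % 8) with hw
  have w0 : w 0 = 1 := by simp [hw]
  have wp : ∀ i, w (pp i) = p i := by
    intro i
    have h1 : (3 * i + 1) % 3 = 1 := by omega
    have h2 : (3 * i + 1) / 3 = i := by omega
    simp only [hw, pp, h1, h2]
    simp
  have wq : ∀ i, w (pq i) = q i := by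
    intro i
    have h1 : (3 * i + 2) % 3 = 2 := by omega
    have h2 : (3 * i + 2) / 3 = i := by omega
    simp only [hw, pq, h1, h2]
    simp
  have wt : ∀ t r c, S[t]? = some c → r < 8 → w (pt t r) = tv c r := by
    intro t r c hc hr
    have h1 : (3 * (8 * t + r) + 3) % 3 = 0 := by omega
    have h2 : ((3 * (8 * t + r) + 3) / 3 - 1) / 8 = t := by omega
    have h3 : ((3 * (8 * t + r) + 3) / 3 - 1) % 8 = r := by omega
    simp only [hw, pt, h1, h2, h3, hc]
    simp
  refine ⟨w, ?_, w0, ?_⟩
  · intro x
    simp only [hw]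
    split_ifs
    · exact one_pos
    · exact hppos _
    · exact hqpos _
    · rcases S[(x / 3 - 1) / 8]? with _ | c
      · exact one_pos
      · exact htvpos _ _
  · intro c' hc'
    obtain ⟨⟨c, t⟩, ht, hc'⟩ := List.mem_flatMap.1 hc'
    rw [List.mem_zipIdx_iff_getElem?] at ht
    simp only at ht
    have hc := hv c (List.mem_iff_getElem?.2 ⟨t, ht⟩)
    have ht' := fun r hr => wt t r c ht hr
    cases c with
    | one i =>
      simp only [ER.Con.Holds] at hc
      simp only [pcon, List.mem_singleton] at hc'
      subst hc'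
      simp only [PC.Holds, Bool.false_eq_true, if_false, wp, wq, w0, hp, hq, hc]
      ring
    | add i j k =>
      simp only [ER.Con.Holds] at hc
      have t0 := ht' 0 (by norm_num)
      have t1 := ht' 1 (by norm_num)
      have t2 := ht' 2 (by norm_num)
      simp only [htv] at t0 t1 t2
      norm_num at t0 t1 t2
      simp only [pcon, List.mem_cons, List.not_mem_nil, or_false] at hc'
      rcases hc' with rfl | rfl | rfl | rfl <;>
        simp only [PC.Holds, Bool.false_eq_true, if_false, wp, wq, t0, t1, t2]
      simp only [hp, hq]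
      linarith
    | mul i j k =>
      simp only [ER.Con.Holds] at hc
      have t0 := ht' 0 (by norm_num)
      have t1 := ht' 1 (by norm_num)
      have t2 := ht' 2 (by norm_num)
      have t3 := ht' 3 (by norm_num)
      have t4 := ht' 4 (by norm_num)
      have t5 := ht' 5 (by norm_num)
      have t6 := ht' 6 (by norm_num)
      simp only [htv] at t0 t1 t2 t3 t4 t5 t6
      norm_num at t0 t1 t2 t3 t4 t5 t6
      simp only [pcon, List.mem_cons, List.not_mem_nil, or_false] at hc'
      rcases hc' with rfl | rfl | rfl | rfl | rfl | rfl | rfl | rfl <;>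
        simp only [PC.Holds, Bool.false_eq_true, if_false, if_true, wp, wq, t0, t1, t2, t3, t4,
          t5, t6, w0, mul_one]
      simp only [hp, hq]
      linear_combination -hc

/-! ### The grid program -/

/-- The variables. -/
def vl (L : List PC) : List ℕ := 0 :: L.flatMap fun c => [c.2.1, c.2.2.1, c.2.2.2]

/-- The row of a variable. -/
def row (L : List PC) (x : ℕ) : ℕ := (vl L).idxOf x + 1

/-- The first column of a constraint. -/
def col (t : ℕ) : ℕ := 8 * t + 1

/-- The first private row of a constraint. -/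
def prow (L : List PC) (t : ℕ) : ℕ := 3 * t + ((vl L).length + 1)

/-- Cells that are squares. -/
def ceq (L : List PC) (c : PC) (t : ℕ) : List (ℕ × ℕ) :=
  if c.1 then [(col t, row L 0), (col t + 1, row L c.2.2.1), (col t + 2, row L c.2.1),
      (col t + 2, prow L t), (col t + 3, row L c.2.2.2), (col t + 3, prow L t + 1)]
  else [(col t, row L c.2.1), (col t + 1, row L c.2.2.1)]

/-- The grid program of a positive system. -/
def par (L : List PC) : Par :=
  (8 * L.length + 8, 3 * L.length + ((vl L).length + 8),
    L.zipIdx.flatMap (fun p => ceq L p.1 p.2),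
    (L.zipIdx.filter fun p => !p.1.1).map (fun p => (col p.2, row L p.1.2.2.2)),
    (L.zipIdx.filter fun p => p.1.1).map (fun p => (col p.2, prow L p.2)))

theorem mem_vl {L : List PC} {c : PC} (hc : c ∈ L) :
    c.2.1 ∈ vl L ∧ c.2.2.1 ∈ vl L ∧ c.2.2.2 ∈ vl L := by
  unfold vl
  simp only [List.mem_cons, List.mem_flatMap]
  exact ⟨Or.inr ⟨c, hc, by simp⟩, Or.inr ⟨c, hc, by simp⟩, Or.inr ⟨c, hc, by simp⟩⟩

theorem zero_mem_vl (L : List PC) : 0 ∈ vl L := List.mem_cons_self

theorem psys_of_sol {L : List PC} {X Y : ℕ → ℝ} (h : (par L).Sol X Y) :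
    (∀ x, 0 < Y (row L x)) ∧ ∀ c ∈ L, PC.Holds (fun x => Y (row L x)) c := by
  have hrow : ∀ x, row L x ≤ (vl L).length + 1 := fun x =>
    Nat.succ_le_succ List.idxOf_le_length
  constructor
  · intro x
    apply h.y
    have := hrow x
    simp only [par]
    omega
  · intro c hc
    obtain ⟨t, ht⟩ : ∃ t, (c, t) ∈ L.zipIdx := by
      obtain ⟨t, ht⟩ := List.mem_iff_getElem?.1 hc
      exact ⟨t, List.mem_zipIdx_iff_getElem?.2 ht⟩
    have htl : t < L.length := by
      rw [List.mem_zipIdx_iff_getElem?] at ht
      exact (List.getElem?_eq_some_iff.1 ht).1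
    have heq : ∀ a b, (a, b) ∈ ceq L c t → a < 8 * L.length + 5 →
        b < 3 * L.length + ((vl L).length + 5) → X a = Y b := by
      intro a b hab ha hb
      refine h.eq a b (List.mem_flatMap.2 ⟨(c, t), ht, hab⟩) ?_ ?_
      · simp only [par]; omega
      · simp only [par]; omega
    unfold PC.Holds
    split_ifs with hb
    · simp only [ceq, hb, if_true, List.mem_cons, List.not_mem_nil, or_false] at heq
      have hc1 : col t + 8 ≤ 8 * L.length + 5 := by unfold col; omega
      have hr1 : prow L t + 3 ≤ 3 * L.length + ((vl L).length + 5) := by unfold prow; omega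
      have e1 := heq (col t) (row L 0) (by simp) (by omega) (by have := hrow 0; omega)
      have e2 := heq (col t + 1) (row L c.2.2.1) (by simp) (by omega)
        (by have := hrow c.2.2.1; omega)
      have e3 := heq (col t + 2) (row L c.2.1) (by simp) (by omega)
        (by have := hrow c.2.1; omega)
      have e4 := heq (col t + 2) (prow L t) (by simp) (by omega) (by omega)
      have e5 := heq (col t + 3) (row L c.2.2.2) (by simp) (by omega)
        (by have := hrow c.2.2.2; omega)
      have e6 := heq (col t + 3) (prow L t + 1) (by simp) (by omega) (by omega)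
      have e7 := h.mul (col t) (prow L t) (by
        simp only [par, List.mem_map, List.mem_filter]
        exact ⟨(c, t), ⟨ht, hb⟩, rfl⟩) (by simp only [par]; omega) (by simp only [par]; omega)
      beta_reduce
      rw [← e3, e4, ← e2, e7, ← e6, e5, e1]
    · have hb' : c.1 = false := by simpa using hb
      simp only [ceq, hb', Bool.false_eq_true, if_false, List.mem_cons, List.not_mem_nil,
        or_false] at heq
      have hc1 : col t + 8 ≤ 8 * L.length + 5 := by unfold col; omega
      have e1 := heq (col t) (row L c.2.1) (by simp) (by omega) (by have := hrow c.2.1; omega)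
      have e2 := heq (col t + 1) (row L c.2.2.1) (by simp) (by omega)
        (by have := hrow c.2.2.1; omega)
      have e7 := h.add (col t) (row L c.2.2.2) (by
        simp only [par, List.mem_map, List.mem_filter]
        exact ⟨(c, t), ⟨ht, by simp [hb']⟩, rfl⟩) (by simp only [par]; omega)
        (by simp only [par]; have := hrow c.2.2.2; omega)
      beta_reduce
      rw [← e1, ← e2, e7]

theorem full_of_psys {L : List PC} {w : ℕ → ℝ} (hw : ∀ i, 0 < w i)
    (h : ∀ c ∈ L, PC.Holds w c) : ∃ X Y : ℕ → ℝ, Full (par L) X Y := by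
  set X : ℕ → ℝ := fun j => if j = 0 then 1 else (L[(j - 1) / 8]?).elim 1 fun c =>
    if c.1 then (if (j - 1) % 8 = 0 then w 0 else if (j - 1) % 8 = 1 then w c.2.2.1
      else if (j - 1) % 8 = 2 then w c.2.1 else if (j - 1) % 8 = 3 then w c.2.2.2 else 1)
    else (if (j - 1) % 8 = 0 then w c.2.1 else if (j - 1) % 8 = 1 then w c.2.2.1 else 1) with hX
  set Y : ℕ → ℝ := fun i => if i = 0 then 1 else if i ≤ (vl L).length then
      w ((vl L).getD (i - 1) 0) else
      (L[(i - ((vl L).length + 1)) / 3]?).elim 1 fun c =>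
        if (i - ((vl L).length + 1)) % 3 = 0 then w c.2.1
        else if (i - ((vl L).length + 1)) % 3 = 1 then w c.2.2.2 else 1 with hY
  have hrow : ∀ x ∈ vl L, Y (row L x) = w x := by
    intro x hx
    have h1 : (vl L).idxOf x < (vl L).length := List.idxOf_lt_length_of_mem hx
    have h2 : row L x ≠ 0 := by unfold row; omega
    have h3 : row L x ≤ (vl L).length := by unfold row; omega
    simp only [hY, h2, h3, if_false, if_true]
    congr 1
    unfold row
    rw [Nat.add_sub_cancel, List.getD_eq_getElem?_getD, List.getElem?_eq_getElem h1,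
      Option.getD_some]
    exact List.getElem_idxOf h1
  have hprow : ∀ t c, L[t]? = some c → Y (prow L t) = w c.2.1 ∧ Y (prow L t + 1) = w c.2.2.2 := by
    intro t c hc
    have h1 : prow L t ≠ 0 := by unfold prow; omega
    have h2 : ¬ prow L t ≤ (vl L).length := by unfold prow; omega
    have h3 : prow L t - ((vl L).length + 1) = 3 * t := by unfold prow; omega
    have h4 : prow L t + 1 - ((vl L).length + 1) = 3 * t + 1 := by unfold prow; omega
    have h5 : prow L t + 1 ≠ 0 := by omega
    have h6 : ¬ prow L t + 1 ≤ (vl L).length := by omega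
    have h7 : 3 * t / 3 = t := by omega
    have h8 : 3 * t % 3 = 0 := by omega
    have h9 : (3 * t + 1) / 3 = t := by omega
    have h10 : (3 * t + 1) % 3 = 1 := by omega
    constructor
    · simp only [hY, h1, h2, h3, h7, h8, hc, if_false]
      simp
    · simp only [hY, h5, h6, h4, h9, h10, hc, if_false]
      simp
  have hcol : ∀ t c r, L[t]? = some c → r < 8 → X (col t + r) =
      if c.1 then (if r = 0 then w 0 else if r = 1 then w c.2.2.1
      else if r = 2 then w c.2.1 else if r = 3 then w c.2.2.2 else 1)
      else (if r = 0 then w c.2.1 else if r = 1 then w c.2.2.1 else 1) := by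
    intro t c r hc hr
    have h1 : col t + r ≠ 0 := by unfold col; omega
    have h2 : (col t + r - 1) / 8 = t := by unfold col; omega
    have h3 : (col t + r - 1) % 8 = r := by unfold col; omega
    simp only [hX, h1, h2, h3, hc, if_false]
    simp
  have hzip : ∀ {c : PC} {t : ℕ}, (c, t) ∈ L.zipIdx → L[t]? = some c := by
    intro c t ht
    rw [List.mem_zipIdx_iff_getElem?] at ht
    exact ht
  refine ⟨X, Y, ?_, ?_, ?_, ?_, ?_, ?_, ?_, ?_, ?_⟩
  · simp only [par]; omega
  · simp only [par]; omega
  · intro j
    by_cases hj : j = 0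
    · simp [hX, hj]
    · simp only [hX, hj, if_false]
      rcases L[(j - 1) / 8]? with _ | c
      · exact one_pos
      · simp only [Option.elim_some]
        split_ifs <;> first | exact one_pos | exact hw _
  · intro i
    by_cases hi : i = 0
    · simp [hY, hi]
    · simp only [hY, hi, if_false]
      by_cases hi' : i ≤ (vl L).length
      · rw [if_pos hi']; exact hw _
      · rw [if_neg hi']
        rcases L[(i - ((vl L).length + 1)) / 3]? with _ | c
        · exact one_pos
        · simp only [Option.elim_some]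
          split_ifs <;> first | exact one_pos | exact hw _
  · simp [hX]
  · simp [hY]
  · intro a b hab _ _
    simp only [par, List.mem_flatMap] at hab
    obtain ⟨⟨c, t⟩, ht, hab⟩ := hab
    have hc := hzip ht
    have hcL : c ∈ L := List.mem_iff_getElem?.2 ⟨t, hc⟩
    obtain ⟨m1, m2, m3⟩ := mem_vl hcL
    simp only at hab
    unfold ceq at hab
    split_ifs at hab with hb
    · simp only [List.mem_cons, List.not_mem_nil, or_false, Prod.mk.injEq] at hab
      rcases hab with ⟨rfl, rfl⟩ | ⟨rfl, rfl⟩ | ⟨rfl, rfl⟩ | ⟨rfl, rfl⟩ | ⟨rfl, rfl⟩ | ⟨rfl, rfl⟩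
      · have := hcol t c 0 hc (by norm_num)
        rw [add_zero] at this
        rw [this, hrow _ (zero_mem_vl L)]; simp [hb]
      · rw [hcol t c 1 hc (by norm_num), hrow _ m2]; simp [hb]
      · rw [hcol t c 2 hc (by norm_num), hrow _ m1]; simp [hb]
      · rw [hcol t c 2 hc (by norm_num), (hprow t c hc).1]; simp [hb]
      · rw [hcol t c 3 hc (by norm_num), hrow _ m3]; simp [hb]
      · rw [hcol t c 3 hc (by norm_num), (hprow t c hc).2]; simp [hb]
    · simp only [List.mem_cons, List.not_mem_nil, or_false, Prod.mk.injEq] at hab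
      rcases hab with ⟨rfl, rfl⟩ | ⟨rfl, rfl⟩
      · have := hcol t c 0 hc (by norm_num)
        rw [add_zero] at this
        rw [this, hrow _ m1]; simp [hb]
      · rw [hcol t c 1 hc (by norm_num), hrow _ m2]; simp [hb]
  · intro a b hab _ _
    simp only [par, List.mem_map, List.mem_filter] at hab
    obtain ⟨⟨c, t⟩, ⟨ht, hb⟩, hab⟩ := hab
    have hb' : c.1 = false := by simpa using hb
    simp only [Prod.mk.injEq] at hab
    obtain ⟨rfl, rfl⟩ := hab
    have hc := hzip ht
    have hcL : c ∈ L := List.mem_iff_getElem?.2 ⟨t, hc⟩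
    obtain ⟨m1, m2, m3⟩ := mem_vl hcL
    have h1 := hcol t c 0 hc (by norm_num)
    rw [add_zero] at h1
    have h2 := hcol t c 1 hc (by norm_num)
    have h3 := h c hcL
    simp [PC.Holds, hb'] at h3
    rw [h1, h2, hrow _ m3]
    simp [hb', h3]
  · intro a b hab _ _
    simp only [par, List.mem_map, List.mem_filter] at hab
    obtain ⟨⟨c, t⟩, ⟨ht, hb⟩, hab⟩ := hab
    simp only at hb
    simp only [Prod.mk.injEq] at hab
    obtain ⟨rfl, rfl⟩ := hab
    have hc := hzip ht
    have hcL : c ∈ L := List.mem_iff_getElem?.2 ⟨t, hc⟩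
    have h1 := hcol t c 0 hc (by norm_num)
    rw [add_zero] at h1
    have h2 := hcol t c 1 hc (by norm_num)
    have h3 := h c hcL
    simp [PC.Holds, hb] at h3
    rw [h1, h2, (hprow t c hc).1, (hprow t c hc).2]
    simp [hb, h3]

end Pool.Agent.H678.Lomb
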