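import Pool.Agent.H678.Lomb.Graph

/-!
# Soundness: a Lombardi drawing gives a solution of the grid program
-/

namespace Pool.Agent.H678.Lomb

open Complex ComplexConjugate

/-- The directions of the slots. -/
noncomputable def zt (s : ℕ) : ℂ := exp ((2 * Real.pi * s / 24 : ℝ) * I)

theorem zt_norm (s : ℕ) : ‖zt s‖ = 1 := norm_exp_I _

theorem zt_ne (s : ℕ) : zt s ≠ 0 := unit_ne (zt_norm s)

theorem zt_add (s t : ℕ) : zt (s + t) = zt s * zt t := by
  unfold zt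
  rw [← exp_add]
  congr 1
  push_cast
  ring

theorem zt_zero : zt 0 = 1 := by simp [zt]

theorem zt_six : zt 6 = I := by
  have h : exp ((2 * Real.pi * (6 : ℕ) / 24 : ℝ) * I) = exp (Real.pi / 2 * I) := by
    congr 1
    push_cast
    ring
  exact h.trans exp_pi_div_two_mul_I

theorem zt_twelve : zt 12 = -1 := by
  rw [show 12 = 6 + 6 from rfl, zt_add, zt_six, I_mul_I]

theorem zt_full : zt 24 = 1 := by
  rw [show 24 = 12 + 12 from rfl, zt_add, zt_twelve]; norm_num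

theorem zt_conj_mul (s : ℕ) : zt s * conj (zt s) = 1 := unit_conj (zt_norm s)

/-- The edges of the core, as relative directions. -/
def coreE (P : Par) : Set (CV × ℂ × CV × ℂ) :=
  {e | ∃ s t, Ed P e.1 s e.2.2.1 t ∧ e.2.1 = zt s ∧ e.2.2.2 = zt t}

theorem mem_coreE {P : Par} {v w : CV} {a b : ℂ} : (v, a, w, b) ∈ coreE P ↔
    ∃ s t, Ed P v s w t ∧ a = zt s ∧ b = zt t := Iff.rfl

theorem dir_core {P : Par} {v w : CV} {s t : ℕ} (hv : v ∈ cores P) (hs : s < 24)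
    (h : pf P v s = some (w, t)) (θ : ℝ) : dir θ (rot P v) (nm w 24) = exp (θ * I) * zt s := by
  unfold dir zt
  rw [← nb_some h, rot_idx hv hs, rot_length, ← exp_add]
  congr 1
  push_cast
  ring

theorem lomb_dr {P : Par} (h2 : 2 ≤ P.1) (h2' : 2 ≤ P.2.1) (h : (G P).Lombardi) :
    ∃ ψ : CV → ℂ × ℂ, Dr {v | v ∈ cores P} (coreE P) ψ := by
  obtain ⟨z, θ, hz, hA⟩ := h
  have hmem : ∀ v ∈ cores P, (nm v 24, rot P v) ∈ G P := fun v hv =>
    mem_G.2 (Or.inl ⟨v, hv, rfl, rfl⟩)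
  refine ⟨_, Dr.of_planar (z := fun v => z (nm v 24)) (θ := fun v => θ (nm v 24)) ?_ ?_ ?_⟩
  · rintro v a w b ⟨s, t, he, rfl, rfl⟩
    obtain ⟨g1, g2⟩ := he.mem h2 h2'
    exact ⟨g1, g2, he.slotOf.2.2, zt_norm _, zt_norm _⟩
  · intro v hv w hw hvw
    exact hz _ _ (hmem v hv) _ _ (hmem w hw) fun h => hvw (nm_inj h).1
  · rintro v a w b ⟨s, t, he, rfl, rfl⟩
    obtain ⟨hv, hw⟩ := he.mem h2 h2'
    obtain ⟨hs, ht⟩ := he.lt
    obtain ⟨p1, p2⟩ := he.pf
    simp only at hv hw hs ht p1 p2 ⊢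
    have d1 := dir_core hv hs p1 (θ (nm v 24))
    have d2 := dir_core hw ht p2 (θ (nm w 24))
    rw [← d1, ← d2]
    have n1 : nm w 24 ∈ rot P v := mem_rot.2 ⟨s, hs, (nb_some p1).symm⟩
    have n2 : nm v 24 ∈ rot P w := mem_rot.2 ⟨t, ht, (nb_some p2).symm⟩
    have hne : nm v 24 ≠ nm w 24 := fun h => he.slotOf.2.2 (nm_inj h).1
    rcases lt_or_gt_of_ne hne with hlt | hlt
    · obtain ⟨A, hA1, hA2⟩ := hA _ _ (hmem v hv) _ _ (hmem w hw) hlt n1 n2
      exact ⟨A, hA1, fun x hx => hA2 _ _ (hmem x hx)⟩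
    · obtain ⟨A, hA1, hA2⟩ := hA _ _ (hmem w hw) _ _ (hmem v hv) hlt n2 n1
      exact ⟨A, hA1.symm, fun x hx => hA2 _ _ (hmem x hx)⟩

theorem Pos.sq_real {w : ℂ} (h : Pos (w ^ 2)) : ∃ t : ℝ, t ≠ 0 ∧ w = t := by
  obtain ⟨r, hr, h⟩ := h
  have h1 := congrArg re h
  have h2 := congrArg im h
  rw [pow_two] at h1 h2
  simp only [mul_re, mul_im, ofReal_re, ofReal_im] at h1 h2
  have h3 : w.im = 0 := by
    have : w.re * w.im = 0 := by linarith
    rcases mul_eq_zero.1 this with h | h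
    · rw [h] at h1; nlinarith [sq_nonneg w.im]
    · exact h
  refine ⟨w.re, ?_, ?_⟩
  · intro h; rw [h, h3] at h1; norm_num at h1; linarith
  · apply Complex.ext <;> simp [h3]

theorem Pos.real_sq {t : ℝ} (h : t ≠ 0) : Pos ((t : ℂ) ^ 2) :=
  ⟨t ^ 2, by positivity, by push_cast; rfl⟩

theorem Pos.of_mul {w v : ℂ} (h : Pos (w * v)) (hw : Pos w) : Pos v := by
  have := h.mul hw.inv
  have e : w * v * w⁻¹ = v := by have := hw.ne; field_simp
  rwa [e] at this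

/-- Normalised coordinates. -/
structure Nrm (P : Par) (Z B : CV → ℂ) : Prop where
  c0 : ∀ v ∈ cores P, v ≠ (0, 0, 0) → B v ≠ 0
  c1 : ∀ v ∈ cores P, ∀ w ∈ cores P, v ≠ (0, 0, 0) → w ≠ (0, 0, 0) → v ≠ w → Z v ≠ Z w
  c2 : ∀ v s w t, Ed P v s w t → v ≠ (0, 0, 0) → w ≠ (0, 0, 0) →
    Pos (-((B v * B w * (Z v - Z w)) ^ 2 * conj (zt s * zt t)))
  c3 : ∀ v s w t, Ed P v s w t → v ≠ (0, 0, 0) → w ≠ (0, 0, 0) →
    zt s / (B v ^ 2 * (Z w - Z v)) ∈ slitPlane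
  c4 : ∀ v s t, Ed P v s (0, 0, 0) t → Pos (-((B v) ^ 2 * conj (zt s * zt t)))

theorem exists_nrm {P : Par} (h2 : 2 ≤ P.1) (h2' : 2 ≤ P.2.1) {ψ : CV → ℂ × ℂ}
    (h : Dr {v | v ∈ cores P} (coreE P) ψ) : ∃ Z B : CV → ℂ, Nrm P Z B := by
  have m0 : ((0, 0, 0) : CV) ∈ cores P := mem_cores.2 (Or.inl rfl)
  have m1 : ((1, 0, 0) : CV) ∈ cores P :=
    mem_cores.2 (Or.inr (Or.inl ⟨0, 0, by omega, by omega, rfl⟩))
  have he : ψ (0, 0, 0) ≠ 0 := h.ne_zero m0 m1 (by simp)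
  obtain ⟨Z, hZ⟩ := exists_affine he
  have hB : ∀ v ∈ cores P, v ≠ (0, 0, 0) → br (ψ (0, 0, 0)) (ψ v) ≠ 0 := fun v hv hv0 =>
    h.d1 _ m0 v hv hv0.symm
  refine ⟨fun v => Z (ψ v), fun v => br (ψ (0, 0, 0)) (ψ v), hB, ?_, ?_, ?_, ?_⟩
  · intro v hv w hw hv0 hw0 hvw hzz
    apply h.d1 v hv w hw hvw
    rw [hZ _ _ (hB v hv hv0) (hB w hw hw0), hzz, sub_self, mul_zero]
  · intro v s w t he hv0 hw0
    obtain ⟨hv, hw⟩ := he.mem h2 h2'
    have := h.d2 v (zt s) w (zt t) ⟨s, t, he, rfl, rfl⟩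
    rwa [hZ _ _ (hB v hv hv0) (hB w hw hw0)] at this
  · intro v s w t he hv0 hw0
    obtain ⟨hv, hw⟩ := he.mem h2 h2'
    have := h.d3 v (zt s) w (zt t) ⟨s, t, he, rfl, rfl⟩ _ m0 hv0.symm hw0.symm
    rw [hZ _ _ (hB w hw hw0) (hB v hv hv0), br_comm (ψ w), br_comm (ψ v)] at this
    convert this using 1
    have e1 := hB v hv hv0
    have e2 := hB w hw hw0
    have e3 := zt_ne s
    by_cases e4 : Z (ψ w) - Z (ψ v) = 0
    · simp [e4]
    · field_simp
  · intro v s t he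
    have := h.d2 v (zt s) _ (zt t) ⟨s, t, he, rfl, rfl⟩
    rw [br_comm] at this
    convert this using 3
    ring

section

variable {P : Par} {Z B : CV → ℂ}

/-- A straight edge between flat vertices. -/
theorem Nrm.straight (h : Nrm P Z B) {v w : CV} {s t : ℕ} (he : Ed P v s w t)
    (hv0 : v ≠ (0, 0, 0)) (hw0 : w ≠ (0, 0, 0)) (hst : zt t = -zt s) (hv : Pos (B v ^ 2))
    (hw : Pos (B w ^ 2)) : ∃ τ : ℝ, 0 < τ ∧ Z w - Z v = τ * zt s := by
  have h2 := h.c2 v s w t he hv0 hw0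
  have h3 := h.c3 v s w t he hv0 hw0
  have e1 := zt_conj_mul s
  have e2 := zt_ne s
  rw [hst] at h2
  have h4 : Pos (((Z w - Z v) * conj (zt s)) ^ 2) := by
    have h5 : -((B v * B w * (Z v - Z w)) ^ 2 * conj (zt s * -zt s)) =
        B v ^ 2 * (B w ^ 2 * ((Z w - Z v) * conj (zt s)) ^ 2) := by
      rw [map_mul, map_neg]; ring
    rw [h5] at h2
    exact (h2.of_mul hv).of_mul hw
  obtain ⟨τ, hτ, hτ'⟩ := h4.sq_real
  have h6 : Z w - Z v = τ * zt s := by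
    rw [← hτ']
    linear_combination (-(Z w - Z v)) * e1
  refine ⟨τ, ?_, h6⟩
  rw [← hv.mul_mem, h6] at h3
  have hτc : (τ : ℂ) ≠ 0 := by exact_mod_cast hτ
  have h7 : B v ^ 2 * (zt s / (B v ^ 2 * (τ * zt s))) = ((τ⁻¹ : ℝ) : ℂ) := by
    have : B v ≠ 0 := fun h => hv.ne (by rw [h]; simp)
    push_cast
    field_simp
  rw [h7, mem_slitPlane_iff] at h3
  rcases h3 with h | h
  · rw [ofReal_re] at h; exact inv_pos.1 h
  · exact absurd (ofReal_im _) h

/-- The relation between a connector and a point on its line. -/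
theorem Nrm.conn (h : Nrm P Z B) {k j i r : ℕ} (hk : k < 3) (hr : r < 3)
    (hh : has P k j i = true) :
    Pos (-((B (1, j + r * dx k, i + r * dy k) * B (2 + k, j, i) *
      (Z (1, j + r * dx k, i + r * dy k) - Z (2 + k, j, i))) ^ 2)) := by
  have h2 := h.c2 _ _ _ _ (Ed.con k j i r hk hr hh) (by simp) (by simp)
  have : zt (sl k r) * zt (24 - sl k r) = 1 := by
    rw [← zt_add, show sl k r + (24 - sl k r) = 24 by
      interval_cases k <;> interval_cases r <;> simp [sl], zt_full]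
  rwa [this, map_one, mul_one] at h2

/-- Three flat points of a connector are collinear. -/
theorem collinear_of {b f p₀ p₁ p₂ : ℂ} (h0 : Pos (-(b * (p₀ - f)) ^ 2))
    (h1 : Pos (-(b * (p₁ - f)) ^ 2)) (h2 : Pos (-(b * (p₂ - f)) ^ 2)) (h01 : p₀ ≠ p₁) :
    ∃ μ : ℝ, p₂ - p₀ = μ * (p₁ - p₀) := by
  have key : ∀ p, Pos (-(b * (p - f)) ^ 2) → ∃ l : ℝ, p - f = l * (p₀ - f) := by
    intro p hp
    have h3 := hp.div h0
    have hb : b ≠ 0 := by rintro rfl; exact h0.ne (by simp)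
    have h4 : p₀ - f ≠ 0 := by intro h; rw [h] at h0; exact h0.ne (by simp)
    have h5 : -(b * (p - f)) ^ 2 / -(b * (p₀ - f)) ^ 2 = ((p - f) / (p₀ - f)) ^ 2 := by
      field_simp
    rw [h5] at h3
    obtain ⟨l, -, hl⟩ := h3.sq_real
    refine ⟨l, ?_⟩
    rw [← hl]; field_simp
  obtain ⟨l, hl⟩ := key p₁ h1
  obtain ⟨m, hm⟩ := key p₂ h2
  have hl1 : l - 1 ≠ 0 := by
    intro h
    apply h01
    have : (l : ℂ) = 1 := by exact_mod_cast (sub_eq_zero.1 h)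
    rw [this] at hl
    linear_combination -hl
  have hl1c : (l : ℂ) - 1 ≠ 0 := by exact_mod_cast hl1
  refine ⟨(m - 1) / (l - 1), ?_⟩
  push_cast
  field_simp
  linear_combination (l - 1 : ℂ) * hm - (m - 1 : ℂ) * hl

/-- Flatness is propagated by connectors. -/
theorem flat_of {b₂ b f p₀ p₁ p₂ ζ : ℂ} (hζ : ζ ≠ 0) (h0 : Pos (-(b * (p₀ - f)) ^ 2))
    (h1 : Pos (-(b * (p₁ - f)) ^ 2)) (h2 : Pos (-(b₂ * b * (p₂ - f)) ^ 2)) {τ : ℝ} (hτ : τ ≠ 0)
    (h01 : p₁ - p₀ = τ * ζ) (h12 : Pos ((b₂ * (p₁ - p₂) / ζ) ^ 2)) : Pos (b₂ ^ 2) := by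
  have hb : b ≠ 0 := by rintro rfl; exact h0.ne (by simp)
  have h4 : p₀ - f ≠ 0 := by intro h; rw [h] at h0; exact h0.ne (by simp)
  have h4' : p₁ - f ≠ 0 := by intro h; rw [h] at h1; exact h1.ne (by simp)
  have hτc : (τ : ℂ) ≠ 0 := by exact_mod_cast hτ
  obtain ⟨l, hl0, hl⟩ : ∃ l : ℝ, l ≠ 0 ∧ (p₁ - f) / (p₀ - f) = l := by
    have h3 := h1.div h0
    have h5 : -(b * (p₁ - f)) ^ 2 / -(b * (p₀ - f)) ^ 2 = ((p₁ - f) / (p₀ - f)) ^ 2 := by
      field_simp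
    rw [h5] at h3
    exact h3.sq_real
  rw [div_eq_iff h4] at hl
  have hl0c : (l : ℂ) ≠ 0 := by exact_mod_cast hl0
  have hl1 : (l : ℂ) - 1 ≠ 0 := by
    intro h
    have h5 : (l : ℂ) = 1 := sub_eq_zero.1 h
    rw [h5] at hl
    have : (τ : ℂ) * ζ = 0 := by rw [← h01]; linear_combination hl
    exact (mul_ne_zero hτc hζ) this
  have hf0 : p₀ - f = τ / (l - 1) * ζ := by
    field_simp
    linear_combination h01 - hl
  have hf1 : p₁ - f = l * τ / (l - 1) * ζ := by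
    rw [hl, hf0]; ring
  -- the square of `b ζ`
  have hbz : Pos (-(b * ζ) ^ 2) := by
    have h5 : -(b * (p₀ - f)) ^ 2 = ((τ / (l - 1) : ℝ) : ℂ) ^ 2 * -(b * ζ) ^ 2 := by
      rw [hf0]; push_cast; ring
    rw [h5] at h0
    have h6 : τ / (l - 1) ≠ 0 := by
      have : l - 1 ≠ 0 := by exact_mod_cast hl1
      exact div_ne_zero hτ this
    exact h0.of_mul (Pos.real_sq h6)
  have h7 : Pos ((b₂ * (p₂ - f) / ζ) ^ 2) := by
    have h8 := h2.div hbz
    have h9 : -(b₂ * b * (p₂ - f)) ^ 2 / -(b * ζ) ^ 2 = (b₂ * (p₂ - f) / ζ) ^ 2 := by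
      field_simp
    rwa [h9] at h8
  have hb2 : b₂ ≠ 0 := by rintro rfl; exact h12.ne (by simp)
  have h10 : p₁ - p₂ ≠ 0 := by intro h; rw [h] at h12; exact h12.ne (by simp)
  obtain ⟨ν, hν0, hν⟩ : ∃ l : ℝ, l ≠ 0 ∧ (p₂ - f) / (p₁ - p₂) = l := by
    have h3 := h7.div h12
    have h5 : (b₂ * (p₂ - f) / ζ) ^ 2 / (b₂ * (p₁ - p₂) / ζ) ^ 2 =
        ((p₂ - f) / (p₁ - p₂)) ^ 2 := by
      field_simp
    rw [h5] at h3
    exact h3.sq_real
  rw [div_eq_iff h10] at hν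
  have h11 : (1 + ν : ℂ) * (p₁ - p₂) = l * τ / (l - 1) * ζ := by
    rw [← hf1]; linear_combination -hν
  have h12' : (1 + ν : ℂ) ≠ 0 := by
    intro h
    rw [h, zero_mul] at h11
    exact (mul_ne_zero (div_ne_zero (mul_ne_zero hl0c hτc) hl1) hζ) h11.symm
  have h13 : p₁ - p₂ = ((l * τ / (l - 1) / (1 + ν) : ℝ) : ℂ) * ζ := by
    push_cast
    field_simp
    field_simp at h11
    linear_combination h11
  rw [h13] at h12
  have h14 : (b₂ * (((l * τ / (l - 1) / (1 + ν) : ℝ) : ℂ) * ζ) / ζ) ^ 2 =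
      ((l * τ / (l - 1) / (1 + ν) : ℝ) : ℂ) ^ 2 * b₂ ^ 2 := by
    field_simp
  rw [h14] at h12
  refine h12.of_mul (Pos.real_sq ?_)
  have e1 : l - 1 ≠ 0 := by exact_mod_cast hl1
  have e2 : 1 + ν ≠ 0 := by exact_mod_cast h12'
  exact div_ne_zero (div_ne_zero (mul_ne_zero hl0 hτ) e1) e2

/-- The edge between two vertices, one of them flat. -/
theorem Nrm.semi (h : Nrm P Z B) {v w : CV} {s t : ℕ} (he : Ed P v s w t)
    (hv0 : v ≠ (0, 0, 0)) (hw0 : w ≠ (0, 0, 0)) (hst : zt t = -zt s) (hv : Pos (B v ^ 2)) :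
    Pos ((B w * (Z v - Z w) / zt s) ^ 2) := by
  have h2 := h.c2 v s w t he hv0 hw0
  rw [hst] at h2
  have h5 : -((B v * B w * (Z v - Z w)) ^ 2 * conj (zt s * -zt s)) =
      B v ^ 2 * (B w * (Z v - Z w) / zt s) ^ 2 := by
    rw [map_mul, map_neg, eq_inv_of_mul_eq_one_right (zt_conj_mul s)]
    have := zt_ne s
    field_simp
  rw [h5] at h2
  exact h2.of_mul hv

theorem Nrm.prop (h : Nrm P Z B) (h2 : 2 ≤ P.1) (h2' : 2 ≤ P.2.1) {k j i : ℕ} (hk : k < 3)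
    (hh : has P k j i = true) {s t : ℕ} (hst : zt t = -zt s)
    (e0 : Ed P (1, j, i) s (1, j + dx k, i + dy k) t)
    (e1 : Ed P (1, j + dx k, i + dy k) s (1, j + 2 * dx k, i + 2 * dy k) t)
    (f0 : Pos (B (1, j, i) ^ 2)) (f1 : Pos (B (1, j + dx k, i + dy k) ^ 2)) :
    Pos (B (1, j + 2 * dx k, i + 2 * dy k) ^ 2) := by
  have c0 := h.conn hk (r := 0) (by norm_num) hh
  have c1 := h.conn hk (r := 1) (by norm_num) hh
  have c2 := h.conn hk (r := 2) (by norm_num) hh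
  rw [zero_mul, zero_mul, add_zero, add_zero] at c0
  rw [one_mul, one_mul] at c1
  obtain ⟨τ, hτ, hτ'⟩ := h.straight e0 (by simp) (by simp) hst f0 f1
  have s1 := h.semi e1 (by simp) (by simp) hst f1
  refine flat_of (zt_ne s) (b := B (2 + k, j, i)) (f := Z (2 + k, j, i))
    (p₀ := Z (1, j, i)) (p₁ := Z (1, j + dx k, i + dy k)) ?_ ?_ c2 hτ.ne' hτ' s1
  · refine Pos.of_mul (w := B (1, j, i) ^ 2) ?_ f0
    convert c0 using 1
    ring
  · refine Pos.of_mul (w := B (1, j + dx k, i + dy k) ^ 2) ?_ f1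
    convert c1 using 1
    ring

theorem zt_opp (s : ℕ) : zt (s + 12) = -zt s := by rw [zt_add, zt_twelve]; ring

theorem zt_eighteen : zt 18 = -zt 6 := zt_opp 6

theorem zt_twelve' : zt 12 = -zt 0 := zt_opp 0

theorem zt_nine : zt 9 = -zt 21 := by
  have := zt_opp 9
  rw [this]; ring

theorem zt_fifteen : zt 15 = -zt 3 := zt_opp 3

theorem Nrm.ray (h : Nrm P Z B) {v : CV} {s t : ℕ} (he : Ed P v s (0, 0, 0) t)
    (hst : s + t = 36) : Pos (B v ^ 2) := by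
  have := h.c4 v s t he
  rw [← zt_add, hst, show 36 = 24 + 12 from rfl, zt_add, zt_full, zt_twelve] at this
  convert this using 1
  simp

theorem Nrm.flat_col (h : Nrm P Z B) (h2 : 2 ≤ P.1) (h2' : 2 ≤ P.2.1) {j : ℕ} (hj : j < 2) :
    ∀ i, i + 1 < P.2.1 → Pos (B (1, j, i) ^ 2) ∧ Pos (B (1, j, i + 1) ^ 2) := by
  intro i
  induction i with
  | zero =>
    intro _
    interval_cases j
    · exact ⟨h.ray Ed.r0 rfl, h.ray Ed.r2 rfl⟩
    · exact ⟨h.ray Ed.r3 rfl, h.ray Ed.r1 rfl⟩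
  | succ i ih =>
    intro hi
    obtain ⟨f0, f1⟩ := ih (by omega)
    refine ⟨f1, ?_⟩
    have hh : has P 1 j i = true := by
      simp [has]; omega
    have := h.prop h2 h2' (k := 1) (j := j) (i := i) (by norm_num) hh (s := 6) (t := 18)
      zt_eighteen
    simp only [dx, dy, if_true, add_zero, mul_zero, one_ne_zero, if_false, mul_one] at this
    exact this (Ed.ver j i (by omega) (by omega)) (Ed.ver j (i + 1) (by omega) hi) f0 f1

theorem Nrm.flat_row (h : Nrm P Z B) (h2 : 2 ≤ P.1) (h2' : 2 ≤ P.2.1) {i : ℕ} (hi : i < P.2.1) :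
    ∀ j, j + 1 < P.1 → Pos (B (1, j, i) ^ 2) ∧ Pos (B (1, j + 1, i) ^ 2) := by
  have key : ∀ j < 2, Pos (B (1, j, i) ^ 2) := by
    intro j hj
    rcases Nat.eq_zero_or_pos i with rfl | hi0
    · exact (h.flat_col h2 h2' hj 0 (by omega)).1
    · obtain ⟨i, rfl⟩ := Nat.exists_eq_add_of_le' hi0
      exact (h.flat_col h2 h2' hj i (by omega)).2
  intro j
  induction j with
  | zero => exact fun _ => ⟨key 0 (by norm_num), key 1 (by norm_num)⟩
  | succ j ih =>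
    intro hj
    obtain ⟨f0, f1⟩ := ih (by omega)
    refine ⟨f1, ?_⟩
    have hh : has P 0 j i = true := by
      simp [has]; omega
    have := h.prop h2 h2' (k := 0) (j := j) (i := i) (by norm_num) hh (s := 0) (t := 12)
      zt_twelve'
    simp only [dx, dy, if_true, add_zero, mul_zero, zero_ne_one, if_false, mul_one] at this
    exact this (Ed.hor j i (by omega) hi) (Ed.hor (j + 1) i hj hi) f0 f1

theorem Nrm.flat (h : Nrm P Z B) (h2 : 2 ≤ P.1) (h2' : 2 ≤ P.2.1) {j i : ℕ} (hj : j < P.1)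
    (hi : i < P.2.1) : Pos (B (1, j, i) ^ 2) := by
  rcases Nat.eq_zero_or_pos j with rfl | hj0
  · exact (h.flat_row h2 h2' hi 0 (by omega)).1
  · obtain ⟨j, rfl⟩ := Nat.exists_eq_add_of_le' hj0
    exact (h.flat_row h2 h2' hi j (by omega)).2

theorem zt_three : (zt 3).re = (zt 3).im := by
  unfold zt
  rw [exp_ofReal_mul_I_re, exp_ofReal_mul_I_im]
  rw [show 2 * Real.pi * ((3 : ℕ) : ℝ) / 24 = Real.pi / 4 by push_cast; ring,
    Real.cos_pi_div_four, Real.sin_pi_div_four]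

theorem zt_twentyone : (zt 21).re = -(zt 21).im := by
  rw [show 21 = 18 + 3 from rfl, zt_add, zt_eighteen, zt_six]
  have := zt_three
  simp [this]

end

/-- Solutions of a grid program. -/
structure Par.Sol (P : Par) (X Y : ℕ → ℝ) : Prop where
  x : ∀ j, j + 1 < P.1 → 0 < X j
  y : ∀ i, i + 1 < P.2.1 → 0 < Y i
  eq : ∀ j i, (j, i) ∈ P.2.2.1 → j + 1 < P.1 → i + 1 < P.2.1 → X j = Y i
  add : ∀ j i, (j, i) ∈ P.2.2.2.1 → j + 2 < P.1 → i + 1 < P.2.1 → X j + X (j + 1) = Y i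
  mul : ∀ j i, (j, i) ∈ P.2.2.2.2 → j + 2 < P.1 → i + 2 < P.2.1 →
    Y i * X (j + 1) = Y (i + 1) * X j

theorem Nrm.sol {P : Par} {Z B : CV → ℂ} (h : Nrm P Z B) (h2 : 2 ≤ P.1) (h2' : 2 ≤ P.2.1) :
    ∃ X Y : ℕ → ℝ, P.Sol X Y := by
  have hor : ∀ j i, j + 1 < P.1 → i < P.2.1 →
      ∃ τ : ℝ, 0 < τ ∧ Z (1, j + 1, i) - Z (1, j, i) = τ := by
    intro j i hj hi
    obtain ⟨τ, h1, h2⟩ := h.straight (Ed.hor j i hj hi) (by simp) (by simp) zt_twelve'
      (h.flat h2 h2' (by omega) hi) (h.flat h2 h2' hj hi)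
    rw [zt_zero, mul_one] at h2
    exact ⟨τ, h1, h2⟩
  have ver : ∀ j i, j < P.1 → i + 1 < P.2.1 →
      ∃ τ : ℝ, 0 < τ ∧ Z (1, j, i + 1) - Z (1, j, i) = τ * I := by
    intro j i hj hi
    obtain ⟨τ, h1, h2⟩ := h.straight (Ed.ver j i hj hi) (by simp) (by simp) zt_eighteen
      (h.flat h2 h2' hj (by omega)) (h.flat h2 h2' hj hi)
    rw [zt_six] at h2
    exact ⟨τ, h1, h2⟩
  have hre : ∀ j i, j < P.1 → i < P.2.1 → (Z (1, j, i)).re = (Z (1, j, 0)).re := by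
    intro j i hj
    induction i with
    | zero => exact fun _ => rfl
    | succ i ih =>
      intro hi
      obtain ⟨τ, -, h1⟩ := ver j i hj hi
      have := congrArg re h1
      simp at this
      rw [← ih (by omega)]
      linarith
  have him : ∀ j i, j < P.1 → i < P.2.1 → (Z (1, j, i)).im = (Z (1, 0, i)).im := by
    intro j i
    induction j with
    | zero => exact fun _ _ => rfl
    | succ j ih =>
      intro hj hi
      obtain ⟨τ, -, h1⟩ := hor j i hj hi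
      have := congrArg im h1
      simp at this
      rw [← ih (by omega) hi]
      linarith
  have hX : ∀ j j' i i', j < P.1 → i < P.2.1 → j' < P.1 → i' < P.2.1 →
      (Z (1, j', i') - Z (1, j, i)).re = (Z (1, j', 0)).re - (Z (1, j, 0)).re := by
    intro j j' i i' hj hi hj' hi'
    rw [sub_re, hre j i hj hi, hre j' i' hj' hi']
  have hY : ∀ j j' i i', j < P.1 → i < P.2.1 → j' < P.1 → i' < P.2.1 →
      (Z (1, j', i') - Z (1, j, i)).im = (Z (1, 0, i')).im - (Z (1, 0, i)).im := by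
    intro j j' i i' hj hi hj' hi'
    rw [sub_im, him j i hj hi, him j' i' hj' hi']
  refine ⟨fun j => (Z (1, j + 1, 0)).re - (Z (1, j, 0)).re,
    fun i => (Z (1, 0, i + 1)).im - (Z (1, 0, i)).im, ?_, ?_, ?_, ?_, ?_⟩
  · intro j hj
    obtain ⟨τ, h0, h1⟩ := hor j 0 hj (by omega)
    have := congrArg re h1
    simp at this
    linarith
  · intro i hi
    obtain ⟨τ, h0, h1⟩ := ver 0 i (by omega) hi
    have := congrArg im h1
    simp at this
    linarith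
  · intro j i hm hj hi
    obtain ⟨τ, h0, h1⟩ := h.straight (Ed.eq j i hm hj hi) (by simp) (by simp) zt_nine
      (h.flat h2 h2' (by omega) hi) (h.flat h2 h2' hj (by omega))
    have a1 := congrArg re h1
    have a2 := congrArg im h1
    rw [hX _ _ _ _ (by omega) hi hj (by omega)] at a1
    rw [hY _ _ _ _ (by omega) hi hj (by omega)] at a2
    rw [re_ofReal_mul, zt_twentyone] at a1
    rw [im_ofReal_mul] at a2
    linarith
  · intro j i hm hj hi
    obtain ⟨τ, h0, h1⟩ := h.straight (Ed.add j i hm hj hi) (by simp) (by simp) zt_fifteen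
      (h.flat h2 h2' (by omega) (by omega)) (h.flat h2 h2' hj hi)
    have a1 := congrArg re h1
    have a2 := congrArg im h1
    rw [hX _ _ _ _ (by omega) (by omega) hj hi] at a1
    rw [hY _ _ _ _ (by omega) (by omega) hj hi] at a2
    rw [re_ofReal_mul, zt_three] at a1
    rw [im_ofReal_mul] at a2
    linarith
  · intro j i hm hj hi
    have hh : has P 2 j i = true := by simp [has, hm]; omega
    have c0 := h.conn (by norm_num : 2 < 3) (r := 0) (by norm_num) hh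
    have c1 := h.conn (by norm_num : 2 < 3) (r := 1) (by norm_num) hh
    have c2 := h.conn (by norm_num : 2 < 3) (r := 2) (by norm_num) hh
    simp only [dx, dy] at c0 c1 c2
    norm_num at c0 c1 c2
    have f0 := h.flat h2 h2' (j := j) (i := i) (by omega) (by omega)
    have f1 := h.flat h2 h2' (j := j + 1) (i := i + 1) (by omega) (by omega)
    have f2 := h.flat h2 h2' (j := j + 2) (i := i + 2) (by omega) (by omega)
    have hne : Z (1, j, i) ≠ Z (1, j + 1, i + 1) := by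
      refine h.c1 _ (mem_cores.2 (Or.inr (Or.inl ⟨j, i, by omega, by omega, rfl⟩))) _
        (mem_cores.2 (Or.inr (Or.inl ⟨j + 1, i + 1, by omega, by omega, rfl⟩))) ?_ ?_ ?_ <;> simp
    obtain ⟨μ, hμ⟩ := collinear_of (b := B (4, j, i)) (f := Z (4, j, i))
      (p₀ := Z (1, j, i)) (p₁ := Z (1, j + 1, i + 1)) (p₂ := Z (1, j + 2, i + 2))
      (Pos.of_mul (w := B (1, j, i) ^ 2) (by convert c0 using 1; ring) f0)
      (Pos.of_mul (w := B (1, j + 1, i + 1) ^ 2) (by convert c1 using 1; ring) f1)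
      (Pos.of_mul (w := B (1, j + 2, i + 2) ^ 2) (by convert c2 using 1; ring) f2) hne
    have a1 := congrArg re hμ
    have a2 := congrArg im hμ
    rw [re_ofReal_mul, hX _ _ _ _ (by omega) (by omega) (by omega) (by omega),
      hX _ _ _ _ (by omega) (by omega) (by omega) (by omega)] at a1
    rw [im_ofReal_mul, hY _ _ _ _ (by omega) (by omega) (by omega) (by omega),
      hY _ _ _ _ (by omega) (by omega) (by omega) (by omega)] at a2
    have e1 : (Z (1, j + 1 + 1, 0)).re = (Z (1, j + 2, 0)).re := rfl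
    have e2 : (Z (1, 0, i + 1 + 1)).im = (Z (1, 0, i + 2)).im := rfl
    simp only [e1, e2]
    linear_combination ((Z (1, 0, i + 1)).im - (Z (1, 0, i)).im) * a1 -
      ((Z (1, j + 1, 0)).re - (Z (1, j, 0)).re) * a2

/-- **Soundness.** -/
theorem sound {P : Par} (h2 : 2 ≤ P.1) (h2' : 2 ≤ P.2.1) (h : (G P).Lombardi) :
    ∃ X Y : ℕ → ℝ, P.Sol X Y := by
  obtain ⟨ψ, hψ⟩ := lomb_dr h2 h2' h
  obtain ⟨Z, B, hZ⟩ := exists_nrm h2 h2' hψ
  exact hZ.sol h2 h2'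

end Pool.Agent.H678.Lomb
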