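import Pool.Agent.H678.Lomb.Arc

/-!
# Lombardi drawings in terms of spinors

A point of the sphere with a direction is described by a vector of `ℂ²`; everything is invariant
under Möbius transformations.
-/

namespace Pool.Agent.H678.Lomb

open Complex ComplexConjugate Filter Topology

/-- The bracket. -/
def br (u v : ℂ × ℂ) : ℂ := u.1 * v.2 - u.2 * v.1

theorem br_self (u : ℂ × ℂ) : br u u = 0 := by unfold br; ring

theorem br_comm (u v : ℂ × ℂ) : br u v = -br v u := by unfold br; ring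

theorem br_ne_comm {u v : ℂ × ℂ} (h : br u v ≠ 0) : br v u ≠ 0 := by
  rw [br_comm]; exact neg_ne_zero.2 h

theorem plucker (a b c d : ℂ × ℂ) : br a b * br c d = br a c * br b d - br a d * br b c := by
  unfold br; ring

variable {ι : Type}

/-- A drawing with spinors; `(v, a, w, b) ∈ E` is an edge that leaves `v` in the relative direction
`a` and `w` in the relative direction `b`. -/
structure Dr (V : Set ι) (E : Set (ι × ℂ × ι × ℂ)) (ψ : ι → ℂ × ℂ) : Prop where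
  wf : ∀ v a w b, (v, a, w, b) ∈ E → v ∈ V ∧ w ∈ V ∧ v ≠ w ∧ ‖a‖ = 1 ∧ ‖b‖ = 1
  d1 : ∀ v ∈ V, ∀ w ∈ V, v ≠ w → br (ψ v) (ψ w) ≠ 0
  d2 : ∀ v a w b, (v, a, w, b) ∈ E → Pos (-((br (ψ v) (ψ w)) ^ 2 * conj (a * b)))
  d3 : ∀ v a w b, (v, a, w, b) ∈ E → ∀ x ∈ V, x ≠ v → x ≠ w →
    a * br (ψ w) (ψ x) / (br (ψ w) (ψ v) * br (ψ v) (ψ x)) ∈ slitPlane

theorem exists_br {e : ℂ × ℂ} (he : e ≠ 0) : ∃ f, br e f = 1 := by
  by_cases h : e.1 = 0
  · have h2 : e.2 ≠ 0 := fun h2 => he (Prod.ext h h2)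
    refine ⟨(-(e.2)⁻¹, 0), ?_⟩
    unfold br
    field_simp
    simp
  · refine ⟨(0, (e.1)⁻¹), ?_⟩
    unfold br
    field_simp
    simp

/-- Affine coordinates in which `e` is at infinity. -/
theorem exists_affine {e : ℂ × ℂ} (he : e ≠ 0) : ∃ Z : ℂ × ℂ → ℂ, ∀ u v, br e u ≠ 0 → br e v ≠ 0 →
    br u v = br e u * br e v * (Z u - Z v) := by
  obtain ⟨f, hf⟩ := exists_br he
  refine ⟨fun u => -br f u / br e u, fun u v hu hv => ?_⟩
  have h := plucker e f u v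
  rw [hf, one_mul] at h
  field_simp
  linear_combination h

theorem Dr.ne_zero {V : Set ι} {E : Set (ι × ℂ × ι × ℂ)} {ψ : ι → ℂ × ℂ} (h : Dr V E ψ) {v w : ι}
    (hv : v ∈ V) (hw : w ∈ V) (hvw : v ≠ w) : ψ v ≠ 0 := by
  intro h0
  apply h.d1 v hv w hw hvw
  rw [h0]; simp [br]

theorem unit_conj {u : ℂ} (h : ‖u‖ = 1) : u * conj u = 1 := by rw [mul_conj', h]; simp

theorem unit_ne {u : ℂ} (h : ‖u‖ = 1) : u ≠ 0 := by rintro rfl; simp at h

theorem norm_unit_sq {B : ℂ} (hB : B ≠ 0) : ‖((‖B‖ / B) ^ 2 : ℂ)‖ = 1 := by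
  have : ‖B‖ ≠ 0 := norm_ne_zero_iff.2 hB
  rw [norm_pow, norm_div, norm_real, norm_norm, div_self this, one_pow]

theorem conj_unit_sq {B : ℂ} (hB : B ≠ 0) : conj (((‖B‖ : ℂ) / B) ^ 2) = B ^ 2 / (‖B‖ : ℂ) ^ 2 := by
  rw [eq_inv_of_mul_eq_one_right (unit_conj (norm_unit_sq hB)), ← inv_pow, inv_div, div_pow]

/-- From spinors to the plane. -/
theorem Dr.planar {V : Set ι} {E : Set (ι × ℂ × ι × ℂ)} {ψ : ι → ℂ × ℂ} {pt : ι}
    (h : Dr (insert pt V) E ψ) (hpt : pt ∉ V)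
    (hE : ∀ v a w b, (v, a, w, b) ∈ E → v ∈ V ∧ w ∈ V) :
    ∃ z u : ι → ℂ, (∀ v ∈ V, ‖u v‖ = 1) ∧ (∀ v ∈ V, ∀ w ∈ V, v ≠ w → z v ≠ z w) ∧
      ∀ v a w b, (v, a, w, b) ∈ E → ∃ A, IsArc (z v) (z w) (u v * a) (u w * b) A ∧
        ∀ x ∈ V, z x ∉ A := by
  by_cases hV : ∃ v, v ∈ V
  swap
  · refine ⟨fun _ => 0, fun _ => 0, fun v hv => absurd ⟨v, hv⟩ hV, fun v hv => absurd ⟨v, hv⟩ hV,
      fun v a w b he => absurd ⟨v, (hE v a w b he).1⟩ hV⟩
  obtain ⟨v₀, hv₀⟩ := hV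
  have hptV : pt ∈ insert pt V := Set.mem_insert _ _
  have hne : ∀ v ∈ V, v ≠ pt := fun v hv h => hpt (h ▸ hv)
  have he : ψ pt ≠ 0 := h.ne_zero hptV (Set.mem_insert_of_mem _ hv₀) (hne v₀ hv₀).symm
  obtain ⟨Z, hZ⟩ := exists_affine he
  have hB : ∀ v ∈ V, br (ψ pt) (ψ v) ≠ 0 := fun v hv =>
    h.d1 pt hptV v (Set.mem_insert_of_mem _ hv) (hne v hv).symm
  have hz : ∀ v ∈ V, ∀ w ∈ V, v ≠ w → Z (ψ v) ≠ Z (ψ w) := by
    intro v hv w hw hvw hzz
    apply h.d1 v (Set.mem_insert_of_mem _ hv) w (Set.mem_insert_of_mem _ hw) hvw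
    rw [hZ _ _ (hB v hv) (hB w hw), hzz, sub_self, mul_zero]
  have hu : ∀ v ∈ V, ‖((‖br (ψ pt) (ψ v)‖ / br (ψ pt) (ψ v)) ^ 2 : ℂ)‖ = 1 :=
    fun v hv => norm_unit_sq (hB v hv)
  refine ⟨fun v => Z (ψ v), fun v => (‖br (ψ pt) (ψ v)‖ / br (ψ pt) (ψ v)) ^ 2, hu, hz, ?_⟩
  intro v a w b hedge
  obtain ⟨hv, hw⟩ := hE v a w b hedge
  obtain ⟨-, -, hvw, ha, hb⟩ := h.wf v a w b hedge
  have k2 := h.d2 v a w b hedge
  have k3 := h.d3 v a w b hedge
  have hbv := hB v hv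
  have hbw := hB w hw
  have huv := hu v hv
  have huw := hu w hw
  have hvw' := hZ _ _ hbv hbw
  have hwv' := hZ _ _ hbw hbv
  have hNv : 0 < ‖br (ψ pt) (ψ v)‖ := norm_pos_iff.2 hbv
  have hNw : 0 < ‖br (ψ pt) (ψ w)‖ := norm_pos_iff.2 hbw
  have hzvw : Z (ψ w) - Z (ψ v) ≠ 0 := sub_ne_zero.2 (hz v hv w hw hvw).symm
  have hNvc : (‖br (ψ pt) (ψ v)‖ : ℂ) ≠ 0 := by exact_mod_cast hNv.ne'
  have hNwc : (‖br (ψ pt) (ψ w)‖ : ℂ) ≠ 0 := by exact_mod_cast hNw.ne'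
  have hPv : Pos ((‖br (ψ pt) (ψ v)‖ : ℂ) ^ 2) :=
    ⟨‖br (ψ pt) (ψ v)‖ ^ 2, by positivity, by push_cast; rfl⟩
  have hPw : Pos ((‖br (ψ pt) (ψ w)‖ : ℂ) ^ 2) :=
    ⟨‖br (ψ pt) (ψ w)‖ ^ 2, by positivity, by push_cast; rfl⟩
  obtain ⟨A, hA, hA'⟩ := exists_arc (p := Z (ψ v)) (q := Z (ψ w))
    (a := (‖br (ψ pt) (ψ v)‖ / br (ψ pt) (ψ v)) ^ 2 * a)
    (b := (‖br (ψ pt) (ψ w)‖ / br (ψ pt) (ψ w)) ^ 2 * b) (hz v hv w hw hvw)
    (by rw [norm_mul, huv, ha, one_mul]) (by rw [norm_mul, huw, hb, one_mul]) (by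
      have c1 := conj_unit_sq hbv
      have c2 := conj_unit_sq hbw
      have := k2.div (hPv.mul hPw)
      convert this using 1
      rw [hvw']
      rw [map_mul, map_mul, map_mul, c1, c2, map_mul]
      field_simp
      ring) (by
      have h5 := k3 pt hptV (hne v hv).symm (hne w hw).symm
      rw [← hPv.mul_mem] at h5
      convert h5 using 1
      rw [hwv', br_comm (ψ w) (ψ pt), br_comm (ψ v) (ψ pt)]
      field_simp)
  refine ⟨A, hA, fun x hx hxA => ?_⟩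
  obtain ⟨h6, h7, h8⟩ := hA' _ hxA
  have hxv : x ≠ v := by rintro rfl; exact h6 rfl
  have hxw : x ≠ w := by rintro rfl; exact h7 rfl
  apply h8
  have h5 := k3 x (Set.mem_insert_of_mem _ hx) hxv hxw
  rw [← hPv.mul_mem] at h5
  convert h5 using 1
  have hbx := hB x hx
  unfold rat
  rw [hwv', hZ _ _ hbw hbx, hZ _ _ hbv hbx]
  have g1 : Z (ψ v) - Z (ψ x) ≠ 0 := sub_ne_zero.2 (hz v hv x hx hxv.symm)
  field_simp

/-- From the plane to spinors. -/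
theorem Dr.of_planar {V : Set ι} {E : Set (ι × ℂ × ι × ℂ)} {z : ι → ℂ} {θ : ι → ℝ}
    (hE : ∀ v a w b, (v, a, w, b) ∈ E → v ∈ V ∧ w ∈ V ∧ v ≠ w ∧ ‖a‖ = 1 ∧ ‖b‖ = 1)
    (hz : ∀ v ∈ V, ∀ w ∈ V, v ≠ w → z v ≠ z w)
    (h : ∀ v a w b, (v, a, w, b) ∈ E →
      ∃ A, IsArc (z v) (z w) (exp (θ v * I) * a) (exp (θ w * I) * b) A ∧ ∀ x ∈ V, z x ∉ A) :
    Dr V E (fun v => (z v * exp (-(θ v / 2) * I), exp (-(θ v / 2) * I))) := by
  have hbr : ∀ v w, br (z v * exp (-(θ v / 2) * I), exp (-(θ v / 2) * I))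
      (z w * exp (-(θ w / 2) * I), exp (-(θ w / 2) * I)) =
      exp (-(θ v / 2) * I) * exp (-(θ w / 2) * I) * (z v - z w) := by
    intro v w; unfold br; ring
  have hb0 : ∀ v, exp (-(θ v / 2) * I) ≠ 0 := fun v => exp_ne_zero _
  have hbs : ∀ v, exp (-(θ v / 2) * I) ^ 2 * exp (θ v * I) = 1 := by
    intro v
    rw [← exp_nat_mul, ← exp_add]
    rw [show ((2 : ℕ) : ℂ) * (-(θ v / 2) * I) + θ v * I = 0 by push_cast; ring, exp_zero]
  refine ⟨hE, ?_, ?_, ?_⟩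
  · intro v hv w hw hvw
    rw [hbr]
    exact mul_ne_zero (mul_ne_zero (hb0 v) (hb0 w)) (sub_ne_zero.2 (hz v hv w hw hvw))
  · intro v a w b he
    obtain ⟨A, hA, -⟩ := h v a w b he
    have k := hA.key
    rw [hbr]
    convert k using 1
    have c : ∀ v, conj (exp (θ v * I)) = exp (-(θ v / 2) * I) ^ 2 := by
      intro v
      have h1 := unit_conj (norm_exp_I (θ v))
      have h2 := hbs v
      have h3 : exp (θ v * I) ≠ 0 := exp_ne_zero _
      have : exp (θ v * I) * (conj (exp (θ v * I)) - exp (-(θ v / 2) * I) ^ 2) = 0 := by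
        linear_combination h1 - h2
      exact sub_eq_zero.1 ((mul_eq_zero.1 this).resolve_left h3)
    rw [map_mul, map_mul, map_mul, map_mul, c, c]
    ring
  · intro v a w b he x hx hxv hxw
    obtain ⟨A, hA, hA'⟩ := h v a w b he
    obtain ⟨hv, hw, hvw, -, -⟩ := hE v a w b he
    have h1 : rat (z v) (z w) (exp (θ v * I) * a) (z x) ∈ slitPlane := by
      by_contra hcon
      exact hA' x hx (hA.mem (hz x hx v hv hxv) (hz x hx w hw hxw) hcon)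
    convert h1 using 1
    rw [hbr, hbr, hbr]
    unfold rat
    have g1 : z v - z x ≠ 0 := sub_ne_zero.2 (hz v hv x hx hxv.symm)
    have g2 : z w - z v ≠ 0 := sub_ne_zero.2 (hz w hw v hv hvw.symm)
    have := hbs v
    have e1 := hb0 v
    have e2 := hb0 w
    have e3 := hb0 x
    have e4 := exp_ne_zero (θ v * I)
    generalize exp (-(θ v / 2) * I) = X at *
    generalize exp (-(θ w / 2) * I) = Y at *
    generalize exp (-(θ x / 2) * I) = T at *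
    generalize exp (θ v * I) = S at *
    field_simp
    linear_combination (-a * (z w - z x)) * this

/-! ### Adding a vertex -/

/-- Adding a vertex `x` with the edges `N`: an element `(w, a, c)` of `N` is an edge from `w` (in
the direction `a`) to `x` (in the direction `c`). -/
theorem Dr.add [DecidableEq ι] {V : Set ι} {E : Set (ι × ℂ × ι × ℂ)} {ψ : ι → ℂ × ℂ}
    (h : Dr V E ψ) (hV : V.Finite) (hE : E.Finite) {x : ι} (hx : x ∉ V) {l : Filter ℝ} [l.NeBot]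
    (φ : ℝ → ℂ × ℂ) (N : Set (ι × ℂ × ℂ)) (hN : N.Finite)
    (h0 : ∀ w a c, (w, a, c) ∈ N → w ∈ V ∧ ‖a‖ = 1 ∧ ‖c‖ = 1)
    (h1 : ∀ v ∈ V, ∀ᶠ s in l, br (ψ v) (φ s) ≠ 0)
    (h2 : ∀ v a w b, (v, a, w, b) ∈ E → ∀ᶠ s in l,
      a * br (ψ w) (φ s) / (br (ψ w) (ψ v) * br (ψ v) (φ s)) ∈ slitPlane)
    (h3 : ∀ w a c, (w, a, c) ∈ N → ∀ᶠ s in l, Pos (-((br (ψ w) (φ s)) ^ 2 * conj (a * c))))
    (h4 : ∀ w a c, (w, a, c) ∈ N → ∀ y ∈ V, y ≠ w → ∀ᶠ s in l,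
      a * br (φ s) (ψ y) / (br (φ s) (ψ w) * br (ψ w) (ψ y)) ∈ slitPlane) :
    ∃ p, Dr (insert x V) (E ∪ {e | ∃ w a c, (w, a, c) ∈ N ∧ e = (w, a, x, c)})
      (Function.update ψ x p) := by
  have e1 : ∀ᶠ s in l, ∀ v ∈ V, br (ψ v) (φ s) ≠ 0 := (eventually_all_finite hV).2 h1
  have e2 : ∀ᶠ s in l, ∀ e ∈ E,
      e.2.1 * br (ψ e.2.2.1) (φ s) / (br (ψ e.2.2.1) (ψ e.1) * br (ψ e.1) (φ s)) ∈ slitPlane :=
    (eventually_all_finite hE).2 fun e he => h2 e.1 e.2.1 e.2.2.1 e.2.2.2 he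
  have e3 : ∀ᶠ s in l, ∀ n ∈ N, Pos (-((br (ψ n.1) (φ s)) ^ 2 * conj (n.2.1 * n.2.2))) :=
    (eventually_all_finite hN).2 fun n hn => h3 n.1 n.2.1 n.2.2 hn
  have e4 : ∀ᶠ s in l, ∀ n ∈ N, ∀ y ∈ V, y ≠ n.1 →
      n.2.1 * br (φ s) (ψ y) / (br (φ s) (ψ n.1) * br (ψ n.1) (ψ y)) ∈ slitPlane := by
    refine (eventually_all_finite hN).2 fun n hn => (eventually_all_finite hV).2 fun y hy => ?_
    by_cases hy' : y = n.1
    · exact Eventually.of_forall fun s h => absurd hy' h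
    · exact (h4 n.1 n.2.1 n.2.2 hn y hy hy').mono fun s h _ => h
  obtain ⟨s, f1, f2, f3, f4⟩ := (e1.and (e2.and (e3.and e4))).exists
  have u1 : ∀ v ∈ V, Function.update ψ x (φ s) v = ψ v := fun v hv =>
    Function.update_of_ne (by rintro rfl; exact hx hv) _ _
  have u2 : Function.update ψ x (φ s) x = φ s := Function.update_self _ _ _
  have f2' := fun v a w b he => f2 (v, a, w, b) he
  have f3' := fun w a c hn => f3 (w, a, c) hn
  have f4' := fun w a c hn => f4 (w, a, c) hn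
  refine ⟨φ s, ?_, ?_, ?_, ?_⟩
  · rintro v a w b (he | ⟨n1, n2, n3, hn, hne⟩)
    · obtain ⟨g1, g2, g3⟩ := h.wf v a w b he
      exact ⟨Set.mem_insert_of_mem _ g1, Set.mem_insert_of_mem _ g2, g3⟩
    · simp only [Prod.mk.injEq] at hne
      obtain ⟨rfl, rfl, rfl, rfl⟩ := hne
      obtain ⟨g1, g2, g3⟩ := h0 _ _ _ hn
      exact ⟨Set.mem_insert_of_mem _ g1, Set.mem_insert _ _, by rintro rfl; exact hx g1, g2, g3⟩
  · rintro v (rfl | hv) w (rfl | hw) hvw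
    · exact absurd rfl hvw
    · rw [u2, u1 w hw]; exact br_ne_comm (f1 w hw)
    · rw [u2, u1 v hv]; exact f1 v hv
    · rw [u1 v hv, u1 w hw]; exact h.d1 v hv w hw hvw
  · rintro v a w b (he | ⟨n1, n2, n3, hn, hne⟩)
    · obtain ⟨g1, g2, -⟩ := h.wf v a w b he
      rw [u1 v g1, u1 w g2]; exact h.d2 v a w b he
    · simp only [Prod.mk.injEq] at hne
      obtain ⟨rfl, rfl, rfl, rfl⟩ := hne
      rw [u2, u1 _ (h0 _ _ _ hn).1]
      exact f3' v a b hn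
  · rintro v a w b (he | ⟨n1, n2, n3, hn, hne⟩) y hy hyv hyw
    · obtain ⟨g1, g2, -⟩ := h.wf v a w b he
      rcases hy with rfl | hy
      · rw [u2, u1 v g1, u1 w g2]; exact f2' v a w b he
      · rw [u1 v g1, u1 w g2, u1 y hy]; exact h.d3 v a w b he y hy hyv hyw
    · simp only [Prod.mk.injEq] at hne
      obtain ⟨rfl, rfl, rfl, rfl⟩ := hne
      rcases hy with rfl | hy
      · exact absurd rfl hyw
      · rw [u2, u1 _ (h0 _ _ _ hn).1, u1 y hy]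
        exact f4' v a b hn y hy hyv

theorem mul_mem_slit {t : ℝ} (ht : 0 < t) (w : ℂ) : (t : ℂ) * w ∈ slitPlane ↔ w ∈ slitPlane :=
  Pos.mul_mem ⟨t, ht, rfl⟩

theorem ev_slit {F : ℝ → ℂ} (hF : ContinuousAt F 0) (h : F 0 ∈ slitPlane) :
    ∀ᶠ t in 𝓝[>] (0 : ℝ), F t ∈ slitPlane :=
  (hF.eventually (isOpen_slitPlane.mem_nhds h)).filter_mono nhdsWithin_le_nhds

theorem ev_slit' {F G : ℝ → ℂ} (hF : ContinuousAt F 0) (h : F 0 ∈ slitPlane)
    (hG : ∀ t : ℝ, 0 < t → (t : ℂ) * G t = F t) : ∀ᶠ t in 𝓝[>] (0 : ℝ), G t ∈ slitPlane := by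
  filter_upwards [ev_slit hF h, self_mem_nhdsWithin] with t ht ht'
  rw [← hG t ht', mul_mem_slit ht'] at ht
  exact ht

theorem ev_slit'' {F G : ℝ → ℂ} (hF : ContinuousAt F 0) (h : F 0 ∈ slitPlane)
    (hG : ∀ t : ℝ, 0 < t → G t = t * F t) : ∀ᶠ t in 𝓝[>] (0 : ℝ), G t ∈ slitPlane := by
  filter_upwards [ev_slit hF h, self_mem_nhdsWithin] with t ht ht'
  rw [hG t ht', mul_mem_slit ht']
  exact ht

theorem ev_ne {F : ℝ → ℂ} (hF : ContinuousAt F 0) (h : F 0 ≠ 0) :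
    ∀ᶠ t in 𝓝[>] (0 : ℝ), F t ≠ 0 :=
  (hF.eventually_ne h).filter_mono nhdsWithin_le_nhds

theorem ev_pos : ∀ᶠ t in 𝓝[>] (0 : ℝ), 0 < t := self_mem_nhdsWithin

/-- The point at distance `1/t` in direction `δ`. -/
noncomputable def far (P δ γ : ℂ) (t : ℝ) : ℂ × ℂ := (γ * (t * P + δ), γ * t)

theorem br_far (u : ℂ × ℂ) (P δ γ : ℂ) (t : ℝ) :
    br u (far P δ γ t) = γ * (t * (u.1 - u.2 * P) - u.2 * δ) := by
  unfold br far; ring

section far

variable {V : Set ι} {E : Set (ι × ℂ × ι × ℂ)} {ψ : ι → ℂ × ℂ} {o : ι} {P δ γ : ℂ}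

theorem far_h1 (h : Dr V E ψ) (ho : o ∈ V) (hψ : ψ o = (1, 0)) (hδ : δ ≠ 0) (hγ : γ ≠ 0) :
    ∀ v ∈ V, ∀ᶠ t in 𝓝[>] (0 : ℝ), br (ψ v) (far P δ γ t) ≠ 0 := by
  intro v hv
  by_cases hvo : v = o
  · filter_upwards [ev_pos] with t ht
    rw [hvo, hψ, br_far]
    have : (t : ℂ) ≠ 0 := by exact_mod_cast ht.ne'
    simp [hγ, this]
  · have hb : (ψ v).2 ≠ 0 := by
      have := h.d1 v hv o ho hvo
      rw [hψ] at this
      intro h0
      apply this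
      simp [br, h0]
    simp only [br_far]
    refine ev_ne (by fun_prop) ?_
    simp [hγ, hb, hδ]

theorem far_h2 (h : Dr V E ψ) (ho : o ∈ V) (hψ : ψ o = (1, 0)) (hδ : δ ≠ 0) (hγ : γ ≠ 0)
    (hr : ∀ v a w b, (v, a, w, b) ∈ E → v ≠ o ∧ (w = o → -(a / (δ * (ψ v).2 ^ 2)) ∈ slitPlane)) :
    ∀ v a w b, (v, a, w, b) ∈ E → ∀ᶠ t in 𝓝[>] (0 : ℝ),
      a * br (ψ w) (far P δ γ t) / (br (ψ w) (ψ v) * br (ψ v) (far P δ γ t)) ∈ slitPlane := by
  intro v a w b he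
  obtain ⟨hvo, hwo⟩ := hr v a w b he
  obtain ⟨hv, hw, hvw, -, -⟩ := h.wf v a w b he
  have hb : ∀ v ∈ V, v ≠ o → (ψ v).2 ≠ 0 := by
    intro v hv hvo
    have := h.d1 v hv o ho hvo
    rw [hψ] at this
    intro h0
    apply this
    simp [br, h0]
  have hbv := hb v hv hvo
  by_cases h' : w = o
  · have h2 := hwo h'
    have hwψ : ψ w = (1, 0) := h' ▸ hψ
    simp only [br_far, hwψ]
    refine ev_slit'' (F := fun t : ℝ => a / ((ψ v).2 * (t * ((ψ v).1 - (ψ v).2 * P) - (ψ v).2 * δ)))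
      ?_ ?_ ?_
    · refine ContinuousAt.div (by fun_prop) (by fun_prop) ?_
      simp [hbv, hδ]
    · convert h2 using 1
      simp only [ofReal_zero]
      field_simp
      ring
    · intro t ht
      have : br (1, 0) (ψ v) = (ψ v).2 := by simp [br]
      rw [this]
      by_cases h9 : t * ((ψ v).1 - (ψ v).2 * P) - (ψ v).2 * δ = 0
      · simp [h9]
      · field_simp
        ring
  · have hbw := hb w hw h'
    have hwv := h.d1 w hw v hv hvw.symm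
    simp only [br_far]
    refine ev_slit ?_ ?_
    · refine ContinuousAt.div (by fun_prop) (by fun_prop) ?_
      simp [hbv, hδ, hwv, hγ]
    · have h3 := h.d3 v a w b he o ho (Ne.symm hvo) (Ne.symm h')
      convert h3 using 1
      have e1 : br (ψ w) (ψ o) = -(ψ w).2 := by rw [hψ]; simp [br]
      have e2 : br (ψ v) (ψ o) = -(ψ v).2 := by rw [hψ]; simp [br]
      rw [e1, e2, ofReal_zero, zero_mul, zero_sub, zero_mul, zero_sub, div_eq_div_iff]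
      · ring
      · exact mul_ne_zero hwv (mul_ne_zero hγ (neg_ne_zero.2 (mul_ne_zero hbv hδ)))
      · exact mul_ne_zero hwv (neg_ne_zero.2 hbv)

/-- Adding a vertex without edges. -/
theorem Dr.addPt [DecidableEq ι] (h : Dr V E ψ) (hV : V.Finite) (hE : E.Finite) {x : ι}
    (hx : x ∉ V) (ho : o ∈ V) (hψ : ψ o = (1, 0)) (hδ : δ ≠ 0)
    (hr : ∀ v a w b, (v, a, w, b) ∈ E → v ≠ o ∧ (w = o → -(a / (δ * (ψ v).2 ^ 2)) ∈ slitPlane)) :
    ∃ p, Dr (insert x V) E (Function.update ψ x p) := by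
  obtain ⟨p, hp⟩ := h.add hV hE hx (far 0 δ 1) ∅ Set.finite_empty (by simp)
    (far_h1 h ho hψ hδ one_ne_zero) (far_h2 h ho hψ hδ one_ne_zero hr) (by simp) (by simp)
  refine ⟨p, ?_⟩
  simpa using hp

theorem ev_line {w u : ℂ} (hu : u.im ≠ 0) {τ : ℝ → ℝ} (hτ : ContinuousAt τ 0) (h0 : τ 0 = 0)
    (hpos : ∀ᶠ t in 𝓝[>] (0 : ℝ), 0 < τ t) :
    ∀ᶠ t in 𝓝[>] (0 : ℝ), (τ t : ℂ) * u + w ∈ slitPlane := by
  by_cases hw : w ∈ slitPlane
  · refine ev_slit ?_ ?_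
    · have : ContinuousAt (fun t => (τ t : ℂ)) 0 := continuous_ofReal.continuousAt.comp hτ
      fun_prop
    · simpa [h0] using hw
  · obtain ⟨s, -, rfl⟩ := notMem_slit.1 hw
    filter_upwards [hpos] with t ht
    rw [mem_slitPlane_iff]
    right
    simp [hu, ht.ne']

/-- Adding a vertex that is adjacent to vertices on a line in direction `δ`. -/
theorem Dr.addLine [DecidableEq ι] (h : Dr V E ψ) (hV : V.Finite) (hE : E.Finite) {x : ι}
    (hx : x ∉ V) (ho : o ∈ V) (hψ : ψ o = (1, 0)) (hδ : δ ≠ 0)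
    (hr : ∀ v a w b, (v, a, w, b) ∈ E → v ≠ o ∧ (w = o → -(a / (δ * (ψ v).2 ^ 2)) ∈ slitPlane))
    (P : ℂ) (N : Set (ι × ℂ × ℂ)) (hN : N.Finite)
    (hN0 : ∀ w a c, (w, a, c) ∈ N → w ∈ V ∧ ‖a‖ = 1 ∧ a * c = 1 ∧ (a / δ).im ≠ 0 ∧
      ∃ k : ℝ, ψ w = (P + k * δ, 1)) :
    ∃ p, Dr (insert x V) (E ∪ {e | ∃ w a c, (w, a, c) ∈ N ∧ e = (w, a, x, c)})
      (Function.update ψ x p) := by
  have hγ : I / δ ≠ 0 := div_ne_zero I_ne_zero hδ
  have key : ∀ k : ℝ, ∀ᶠ t in 𝓝[>] (0 : ℝ), 0 < 1 - k * t := by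
    intro k
    have : ContinuousAt (fun t : ℝ => 1 - k * t) 0 := by fun_prop
    refine (this.eventually (lt_mem_nhds ?_)).filter_mono nhdsWithin_le_nhds
    simp
  refine h.add hV hE hx (far P δ (I / δ)) N hN ?_ (far_h1 h ho hψ hδ hγ)
    (far_h2 h ho hψ hδ hγ hr) ?_ ?_
  · intro w a c hn
    obtain ⟨g1, g2, g3, -, -⟩ := hN0 w a c hn
    refine ⟨g1, g2, ?_⟩
    have : ‖a * c‖ = 1 := by rw [g3]; simp
    rwa [norm_mul, g2, one_mul] at this
  · intro w a c hn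
    obtain ⟨g1, g2, g3, -, k, hk⟩ := hN0 w a c hn
    filter_upwards [key k] with t ht
    refine ⟨(1 - k * t) ^ 2, by positivity, ?_⟩
    have e : br (ψ w) (far P δ (I / δ) t) = I * (k * t - 1) := by
      rw [br_far, hk]; field_simp; ring
    rw [g3, map_one, mul_one, e]
    push_cast
    linear_combination (-(1 - (k : ℂ) * t) ^ 2) * I_sq
  · intro w a c hn y hy hyw
    obtain ⟨g1, g2, g3, g4, k, hk⟩ := hN0 w a c hn
    have hwy := h.d1 w g1 y hy hyw.symm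
    have h1 : ∀ᶠ t in 𝓝[>] (0 : ℝ), ((t / (1 - k * t) : ℝ) : ℂ) * (a / δ) +
        a * (ψ y).2 / br (ψ w) (ψ y) ∈ slitPlane := by
      refine ev_line g4 ?_ (by simp) ?_
      · refine ContinuousAt.div (by fun_prop) (by fun_prop) (by simp)
      · filter_upwards [key k, ev_pos] with t ht ht'
        positivity
    filter_upwards [h1, key k] with t ht ht'
    convert ht using 1
    have e1 : ((1 : ℂ) - k * t) ≠ 0 := by exact_mod_cast ht'.ne'
    have e2 : br (far P δ (I / δ) t) (ψ w) = I * (1 - k * t) := by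
      rw [br_comm, br_far, hk]; field_simp; ring
    have e3 : br (far P δ (I / δ) t) (ψ y) = I / δ * (t * br (ψ w) (ψ y) +
        δ * (1 - k * t) * (ψ y).2) := by
      rw [br_comm, br_far, hk]; unfold br; ring
    rw [e2, e3]
    have e4 := I_ne_zero
    have e5 : ((1 : ℂ) - t * k) ≠ 0 := by rw [mul_comm]; exact e1
    generalize br (ψ w) (ψ y) = B at *
    push_cast
    field_simp

end far

/-! ### Adding a leaf -/

theorem unit_slit {a b : ℂ} (ha : ‖a‖ = 1) (hb : ‖b‖ = 1) (hab : a ≠ b) :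
    -(a / b) ∈ slitPlane := by
  by_contra h
  obtain ⟨s, hs, h1⟩ := notMem_slit.1 h
  have h2 : a / b = s := neg_injective h1
  have h3 : ‖a / b‖ = s := by rw [h2, norm_real, Real.norm_eq_abs, abs_of_nonneg hs]
  rw [norm_div, ha, hb, div_one] at h3
  rw [← h3, ofReal_one, div_eq_one_iff_eq (unit_ne hb)] at h2
  exact hab h2

theorem Dr.addLeaf [DecidableEq ι] {V : Set ι} {E : Set (ι × ℂ × ι × ℂ)} {ψ : ι → ℂ × ℂ}
    (h : Dr V E ψ) (hV : V.Finite) (hE : E.Finite) {x : ι} (hx : x ∉ V) {v o : ι} (hv : v ∈ V)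
    (ho : o ∈ V) (hvo : v ≠ o) {a : ℂ} (ha : ‖a‖ = 1)
    (hf : ∀ a' w b, (v, a', w, b) ∈ E → a' ≠ a) (hf' : ∀ a' w b, (w, b, v, a') ∈ E → a' ≠ a) :
    ∃ p, Dr (insert x V) (E ∪ {(v, a, x, 1)}) (Function.update ψ x p) := by
  obtain ⟨r, hr⟩ := IsAlgClosed.exists_pow_nat_eq a (n := 2) (by norm_num)
  have hrn : ‖r‖ = 1 := by
    have : ‖r‖ ^ 2 = 1 := by rw [← norm_pow, hr, ha]
    exact (pow_eq_one_iff_of_nonneg (norm_nonneg r) two_ne_zero).1 this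
  have ha0 := unit_ne ha
  have haa := unit_conj ha
  have hvo' := h.d1 v hv o ho hvo
  set γ : ℂ := I * conj r with hγ
  have hγ0 : γ ≠ 0 := mul_ne_zero I_ne_zero ((map_ne_zero _).2 (unit_ne hrn))
  have hγ2 : γ ^ 2 = -conj a := by
    rw [hγ, ← hr, map_pow, mul_pow, I_sq]; ring
  set c : ℂ := -(br (ψ v) (ψ o))⁻¹ with hc
  set φ : ℝ → ℂ × ℂ := fun t => (γ * ((ψ v).1 + t * (a * (c * (ψ o).1))),
    γ * ((ψ v).2 + t * (a * (c * (ψ o).2)))) with hφ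
  have hbr : ∀ u t, br u (φ t) = γ * (br u (ψ v) + t * (a * (c * br u (ψ o)))) := by
    intro u t; simp only [hφ, br]; ring
  have hbrv : ∀ t, br (ψ v) (φ t) = -(γ * (t * a)) := by
    intro t
    rw [hbr, br_self, hc]
    field_simp
    ring
  have hset : ({(v, a, x, 1)} : Set (ι × ℂ × ι × ℂ)) =
      {e | ∃ w a' c', (w, a', c') ∈ ({(v, a, 1)} : Set (ι × ℂ × ℂ)) ∧ e = (w, a', x, c')} := by
    ext e
    simp only [Set.mem_singleton_iff, Set.mem_ofPred_eq, Prod.mk.injEq]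
    constructor
    · rintro rfl; exact ⟨v, a, 1, ⟨rfl, rfl, rfl⟩, rfl⟩
    · rintro ⟨w, a', c', ⟨rfl, rfl, rfl⟩, rfl⟩; rfl
  rw [hset]
  refine h.add hV hE hx (l := 𝓝[>] (0 : ℝ)) φ {(v, a, 1)} (Set.finite_singleton _)
    ?_ ?_ ?_ ?_ ?_
  · intro w a' c' hn
    simp only [Set.mem_singleton_iff, Prod.mk.injEq] at hn
    obtain ⟨rfl, rfl, rfl⟩ := hn
    exact ⟨hv, ha, by simp⟩
  · intro y hy
    by_cases hyv : y = v
    · filter_upwards [ev_pos] with t ht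
      have : (t : ℂ) ≠ 0 := by exact_mod_cast ht.ne'
      rw [hyv, hbrv]
      exact neg_ne_zero.2 (mul_ne_zero hγ0 (mul_ne_zero this ha0))
    · simp only [hbr]
      refine ev_ne (by fun_prop) ?_
      simp [hγ0, h.d1 y hy v hv hyv]
  · intro v₁ a₁ w₁ b₁ he
    obtain ⟨g1, g2, g3, g4, g5⟩ := h.wf _ _ _ _ he
    have hwv := h.d1 w₁ g2 v₁ g1 g3.symm
    by_cases h1 : v₁ = v
    · subst h1
      refine ev_slit' (F := fun t => -(a₁ * (br (ψ w₁) (ψ v₁) +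
        t * (a * (c * br (ψ w₁) (ψ o)))) / (a * br (ψ w₁) (ψ v₁)))) ?_ ?_ ?_
      · fun_prop
      · have := unit_slit g4 ha (hf _ _ _ he)
        convert this using 1
        rw [ofReal_zero, zero_mul, add_zero]
        field_simp
      · intro t ht
        have : (t : ℂ) ≠ 0 := by exact_mod_cast ht.ne'
        rw [hbrv, hbr]
        field_simp
    · by_cases h2 : w₁ = v
      · subst h2
        have hvw := h.d1 v₁ g1 w₁ g2 g3
        refine ev_slit'' (F := fun t => -(a₁ * a / (br (ψ w₁) (ψ v₁) *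
          (br (ψ v₁) (ψ w₁) + t * (a * (c * br (ψ v₁) (ψ o))))))) ?_ ?_ ?_
        · refine ContinuousAt.neg (ContinuousAt.div (by fun_prop) (by fun_prop) ?_)
          simp [hwv, hvw]
        · have h5 := unit_slit ha g5 (hf' _ _ _ he).symm
          have h6 := h.d2 _ _ _ _ he
          rw [← h6.inv.mul_mem] at h5
          convert h5 using 1
          rw [ofReal_zero, zero_mul, add_zero, br_comm (ψ w₁) (ψ v₁), map_mul,
            eq_inv_of_mul_eq_one_right (unit_conj g4), eq_inv_of_mul_eq_one_right (unit_conj g5)]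
          have := unit_ne g4
          have := unit_ne g5
          field_simp
        · intro t ht
          rw [hbrv, hbr]
          by_cases h9 : br (ψ v₁) (ψ w₁) + t * (a * (c * br (ψ v₁) (ψ o))) = 0
          · simp [h9]
          · field_simp
      · simp only [hbr]
        have hv₁v := h.d1 v₁ g1 v hv h1
        refine ev_slit ?_ ?_
        · refine ContinuousAt.div (by fun_prop) (by fun_prop) ?_
          simp [hwv, hv₁v, hγ0]
        · have h3 := h.d3 _ _ _ _ he v hv (Ne.symm h1) (Ne.symm h2)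
          convert h3 using 1
          simp only [ofReal_zero, zero_mul, add_zero]
          field_simp
  · intro w a' c' hn
    simp only [Set.mem_singleton_iff, Prod.mk.injEq] at hn
    obtain ⟨rfl, rfl, rfl⟩ := hn
    filter_upwards [ev_pos] with t ht
    refine ⟨t ^ 2, by positivity, ?_⟩
    rw [hbrv, mul_one]
    push_cast
    linear_combination (-(t : ℂ) ^ 2 * a' ^ 2 * conj a') * hγ2 +
      (t : ℂ) ^ 2 * (a' * conj a' + 1) * haa
  · intro w a' c' hn y hy hyw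
    simp only [Set.mem_singleton_iff, Prod.mk.injEq] at hn
    obtain ⟨rfl, rfl, rfl⟩ := hn
    have hwy := h.d1 w hv y hy hyw.symm
    refine ev_slit' (F := fun t => -((br (ψ y) (ψ w) + t * (a' * (c * br (ψ y) (ψ o)))) /
      br (ψ w) (ψ y))) ?_ ?_ ?_
    · fun_prop
    · rw [ofReal_zero, zero_mul, add_zero, br_comm (ψ y) (ψ w), neg_div, neg_neg,
        div_self hwy]
      exact one_mem_slitPlane
    · intro t ht
      have : (t : ℂ) ≠ 0 := by exact_mod_cast ht.ne'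
      rw [br_comm (φ t) (ψ y), br_comm (φ t) (ψ w), hbrv, hbr]
      field_simp

end Pool.Agent.H678.Lomb
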